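import Pool.Agent.N62.RF.Stm

/-!
Project LF (helper62), task ARPX: the pair of properties passes to extensions (helper833).
-/

set_option autoImplicit false

namespace Pool.Agent.N62.RF.ARPX

theorem t : S_ARPX := by
  rintro F _ U _ _ c V W Z hV hW hZ ⟨hWV, ⟨m₀, hm₀⟩, hK₀⟩ ⟨hZW, ⟨m₁, hm₁⟩, hK₁⟩
  refine ⟨hZW.trans hWV, ?_, ?_⟩
  · -- the first property
    obtain ⟨K, hK, hK2⟩ := hK₀ m₁
    obtain ⟨j, rfl⟩ := Nat.exists_eq_add_of_le hK
    refine ⟨m₀ + (m₁ + j), fun w hw v hv v' hv' h1 h2 h3 => ?_⟩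
    have hwW : w ∈ W := by
      refine hm₀ w hw (c ^ (m₁ + j) * v) (hV _ _ hv).1 (v' * c ^ (m₁ + j)) (hV _ _ hv').2 ?_
        (hZW h2) (hZW h3)
      have e : c ^ m₀ * (c ^ (m₁ + j) * v) + v' * c ^ (m₁ + j) * c ^ m₀ =
          c ^ (m₀ + (m₁ + j)) * v + v' * c ^ (m₀ + (m₁ + j)) := by
        rw [← mul_assoc, ← pow_add, mul_assoc v', ← pow_add, add_comm (m₁ + j) m₀]
      rw [e]
      exact hZW h1
    have e0 : c ^ (m₁ + j) * (c ^ m₀ * v) + v' * c ^ m₀ * c ^ (m₁ + j) =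
        c ^ (m₀ + (m₁ + j)) * v + v' * c ^ (m₀ + (m₁ + j)) := by
      rw [← mul_assoc, ← pow_add, mul_assoc v', ← pow_add, add_comm (m₁ + j) m₀]
    have h4 : c ^ (m₁ + j) * (c ^ m₀ * v) + v' * c ^ m₀ * c ^ (m₁ + j) ∈ W := by
      rw [e0]
      have h5 := W.sub_mem hwW (hZW h1)
      rwa [sub_sub_cancel] at h5
    obtain ⟨u, hu, h6, h7⟩ := hK2 (c ^ m₀ * v) (hV _ _ hv).1 (v' * c ^ m₀) (hV _ _ hv').2 h4
    rw [Nat.add_sub_cancel_left] at h6 h7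
    refine hm₁ w hwW _ h6 _ h7 ?_ h2 h3
    have e1 : c ^ m₁ * (c ^ j * (c ^ m₀ * v) - u * c ^ m₁) +
        (v' * c ^ m₀ * c ^ j + c ^ m₁ * u) * c ^ m₁ =
        c ^ (m₀ + (m₁ + j)) * v + v' * c ^ (m₀ + (m₁ + j)) := by
      rw [← e0, mul_sub, add_mul, ← mul_assoc (c ^ m₁) (c ^ j), ← pow_add,
        mul_assoc (v' * c ^ m₀) (c ^ j), ← pow_add, add_comm j m₁, ← mul_assoc (c ^ m₁) u]
      abel
    rw [e1]
    exact h1
  · -- the second property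
    intro K'
    obtain ⟨K2, hK2, h1⟩ := hK₁ K'
    obtain ⟨K, hK, h2⟩ := hK₀ K2
    refine ⟨K, hK2.trans hK, fun v hv v' hv' h3 => ?_⟩
    obtain ⟨i, rfl⟩ := Nat.exists_eq_add_of_le hK2
    obtain ⟨j, rfl⟩ := Nat.exists_eq_add_of_le hK
    obtain ⟨u, hu, h4, h5⟩ := h2 v hv v' hv' (hZW h3)
    rw [Nat.add_sub_cancel_left] at h4 h5
    have e0 : c ^ (K' + i) * (c ^ j * v - u * c ^ (K' + i)) +
        (v' * c ^ j + c ^ (K' + i) * u) * c ^ (K' + i) =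
        c ^ (K' + i + j) * v + v' * c ^ (K' + i + j) := by
      rw [mul_sub, add_mul, ← mul_assoc (c ^ (K' + i)) (c ^ j), ← pow_add,
        mul_assoc v' (c ^ j), ← pow_add, add_comm j (K' + i), ← mul_assoc (c ^ (K' + i)) u]
      abel
    obtain ⟨u1, hu1, h6, h7⟩ := h1 _ h4 _ h5 (by rw [e0]; exact h3)
    rw [Nat.add_sub_cancel_left] at h6 h7
    have e2 : K' + i + j - K' = i + j := by omega
    rw [e2]
    have hc1 : c ^ i * c ^ K' = c ^ (K' + i) := by rw [← pow_add, add_comm]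
    have hc2 : c ^ K' * c ^ i = c ^ (K' + i) := by rw [← pow_add]
    have hc3 : c ^ (i + j) = c ^ i * c ^ j := pow_add _ _ _
    have hc4 : c ^ (i + j) = c ^ j * c ^ i := by rw [← pow_add, add_comm]
    refine ⟨c ^ i * u * c ^ i + u1, V.add_mem (hV _ _ (hV _ _ hu).1).2 (hWV hu1), ?_, ?_⟩
    · have e3 : c ^ (i + j) * v - (c ^ i * u * c ^ i + u1) * c ^ K' =
          c ^ i * (c ^ j * v - u * c ^ (K' + i)) - u1 * c ^ K' := by
        rw [hc3, add_mul, mul_assoc (c ^ i * u), hc1, mul_sub, mul_assoc (c ^ i) (c ^ j),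
          mul_assoc (c ^ i) u]
        abel
      rw [e3]
      exact h6
    · have e3 : v' * c ^ (i + j) + c ^ K' * (c ^ i * u * c ^ i + u1) =
          (v' * c ^ j + c ^ (K' + i) * u) * c ^ i + c ^ K' * u1 := by
        rw [hc4, mul_add, add_mul, ← mul_assoc (c ^ K') (c ^ i * u), ← mul_assoc (c ^ K') (c ^ i),
          hc2, mul_assoc v']
        abel
      rw [e3]
      exact h7

end Pool.Agent.N62.RF.ARPX
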