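import Pool.Agent.N62.RF.Stm2
import Pool.Agent.N62.RF.Base

/-! Task CLAIM: the key claim for nilpotent `D`. -/

set_option autoImplicit false

namespace Pool.Agent.N62.RF.CLAIM

open MvPolynomial

section

variable {F : Type} [Field F] {U : Type} [Ring U] [Algebra F U]

/-- the elements `c^m s + t c^m` -/
def TT (F : Type) [Field F] {U : Type} [Ring U] [Algebra F U] (c : U) (m : ℕ) : Submodule F U :=
  LinearMap.range (LinearMap.mulLeft F (c ^ m)) ⊔ LinearMap.range (LinearMap.mulRight F (c ^ m))

theorem mem_TT {c : U} {m : ℕ} {w : U} :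
    w ∈ TT F c m ↔ ∃ s t : U, w = c ^ m * s + t * c ^ m := by
  rw [TT, Submodule.mem_sup]
  constructor
  · rintro ⟨_, ⟨s, rfl⟩, _, ⟨t, rfl⟩, rfl⟩
    exact ⟨s, t, rfl⟩
  · rintro ⟨s, t, rfl⟩
    exact ⟨_, ⟨s, rfl⟩, _, ⟨t, rfl⟩, rfl⟩

theorem left_TT {c : U} {m k : ℕ} (h : m ≤ k) (u : U) : c ^ k * u ∈ TT F c m := by
  rw [mem_TT]
  obtain ⟨l, rfl⟩ := Nat.exists_eq_add_of_le h
  exact ⟨c ^ l * u, 0, by rw [pow_add]; noncomm_ring⟩

theorem right_TT {c : U} {m k : ℕ} (h : m ≤ k) (u : U) : u * c ^ k ∈ TT F c m := by
  rw [mem_TT]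
  obtain ⟨l, rfl⟩ := Nat.exists_eq_add_of_le' h
  exact ⟨0, u * c ^ l, by rw [pow_add]; noncomm_ring⟩

theorem mul_left_TT {c q : U} {m : ℕ} (h : Commute q c) {w : U} (hw : w ∈ TT F c m) :
    q * w ∈ TT F c m := by
  obtain ⟨s, t, rfl⟩ := mem_TT.1 hw
  rw [mem_TT]
  refine ⟨q * s, q * t, ?_⟩
  have h1 : q * c ^ m = c ^ m * q := (h.pow_right m).eq
  rw [mul_add, ← mul_assoc, h1, mul_assoc, mul_assoc]

theorem mul_right_TT {c q : U} {m : ℕ} (h : Commute q c) {w : U} (hw : w ∈ TT F c m) :
    w * q ∈ TT F c m := by
  obtain ⟨s, t, rfl⟩ := mem_TT.1 hw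
  rw [mem_TT]
  refine ⟨s * q, t * q, ?_⟩
  have h1 : q * c ^ m = c ^ m * q := (h.pow_right m).eq
  rw [add_mul, mul_assoc, mul_assoc t q, h1, mul_assoc]

/-! ### polynomials without pure monomials -/

theorem coeff_mid (V : MvPolynomial (Fin 3) F) (n : ℕ) :
    (mid V).coeff n = coeff (Finsupp.single 0 n) V := by
  induction V using MvPolynomial.induction_on' with
  | monomial m a =>
    rw [mid, aeval_monomial, coeff_monomial, Finsupp.prod_fintype _ _ (by simp),
      Fin.prod_univ_three]
    simp only [Matrix.cons_val_zero, Matrix.cons_val_one, Matrix.cons_val]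
    by_cases h1 : m 1 = 0
    · by_cases h2 : m 2 = 0
      · have hm : m = Finsupp.single 0 (m 0) := by
          ext i
          fin_cases i <;> simp [h1, h2]
        rw [h1, h2, pow_zero, mul_one, mul_one, Polynomial.algebraMap_apply,
          Algebra.algebraMap_self_apply, Polynomial.coeff_C_mul_X_pow]
        by_cases h : n = m 0
        · rw [if_pos h, if_pos (by rw [hm, h])]
        · rw [if_neg h, if_neg]
          intro h'
          rw [h'] at h
          simp at h
      · rw [zero_pow h2, mul_zero, mul_zero, Polynomial.coeff_zero, if_neg]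
        rintro rfl
        simp at h2
    · rw [zero_pow h1, mul_zero, zero_mul, mul_zero, Polynomial.coeff_zero, if_neg]
      rintro rfl
      simp at h1
  | add p q hp hq => simp [hp, hq]

/-- all monomials have degree at least `l` in `X 1`, `X 2` -/
def HL (l : ℕ) (V : MvPolynomial (Fin 3) F) : Prop := ∀ m ∈ V.support, l ≤ m 1 + m 2

theorem hl_of_mid {V : MvPolynomial (Fin 3) F} (h : mid V = 0) : HL 1 V := by
  intro m hm
  by_contra hcon
  have h1 : m 1 = 0 := by omega
  have h2 : m 2 = 0 := by omega
  have hm' : m = Finsupp.single 0 (m 0) := by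
    ext i
    fin_cases i <;> simp [h1, h2]
  rw [mem_support_iff, hm', ← coeff_mid, h] at hm
  simp at hm

theorem HL.mul {l l' : ℕ} {V V' : MvPolynomial (Fin 3) F} (h : HL l V) (h' : HL l' V') :
    HL (l + l') (V * V') := by
  classical
  intro m hm
  obtain ⟨a, ha, b, hb, rfl⟩ := Finset.mem_add.1 (support_mul V V' hm)
  have h1 := h a ha
  have h2 := h' b hb
  simp only [Finsupp.add_apply]
  omega

theorem hl_zero (V : MvPolynomial (Fin 3) F) : HL 0 V := fun _ _ => Nat.zero_le _

theorem HL.pow {V : MvPolynomial (Fin 3) F} (h : HL 1 V) (l : ℕ) : HL l (V ^ l) := by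
  induction l with
  | zero => exact hl_zero _
  | succ l ih => rw [pow_succ]; exact ih.mul h

theorem HL.mono {l l' : ℕ} (hl : l' ≤ l) {V : MvPolynomial (Fin 3) F} (h : HL l V) : HL l' V :=
  fun m hm => hl.trans (h m hm)

theorem tri_hl {V : MvPolynomial (Fin 3) F} {m : ℕ} (h : HL (2 * m) V) (c x z : U) :
    tri c x z V ∈ TT F c m := by
  rw [tri_eq_sum]
  refine Submodule.sum_mem _ fun a ha => Submodule.smul_mem _ _ ?_
  have h1 := h a ha
  by_cases h2 : m ≤ a 1
  · have : c ^ a 1 * x * c ^ a 0 * z * c ^ a 2 = c ^ a 1 * (x * c ^ a 0 * z * c ^ a 2) := by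
      noncomm_ring
    rw [this]
    exact left_TT h2 _
  · exact right_TT (by omega) _

theorem tri_aeval (c x z : U) (q : Polynomial F) :
    tri c x z (Polynomial.aeval (X 0 : MvPolynomial (Fin 3) F) q) =
      x * Polynomial.aeval c q * z := by
  induction q using Polynomial.induction_on' with
  | add p q hp hq => rw [map_add, map_add, hp, hq, map_add]; noncomm_ring
  | monomial n a =>
    have h : Polynomial.aeval (X 0 : MvPolynomial (Fin 3) F) (Polynomial.monomial n a) =
        monomial (Finsupp.single 0 n) a := by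
      rw [Polynomial.aeval_monomial, X_pow_eq_monomial, algebraMap_eq, C_mul_monomial, mul_one]
    rw [h, tri_monomial, Polynomial.aeval_monomial]
    simp only [Finsupp.single_apply]
    rw [← Algebra.smul_def]
    simp

end

theorem t (hT : S_TRI) : S_CLAIM := by
  intro F _ U _ _ A D Φ e hA hD hDA hcomm hnil hlaw herr P hP π a00 hπ0 hdvd c hc
  obtain ⟨n, hn⟩ := hnil
  set y : U := Polynomial.aeval c π with hy
  -- the exponent
  obtain ⟨a0, ha0, Q1, hQ1⟩ : ∃ a0 : ℕ, 1 ≤ a0 ∧ mid P ∣ π ^ a0 :=
    ⟨a00 + 1, by omega, hdvd.trans (pow_dvd_pow _ (by omega))⟩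
  have hyc : Commute y c := by
    rw [hy]
    have := (Polynomial.aeval c : Polynomial F →ₐ[F] U).toRingHom
    have h1 : Polynomial.aeval c π * Polynomial.aeval c (Polynomial.X : Polynomial F) =
      Polynomial.aeval c (Polynomial.X : Polynomial F) * Polynomial.aeval c π := by
      rw [← map_mul, ← map_mul, mul_comm]
    rw [Polynomial.aeval_X] at h1
    exact h1
  obtain ⟨π', hπ'⟩ := Polynomial.X_dvd_iff.2 hπ0
  have hyk : ∀ k : ℕ, ∃ q : U, y ^ k = c ^ k * q ∧ y ^ k = q * c ^ k := by
    intro k
    refine ⟨Polynomial.aeval c (π' ^ k), ?_, ?_⟩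
    · rw [hy, hπ', ← map_pow, mul_pow, map_mul, map_pow _ Polynomial.X, Polynomial.aeval_X]
    · rw [hy, hπ', ← map_pow, mul_comm Polynomial.X, mul_pow, map_mul, map_pow _ Polynomial.X,
        Polynomial.aeval_X]
  have hyl : ∀ (m k : ℕ) (u : U), m ≤ k → y ^ k * u ∈ TT F c m := by
    intro m k u hk
    obtain ⟨q, hq, -⟩ := hyk k
    rw [hq, mul_assoc]
    exact left_TT hk _
  have hyr : ∀ (m k : ℕ) (u : U), m ≤ k → u * y ^ k ∈ TT F c m := by
    intro m k u hk
    obtain ⟨q, -, hq⟩ := hyk k
    rw [hq, ← mul_assoc]
    exact right_TT hk _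
  -- the polynomials
  set U0 : MvPolynomial (Fin 3) F := Polynomial.aeval (X 0) (π ^ a0) with hU0
  set V : MvPolynomial (Fin 3) F := U0 - Polynomial.aeval (X 0) Q1 * P with hV
  have hmidX : ∀ q : Polynomial F, mid (Polynomial.aeval (X 0 : MvPolynomial (Fin 3) F) q) = q := by
    intro q
    rw [← Polynomial.aeval_algHom_apply]
    have : mid (X 0 : MvPolynomial (Fin 3) F) = Polynomial.X := by
      rw [mid, aeval_X]; rfl
    rw [this, Polynomial.aeval_X_left_apply]
  have hmidV : mid V = 0 := by
    rw [hV, map_sub, map_mul, hU0, hmidX, hmidX, hQ1, mul_comm, sub_self]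
  have hHL : HL 1 V := hl_of_mid hmidV
  -- the main induction
  have main : ∀ r t : ℕ, 2 * n ≤ t + r → ∀ m : ℕ, ∃ k0 : ℕ, ∀ k, k0 ≤ k → ∀ i j, t ≤ i + j →
      ∀ x ∈ ip D i, ∀ z ∈ ip D j, x * y ^ k * z ∈ TT F c m := by
    intro r
    induction r with
    | zero =>
      intro t ht m
      refine ⟨0, fun k _ i j hij x hx z hz => ?_⟩
      have hzero : ∀ i, n ≤ i → ∀ x ∈ ip D i, x = 0 := by
        intro i hi x hx
        have := ip_le hD hi hx
        rwa [hn, Submodule.mem_bot] at this
      rcases Nat.lt_or_ge i n with h | h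
      · rw [hzero j (by omega) z hz, mul_zero]; exact zero_mem _
      · rw [hzero i h x hx, zero_mul, zero_mul]; exact zero_mem _
    | succ r ih =>
      intro t ht m
      obtain ⟨k0, hk0⟩ := ih (t + 1) (by omega) m
      refine ⟨max (m + k0 + 1) (a0 * (2 * m + k0 + 1)), fun k hk i j hij x hx z hz => ?_⟩
      have hk1 : m + k0 + 1 ≤ k := (le_max_left _ _).trans hk
      have hk2 : a0 * (2 * m + k0 + 1) ≤ k := (le_max_right _ _).trans hk
      rcases Nat.lt_or_ge t (i + j) with hlt | hge
      · exact hk0 k (by omega) i j hlt x hx z hz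
      have hijt : i + j = t := le_antisymm hge hij
      rcases Nat.eq_zero_or_pos i with hi | hi
      · -- `i = 0`
        have e1 : x * y ^ k * z = y ^ k * (x * z) +
            ∑ s ∈ Finset.range k, y ^ s * ((x * y - y * x) * y ^ (k - 1 - s) * z) := by
          have e2 : ∀ k : ℕ, x * y ^ k - y ^ k * x =
              ∑ s ∈ Finset.range k, y ^ s * (x * y - y * x) * y ^ (k - 1 - s) := by
            intro k
            induction k with
            | zero => simp
            | succ k ihk =>
              rw [Finset.sum_range_succ]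
              have e3 : ∑ s ∈ Finset.range k, y ^ s * (x * y - y * x) * y ^ (k + 1 - 1 - s) =
                  (∑ s ∈ Finset.range k, y ^ s * (x * y - y * x) * y ^ (k - 1 - s)) * y := by
                rw [Finset.sum_mul]
                refine Finset.sum_congr rfl fun s hs => ?_
                have hs' := Finset.mem_range.1 hs
                have : k + 1 - 1 - s = (k - 1 - s) + 1 := by omega
                rw [this, pow_succ y (k - 1 - s)]
                noncomm_ring
              rw [e3, ← ihk]
              simp only [Nat.add_sub_cancel, Nat.sub_self, pow_zero, mul_one, pow_succ]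
              noncomm_ring
          have e4 : x * y ^ k = y ^ k * x +
              ∑ s ∈ Finset.range k, y ^ s * (x * y - y * x) * y ^ (k - 1 - s) := by
            rw [← e2 k]; noncomm_ring
          rw [e4, add_mul, Finset.sum_mul, mul_assoc]
          congr 1
          refine Finset.sum_congr rfl fun s _ => ?_
          noncomm_ring
        rw [e1]
        refine add_mem (hyl m k _ (by omega)) (Submodule.sum_mem _ fun s hs => ?_)
        rcases Nat.lt_or_ge s m with hs1 | hs1
        · refine mul_left_TT (hyc.pow_left s) ?_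
          refine hk0 _ (by omega) 1 j (by omega) _ ?_ z hz
          rw [ip_one hD]
          exact hcomm x y
        · exact hyl m s _ hs1
      rcases Nat.eq_zero_or_pos j with hj | hj
      · -- `j = 0`
        have e1 : x * y ^ k * z = x * z * y ^ k +
            ∑ s ∈ Finset.range k, (x * y ^ s * (y * z - z * y)) * y ^ (k - 1 - s) := by
          have e2 : ∀ k : ℕ, y ^ k * z - z * y ^ k =
              ∑ s ∈ Finset.range k, y ^ s * (y * z - z * y) * y ^ (k - 1 - s) := by
            intro k
            induction k with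
            | zero => simp
            | succ k ihk =>
              rw [Finset.sum_range_succ]
              have e3 : ∑ s ∈ Finset.range k, y ^ s * (y * z - z * y) * y ^ (k + 1 - 1 - s) =
                  (∑ s ∈ Finset.range k, y ^ s * (y * z - z * y) * y ^ (k - 1 - s)) * y := by
                rw [Finset.sum_mul]
                refine Finset.sum_congr rfl fun s hs => ?_
                have hs' := Finset.mem_range.1 hs
                have : k + 1 - 1 - s = (k - 1 - s) + 1 := by omega
                rw [this, pow_succ y (k - 1 - s)]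
                noncomm_ring
              rw [e3, ← ihk]
              simp only [Nat.add_sub_cancel, Nat.sub_self, pow_zero, mul_one, pow_succ]
              noncomm_ring
          have e4 : y ^ k * z = z * y ^ k +
              ∑ s ∈ Finset.range k, y ^ s * (y * z - z * y) * y ^ (k - 1 - s) := by
            rw [← e2 k]; noncomm_ring
          rw [mul_assoc, e4, mul_add, Finset.mul_sum, mul_assoc]
          congr 1
          refine Finset.sum_congr rfl fun s _ => ?_
          noncomm_ring
        rw [e1]
        refine add_mem (hyr m k _ (by omega)) (Submodule.sum_mem _ fun s hs => ?_)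
        have hs' := Finset.mem_range.1 hs
        rcases Nat.lt_or_ge (k - 1 - s) m with hs1 | hs1
        · refine mul_right_TT (hyc.pow_left _) ?_
          refine hk0 _ (by omega) i 1 (by omega) x hx _ ?_
          rw [ip_one hD]
          exact hcomm y z
        · exact hyr m _ _ hs1
      -- `1 ≤ i`, `1 ≤ j`
      have hxA : ∀ {l : ℕ} {x : U}, 1 ≤ l → x ∈ ip D l → x ∈ A := fun hl hx =>
        hDA (ip_le_self hD hl hx)
      -- the case of a multiple of `a0`
      have key : ∀ E : ℕ, 2 * m + k0 ≤ E → ∀ x ∈ ip D i, x * y ^ (a0 * E) * z ∈ TT F c m := by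
        intro E hE x hx
        have e1 : x * y ^ (a0 * E) * z = tri c x z (U0 ^ E) := by
          rw [hU0, ← map_pow (Polynomial.aeval (X 0 : MvPolynomial (Fin 3) F)), tri_aeval,
            ← pow_mul, map_pow]
        have e2 : U0 ^ E = V ^ E + ∑ s ∈ Finset.range E,
            U0 ^ s * ((Polynomial.aeval (X 0) Q1 * P) * V ^ (E - 1 - s)) := by
          have h1 := (Commute.all U0 V).geom_sum₂_mul E
          have h2 : U0 - V = Polynomial.aeval (X 0) Q1 * P := by rw [hV]; ring
          rw [h2] at h1
          rw [← sub_eq_iff_eq_add', ← h1, Finset.sum_mul]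
          refine Finset.sum_congr rfl fun s _ => ?_
          ring
        rw [e1, e2, map_add, map_sum]
        refine add_mem (tri_hl ((hHL.pow E).mono (by omega)) _ _ _)
          (Submodule.sum_mem _ fun s hs => ?_)
        have hs' := Finset.mem_range.1 hs
        rcases Nat.lt_or_ge (E - 1 - s) (2 * m) with hs1 | hs1
        · have e3 : U0 ^ s = Polynomial.aeval (X 0) (π ^ (a0 * s)) := by
            rw [hU0, ← map_pow, ← pow_mul]
          rw [e3]
          refine hT F U A Φ e hA hlaw c hc x (hxA hi hx) z (hxA hj hz) (π ^ (a0 * s)) (TT F c m)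
            ?_ _ ?_
          · intro a b l p hp
            rw [map_pow, ← hy]
            set K : ℕ := a0 * s with hK
            have hKk : k0 ≤ K := by
              have : s ≤ a0 * s := Nat.le_mul_of_pos_left s (by omega)
              omega
            have hx1 : c ^ a * x * c ^ b ∈ ip D i :=
              (idl_ip hD i _ _ (idl_ip hD i _ _ hx).1).2
            have hx2 : c ^ a * x * c ^ b * y ^ K ∈ ip D i := (idl_ip hD i _ _ hx1).2
            have hz1 : z * c ^ l ∈ ip D j := (idl_ip hD j _ _ hz).2
            rw [ev_eq_sum]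
            refine Submodule.sum_mem _ fun w hw => Submodule.smul_mem _ _ ?_
            obtain ⟨h1, h2, h3⟩ := herr w (mem_supp.1 hw)
            have hmem : (0 : Fin 3) ∈ w := List.count_pos_iff.1 h1
            obtain ⟨w1, w2, rfl⟩ := List.append_of_mem hmem
            have e4 : (List.map ![c ^ a * x * c ^ b * y ^ K, Polynomial.aeval c p, z * c ^ l]
                (w1 ++ 0 :: w2)).prod =
                ((w1.map ![c ^ a * x * c ^ b * y ^ K, Polynomial.aeval c p, z * c ^ l]).prod *
                  (c ^ a * x * c ^ b)) * y ^ K *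
                (w2.map ![c ^ a * x * c ^ b * y ^ K, Polynomial.aeval c p, z * c ^ l]).prod := by
              rw [List.map_append, List.prod_append, List.map_cons, List.prod_cons]
              change _ * ((c ^ a * x * c ^ b * y ^ K) * _) = _
              simp only [mul_assoc]
            rw [e4]
            have h5 := mul_mem_ip hD (word_mem hD (Polynomial.aeval c p) hx2 hz1 w1) hx1
            have h6 := word_mem hD (Polynomial.aeval c p) hx2 hz1 w2
            refine hk0 K hKk _ _ ?_ _ h5 _ h6
            have c0 : List.count 0 (w1 ++ 0 :: w2) = w1.count 0 + w2.count 0 + 1 := by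
              rw [List.count_append, List.count_cons_self]; ring
            have c2 : List.count 2 (w1 ++ 0 :: w2) = w1.count 2 + w2.count 2 := by
              rw [List.count_append, List.count_cons_of_ne (by decide)]
            rw [c2] at h2 h3
            rw [c0] at h3
            rw [← hijt]
            have h7 : w1.count 0 * i + w1.count 2 * j + i + (w2.count 0 * i + w2.count 2 * j) =
                i + (w1.count 0 + w2.count 0) * i + (w1.count 2 + w2.count 2) * j := by ring
            rw [h7]
            rcases Nat.eq_zero_or_pos (w1.count 0 + w2.count 0) with h | h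
            · have a2 : 2 * j ≤ (w1.count 2 + w2.count 2) * j :=
                Nat.mul_le_mul_right _ (by omega)
              omega
            · have a1 : 1 * i ≤ (w1.count 0 + w2.count 0) * i := Nat.mul_le_mul_right _ h
              have a2 : 1 * j ≤ (w1.count 2 + w2.count 2) * j := Nat.mul_le_mul_right _ h2
              omega
          · exact Ideal.mul_mem_right _ _ (Ideal.mul_mem_left _ _ hP)
        · refine tri_hl (m := m) ?_ _ _ _
          have h1 : HL (0 + (0 + (E - 1 - s)))
              (U0 ^ s * ((Polynomial.aeval (X 0) Q1 * P) * V ^ (E - 1 - s))) :=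
            (hl_zero _).mul ((hl_zero _).mul (hHL.pow _))
          exact h1.mono (by omega)
      have hkdiv := Nat.div_add_mod k a0
      have hE : 2 * m + k0 ≤ k / a0 := by
        have h1 : 2 * m + k0 + 1 ≤ k / a0 := by
          rw [Nat.le_div_iff_mul_le (by omega)]
          rw [mul_comm]
          exact hk2
        omega
      have h9 := key (k / a0) hE (x * y ^ (k % a0)) (idl_ip hD i _ _ hx).2
      have e9 : x * y ^ (k % a0) * y ^ (a0 * (k / a0)) = x * y ^ k := by
        rw [mul_assoc, ← pow_add, Nat.add_comm, hkdiv]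
      rw [e9] at h9
      exact h9
  intro m
  obtain ⟨k0, hk0⟩ := main (2 * n) 0 (by omega) m
  refine ⟨k0, fun u v => ?_⟩
  exact mem_TT.1 (hk0 k0 le_rfl 0 0 (by omega) u trivial v trivial)

end Pool.Agent.N62.RF.CLAIM
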