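import Pool.Agent.N62.RF.Stm

/-!
Project LF (helper62), task CONV (helper56): a quotient of `B0` which is not residually finite.
-/

set_option autoImplicit false

namespace Pool.Agent.N62.RF.CONV

open Polynomial

noncomputable section

/-- the functional `t ^ i ↦ 1` if `i` is a power of two, `0` otherwise -/
def lam (F : Type) [Field F] : F[X] →ₗ[F] F :=
  open scoped Classical in
  Polynomial.lsum fun i => if ∃ k : ℕ, i = 2 ^ k then LinearMap.id else 0

lemma lam_pow (F : Type) [Field F] (k : ℕ) : lam F (X ^ (2 ^ k)) = 1 := by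
  unfold lam
  rw [Polynomial.lsum_apply, ← Polynomial.monomial_one_right_eq_X_pow,
    Polynomial.sum_monomial_index _ _ (by simp)]
  rw [if_pos ⟨k, rfl⟩]
  rfl

lemma lam_pow0 (F : Type) [Field F] (n : ℕ) (h : ¬ ∃ k : ℕ, n = 2 ^ k) : lam F (X ^ n) = 0 := by
  unfold lam
  rw [Polynomial.lsum_apply, ← Polynomial.monomial_one_right_eq_X_pow,
    Polynomial.sum_monomial_index _ _ (by simp)]
  rw [if_neg h]
  rfl

/-- the ring which contains the quotient -/
@[ext] structure RR (F : Type) [Field F] where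
  a : F[X]
  b : F[X]
  c : F[X]
  d : F

namespace RR

variable {F : Type} [Field F]

instance : Zero (RR F) := ⟨⟨0, 0, 0, 0⟩⟩
instance : Add (RR F) := ⟨fun x y => ⟨x.a + y.a, x.b + y.b, x.c + y.c, x.d + y.d⟩⟩
instance : Neg (RR F) := ⟨fun x => ⟨-x.a, -x.b, -x.c, -x.d⟩⟩
instance : Sub (RR F) := ⟨fun x y => ⟨x.a - y.a, x.b - y.b, x.c - y.c, x.d - y.d⟩⟩
instance : SMul F (RR F) := ⟨fun r x => ⟨r • x.a, r • x.b, r • x.c, r • x.d⟩⟩
instance : SMul ℕ (RR F) := ⟨fun r x => ⟨r • x.a, r • x.b, r • x.c, r • x.d⟩⟩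
instance : SMul ℤ (RR F) := ⟨fun r x => ⟨r • x.a, r • x.b, r • x.c, r • x.d⟩⟩
instance : Mul (RR F) :=
  ⟨fun x y => ⟨x.a * y.b, x.b * y.b, x.b * y.c, lam F (x.a * y.c)⟩⟩

/-- the four coordinates -/
def toP (x : RR F) : F[X] × F[X] × F[X] × F := (x.a, x.b, x.c, x.d)

lemma toP_inj : Function.Injective (toP (F := F)) := by
  intro x y h
  simp only [toP, Prod.mk.injEq] at h
  exact RR.ext h.1 h.2.1 h.2.2.1 h.2.2.2

instance : AddCommGroup (RR F) :=
  toP_inj.addCommGroup toP rfl (fun _ _ => rfl) (fun _ => rfl) (fun _ _ => rfl) (fun _ _ => rfl)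
    (fun _ _ => rfl)

instance : Module F (RR F) :=
  toP_inj.module F ⟨⟨toP, rfl⟩, fun _ _ => rfl⟩ (fun _ _ => rfl)

@[simp] lemma add_a (x y : RR F) : (x + y).a = x.a + y.a := rfl
@[simp] lemma add_b (x y : RR F) : (x + y).b = x.b + y.b := rfl
@[simp] lemma add_c (x y : RR F) : (x + y).c = x.c + y.c := rfl
@[simp] lemma add_d (x y : RR F) : (x + y).d = x.d + y.d := rfl
@[simp] lemma zero_a : (0 : RR F).a = 0 := rfl
@[simp] lemma zero_b : (0 : RR F).b = 0 := rfl
@[simp] lemma zero_c : (0 : RR F).c = 0 := rfl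
@[simp] lemma zero_d : (0 : RR F).d = 0 := rfl
@[simp] lemma smul_a (r : F) (x : RR F) : (r • x).a = r • x.a := rfl
@[simp] lemma smul_b (r : F) (x : RR F) : (r • x).b = r • x.b := rfl
@[simp] lemma smul_c (r : F) (x : RR F) : (r • x).c = r • x.c := rfl
@[simp] lemma smul_d (r : F) (x : RR F) : (r • x).d = r • x.d := rfl
@[simp] lemma mul_a (x y : RR F) : (x * y).a = x.a * y.b := rfl
@[simp] lemma mul_b (x y : RR F) : (x * y).b = x.b * y.b := rfl
@[simp] lemma mul_c (x y : RR F) : (x * y).c = x.b * y.c := rfl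
@[simp] lemma mul_d (x y : RR F) : (x * y).d = lam F (x.a * y.c) := rfl

instance : NonUnitalRing (RR F) where
  left_distrib x y z := by ext1 <;> simp [mul_add]
  right_distrib x y z := by ext1 <;> simp [add_mul]
  zero_mul x := by ext1 <;> simp
  mul_zero x := by ext1 <;> simp
  mul_assoc x y z := by ext1 <;> simp [mul_assoc]

instance : IsScalarTower F (RR F) (RR F) := ⟨fun r x y => by ext1 <;> simp⟩
instance : SMulCommClass F (RR F) (RR F) := ⟨fun r x y => by ext1 <;> simp⟩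

end RR

variable (F : Type) [Field F]

/-- the three generators -/
def gens : Set (Matrix (Fin 3) (Fin 3) F[X]) :=
  {Matrix.single 0 1 1, Matrix.single 1 1 Polynomial.X, Matrix.single 1 2 1}

/-- the shape of the matrices in `B0` -/
def shape : NonUnitalSubalgebra F (Matrix (Fin 3) (Fin 3) F[X]) where
  carrier := {m | m 0 0 = 0 ∧ m 1 0 = 0 ∧ m 2 0 = 0 ∧ m 2 1 = 0 ∧ m 2 2 = 0}
  add_mem' := by
    rintro m n ⟨h1, h2, h3, h4, h5⟩ ⟨k1, k2, k3, k4, k5⟩
    exact ⟨by simp [h1, k1], by simp [h2, k2], by simp [h3, k3], by simp [h4, k4],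
      by simp [h5, k5]⟩
  zero_mem' := ⟨rfl, rfl, rfl, rfl, rfl⟩
  mul_mem' := by
    rintro m n ⟨h1, h2, h3, h4, h5⟩ ⟨k1, k2, k3, k4, k5⟩
    refine ⟨?_, ?_, ?_, ?_, ?_⟩ <;>
      simp [Matrix.mul_apply, Fin.sum_univ_three, h1, h2, h3, h4, h5, k1, k2, k3, k4, k5]
  smul_mem' := by
    rintro r m ⟨h1, h2, h3, h4, h5⟩
    exact ⟨by simp [h1], by simp [h2], by simp [h3], by simp [h4], by simp [h5]⟩

lemma B0_le : B0 F ≤ shape F := by
  unfold B0
  rw [NonUnitalAlgebra.adjoin_le_iff]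
  rintro m (rfl | rfl | rfl) <;> refine ⟨?_, ?_, ?_, ?_, ?_⟩ <;>
    simp [Matrix.single, Matrix.of_apply]

/-- the map of `B0` to the ring `RR` -/
def phi : B0 F →ₙₐ[F] RR F where
  toFun m := ⟨m.1 0 1, m.1 1 1, m.1 1 2, lam F (m.1 0 2)⟩
  map_smul' r m := by
    apply RR.ext <;> simp
  map_zero' := by
    apply RR.ext <;> simp
  map_add' m n := by
    apply RR.ext <;> simp
  map_mul' m n := by
    obtain ⟨h1, h2, h3, h4, h5⟩ := B0_le F m.2
    obtain ⟨k1, k2, k3, k4, k5⟩ := B0_le F n.2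
    apply RR.ext <;>
      simp [Matrix.mul_apply, Fin.sum_univ_three, h1, h2, k4, k5]

/-- the quotient -/
abbrev C : NonUnitalSubalgebra F (RR F) := NonUnitalAlgHom.range (phi F)

/-- the surjection -/
def pr : B0 F →ₙₐ[F] C F := NonUnitalAlgHom.rangeRestrict (phi F)

lemma pr_surj : Function.Surjective (pr F) := by
  rintro ⟨c, m, rfl⟩
  exact ⟨m, Subtype.ext rfl⟩

lemma mem_gen {m : Matrix (Fin 3) (Fin 3) F[X]} (h : m ∈ gens F) : m ∈ B0 F :=
  NonUnitalAlgebra.subset_adjoin F h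

lemma fga : FGA F (C F) := by
  classical
  let x : B0 F := ⟨Matrix.single 0 1 1, mem_gen F (Or.inl rfl)⟩
  let y : B0 F := ⟨Matrix.single 1 1 Polynomial.X, mem_gen F (Or.inr (Or.inl rfl))⟩
  let z : B0 F := ⟨Matrix.single 1 2 1, mem_gen F (Or.inr (Or.inr rfl))⟩
  refine ⟨{pr F x, pr F y, pr F z}, ?_⟩
  rw [eq_top_iff]
  rintro c -
  obtain ⟨m, rfl⟩ := pr_surj F c
  obtain ⟨m, hm⟩ := m
  have key : ∀ (m : Matrix (Fin 3) (Fin 3) F[X]) (hm : m ∈ B0 F),
      pr F ⟨m, hm⟩ ∈ NonUnitalAlgebra.adjoin F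
        (({pr F x, pr F y, pr F z} : Finset (C F)) : Set (C F)) := by
    intro m hm
    induction hm using NonUnitalAlgebra.adjoin_induction with
    | mem u hu =>
      apply NonUnitalAlgebra.subset_adjoin F
      rcases hu with rfl | rfl | rfl
      · simp [x]
      · simp [y]
      · simp [z]
    | zero =>
      have : pr F ⟨0, zero_mem _⟩ = 0 := map_zero (pr F)
      rw [this]; exact zero_mem _
    | add u v hu hv ihu ihv =>
      have : pr F ⟨u + v, add_mem hu hv⟩ = pr F ⟨u, hu⟩ + pr F ⟨v, hv⟩ := by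
        rw [← map_add]; rfl
      rw [this]; exact add_mem ihu ihv
    | mul u v hu hv ihu ihv =>
      have : pr F ⟨u * v, mul_mem hu hv⟩ = pr F ⟨u, hu⟩ * pr F ⟨v, hv⟩ := by
        rw [← map_mul]; rfl
      rw [this]; exact mul_mem ihu ihv
    | smul r u hu ihu =>
      have : pr F ⟨r • u, SMulMemClass.smul_mem r hu⟩ = r • pr F ⟨u, hu⟩ := by
        rw [← map_smul]; rfl
      rw [this]; exact SMulMemClass.smul_mem r ihu
  exact key m hm

lemma mem_C {m : Matrix (Fin 3) (Fin 3) F[X]} (hm : m ∈ B0 F) :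
    (⟨m 0 1, m 1 1, m 1 2, lam F (m 0 2)⟩ : RR F) ∈ C F := ⟨⟨m, hm⟩, rfl⟩

lemma y_mem : (⟨0, X, 0, 0⟩ : RR F) ∈ C F := by
  have := mem_C F (mem_gen F (Or.inr (Or.inl rfl)))
  convert this using 1
  simp [Matrix.single]

/-- powers of the middle generator -/
lemma Y_mem (i : ℕ) : (⟨0, X ^ (i + 1), 0, 0⟩ : RR F) ∈ C F := by
  induction i with
  | zero => rw [zero_add, pow_one]; exact y_mem F
  | succ i ih =>
    have := mul_mem ih (y_mem F)
    convert this using 1
    apply RR.ext <;> simp [pow_succ]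

lemma x_mem : (⟨1, 0, 0, 0⟩ : RR F) ∈ C F := by
  have := mem_C F (mem_gen F (Or.inl rfl))
  convert this using 1
  simp [Matrix.single]

lemma z_mem : (⟨0, 0, 1, 0⟩ : RR F) ∈ C F := by
  have := mem_C F (mem_gen F (Or.inr (Or.inr rfl)))
  convert this using 1
  simp [Matrix.single]

lemma w_mem (i : ℕ) : (⟨0, 0, 0, lam F (X ^ (i + 1))⟩ : RR F) ∈ C F := by
  have := mul_mem (mul_mem (x_mem F) (Y_mem F i)) (z_mem F)
  convert this using 1
  apply RR.ext <;> simp

lemma not_rf [Finite F] : ¬ RF F (C F) := by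
  intro h
  let Y : ℕ → C F := fun i => ⟨_, Y_mem F i⟩
  let x : C F := ⟨_, x_mem F⟩
  let z : C F := ⟨_, z_mem F⟩
  let W : ℕ → C F := fun i => ⟨_, w_mem F i⟩
  have hW0 : W 0 ≠ 0 := by
    intro h0
    have h1 : lam F (X ^ (0 + 1)) = 0 := congrArg (fun c : C F => (c : RR F).d) h0
    have h2 := lam_pow F 0
    rw [pow_zero] at h2
    rw [zero_add, h2] at h1
    exact one_ne_zero h1
  obtain ⟨B, _, _, _, _, ψ, -, hfin, hψ⟩ := h (W 0) hW0
  have : Finite B := Module.finite_of_finite F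
  obtain ⟨i, j, hij, he⟩ := Finite.exists_ne_map_eq_of_infinite fun i : ℕ => ψ (Y i)
  wlog hlt : i < j generalizing i j
  · exact this j i hij.symm he.symm (by omega)
  -- products
  have hprod : ∀ n m : ℕ, x * (Y n * Y m) * z = W (n + m + 1) := by
    intro n m
    apply Subtype.ext
    apply RR.ext
    · simp [x, Y, z, W]
    · simp [x, Y, z, W]
    · simp [x, Y, z, W]
    · simp only [x, Y, z, W, NonUnitalSubalgebra.coe_mul, RR.mul_d, RR.mul_a, RR.mul_b, one_mul,
        mul_one]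
      rw [← pow_add]
      congr 2
      ring
  have hall : ∀ n, ψ (W (n + i + 1)) = ψ (W (n + j + 1)) := by
    intro n
    have he' : ψ (Y i) = ψ (Y j) := he
    rw [← hprod, ← hprod, map_mul, map_mul, map_mul, map_mul, map_mul, map_mul, he']
  -- choice of the power of two
  have hk : ∃ k, 2 * (j + 2) < 2 ^ k := ⟨2 * (j + 2), Nat.lt_two_pow_self⟩
  obtain ⟨k, hk⟩ := hk
  have hkpos : 1 ≤ k := by
    rcases Nat.eq_zero_or_pos k with h0 | h0
    · subst h0; simp at hk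
    · exact h0
  obtain ⟨k, rfl⟩ : ∃ k', k = k' + 1 := ⟨k - 1, by omega⟩
  have hn := hall (2 ^ (k + 1) - (j + 2))
  have e1 : 2 ^ (k + 1) - (j + 2) + j + 1 + 1 = 2 ^ (k + 1) := by omega
  have e2 : ¬ ∃ l : ℕ, 2 ^ (k + 1) - (j + 2) + i + 1 + 1 = 2 ^ l := by
    rintro ⟨l, hl⟩
    have h1 : 2 ^ l < 2 ^ (k + 1) := by omega
    have h2 : l < k + 1 := (Nat.pow_lt_pow_iff_right (by norm_num)).1 h1
    have h3 : 2 ^ l ≤ 2 ^ k := Nat.pow_le_pow_right (by norm_num) (by omega)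
    have h4 : 2 ^ (k + 1) = 2 * 2 ^ k := by ring
    omega
  have w1 : W (2 ^ (k + 1) - (j + 2) + j + 1) = W 0 := by
    apply Subtype.ext
    apply RR.ext <;> simp only [W]
    rw [e1, lam_pow, zero_add]
    have := lam_pow F 0
    rw [pow_zero] at this
    exact this.symm
  have w2 : W (2 ^ (k + 1) - (j + 2) + i + 1) = 0 := by
    apply Subtype.ext
    apply RR.ext
    · rfl
    · rfl
    · rfl
    · exact lam_pow0 F _ e2
  rw [w1, w2, map_zero] at hn
  exact hψ hn.symm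

theorem t : S_CONV := by
  intro F _ _
  exact ⟨C F, inferInstance, inferInstance, inferInstance, inferInstance, pr F, pr_surj F, fga F,
    not_rf F⟩

end

end Pool.Agent.N62.RF.CONV
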