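import Mathlib

/-!
Locally residually finite varieties of associative algebras over a finite field: definitions.

Words: the letter `0` is `x`, the letter `1` is `y`, the letter `2` is `z`.
Polynomials `MvPolynomial (Fin 3) F`: `X 0 = M` (middle), `X 1 = L` (left), `X 2 = R` (right).
-/

set_option autoImplicit false

namespace Pool.Agent.N62.RF

open MvPolynomial

section

variable {F : Type} [Field F] {U : Type} [Ring U] [Algebra F U]

/-- coefficient of a word in an element of the free algebra on `x, y, z` -/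
noncomputable def cf (f : FreeAlgebra F (Fin 3)) (w : List (Fin 3)) : F :=
  (FreeAlgebra.basisFreeMonoid F (Fin 3)).repr f (FreeMonoid.ofList w)

/-- value of a polynomial at `x, y, z` -/
noncomputable def ev (x y z : U) : FreeAlgebra F (Fin 3) →ₐ[F] U :=
  FreeAlgebra.lift F ![x, y, z]

/-- the word `x y^k z` -/
def xyz (k : ℕ) : List (Fin 3) := 0 :: (List.replicate k 1 ++ [2])

/-- two-sided ideals (subspaces) -/
def Idl (I : Submodule F U) : Prop := ∀ u : U, ∀ x ∈ I, u * x ∈ I ∧ x * u ∈ I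

/-- powers of an ideal, with `ip I 0 = U` -/
def ip (I : Submodule F U) : ℕ → Submodule F U
  | 0 => ⊤
  | n + 1 => ip I n * I

/-- `M^b L^a R^l ↦ c^a x c^b z c^l` -/
noncomputable def tri (c x z : U) : MvPolynomial (Fin 3) F →ₗ[F] U :=
  (MvPolynomial.basisMonomials (Fin 3) F).constr F
    (fun m => c ^ m 1 * x * c ^ m 0 * z * c ^ m 2)

/-- all words have at least one `x`, at least one `z`, and three letters `x`, `z` together -/
def Err (e : FreeAlgebra F (Fin 3)) : Prop :=
  ∀ w, cf e w ≠ 0 → 1 ≤ w.count 0 ∧ 1 ≤ w.count 2 ∧ 3 ≤ w.count 0 + w.count 2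

/-- the identity `f = 0` holds on `A` -/
def On (A : Submodule F U) (f : FreeAlgebra F (Fin 3)) : Prop :=
  ∀ x ∈ A, ∀ y ∈ A, ∀ z ∈ A, ev x y z f = 0

/-- the identity `Φ(y_L, y_M, y_R)(x ⊗ z) + e(x, y, z) = 0` holds on `A` -/
def LawOn (A : Submodule F U) (Φ : MvPolynomial (Fin 3) F) (e : FreeAlgebra F (Fin 3)) : Prop :=
  ∀ x ∈ A, ∀ y ∈ A, ∀ z ∈ A, tri y x z Φ + ev x y z e = 0

/-- `Φ(p(M), p(L), p(R))` -/
noncomputable def sb (p : Polynomial F) : MvPolynomial (Fin 3) F →ₐ[F] MvPolynomial (Fin 3) F :=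
  aeval (fun i => Polynomial.aeval (X i : MvPolynomial (Fin 3) F) p)

/-- the ideal generated by all `Φ(p(M), p(L), p(R))`, `p ∈ t F[t]` -/
noncomputable def aI (Φ : MvPolynomial (Fin 3) F) : Ideal (MvPolynomial (Fin 3) F) :=
  Ideal.span {G | ∃ p : Polynomial F, p.coeff 0 = 0 ∧ G = sb p Φ}

/-- `P(M, 0, 0)` -/
noncomputable def mid : MvPolynomial (Fin 3) F →ₐ[F] Polynomial F :=
  aeval ![Polynomial.X, 0, 0]

/-- `P` is monic of degree `N` in `M` -/
def MonicM (P : MvPolynomial (Fin 3) F) (N : ℕ) : Prop :=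
  ∀ m, coeff m (P - X 0 ^ N) ≠ 0 → m 0 < N

/-- the elements `∑ u * x * u'` with `x ∈ S`: the ideal generated by `S` -/
def idg (F : Type) [Field F] {U : Type} [Ring U] [Algebra F U] (S : Set U) : Submodule F U :=
  Submodule.span F {t | ∃ u v : U, ∃ s ∈ S, t = u * s * v}

/-- multilinear identity with integer coefficients, one of them `1`, on `A` -/
def MPI (A : Submodule F U) (d : ℕ) : Prop :=
  ∃ nn : Equiv.Perm (Fin d) → ℤ, nn 1 = 1 ∧ ∀ a : Fin d → U, (∀ i, a i ∈ A) →
    ∑ π, nn π • (List.ofFn fun k => a (π k)).prod = 0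

/-- The two properties of the pair of operators of left and right multiplication by `c` on `V / W`
used for the residual finiteness. -/
def ARP (c : U) (V W : Submodule F U) : Prop :=
  W ≤ V ∧
  (∃ m, ∀ w ∈ V, ∀ v ∈ V, ∀ v' ∈ V, w - (c ^ m * v + v' * c ^ m) ∈ W → c * w ∈ W → w * c ∈ W →
    w ∈ W) ∧
  (∀ K', ∃ K, K' ≤ K ∧ ∀ v ∈ V, ∀ v' ∈ V, c ^ K * v + v' * c ^ K ∈ W →
    ∃ u ∈ V, c ^ (K - K') * v - u * c ^ K' ∈ W ∧ v' * c ^ (K - K') + c ^ K' * u ∈ W)

end

section nonunital

variable (F : Type) [Field F] (A : Type) [NonUnitalRing A] [Module F A] [IsScalarTower F A A]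
  [SMulCommClass F A A]

/-- finitely generated algebras -/
def FGA : Prop := ∃ S : Finset A, NonUnitalAlgebra.adjoin F (S : Set A) = ⊤

/-- ideals of a nonunital algebra (subspaces) -/
def NIdl (J : Submodule F A) : Prop := ∀ u : A, ∀ x ∈ J, u * x ∈ J ∧ x * u ∈ J

/-- residually finite, in terms of ideals -/
def RFi : Prop := ∀ a : A, a ≠ 0 → ∃ J : Submodule F A, NIdl F A J ∧ Finite (A ⧸ J) ∧ a ∉ J

/-- the identity `f = 0` holds in `A` -/
def Law3 (f : FreeAlgebra F (Fin 3)) : Prop :=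
  ∀ x y z : A, ev (x : Unitization F A) (y : Unitization F A) (z : Unitization F A) f = 0

/-- `δ` is in the commutator ideal -/
def InD (δ : A) : Prop :=
  ∀ J : Submodule F A, NIdl F A J → (∀ x y : A, x * y - y * x ∈ J) → δ ∈ J

/-- nilpotent elements -/
def Nlp (δ : A) : Prop := ∃ k, (δ : Unitization F A) ^ k = 0

end nonunital

end Pool.Agent.N62.RF
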