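import Pool.Agent.N62.RF.Stm

/-!
Locally residually finite varieties, task FI (helper46): ideals of finite index of a finitely generated
algebra are finitely generated algebras.
-/

set_option autoImplicit false

namespace Pool.Agent.N62.RF.FI

variable {F : Type} [Field F] {A : Type} [NonUnitalRing A] [Module F A] [IsScalarTower F A A]
  [SMulCommClass F A A]

/-- multiplication from the left by an optional element -/
def lm {V : Set A} (o : Option V) (a : A) : A := match o with
  | none => a
  | some v => v.1 * a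

/-- multiplication from the right by an optional element -/
def rm {V : Set A} (a : A) (o : Option V) : A := match o with
  | none => a
  | some v => a * v.1

omit [Module F A] [IsScalarTower F A A] [SMulCommClass F A A] in
theorem rm_add {V : Set A} (a b : A) (o : Option V) : rm (a + b) o = rm a o + rm b o := by
  cases o with
  | none => rfl
  | some v => exact add_mul _ _ _

theorem lm_add {V : Set A} (a b : A) (o : Option V) : lm o (a + b) = lm o a + lm o b := by
  cases o with
  | none => rfl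
  | some v => exact mul_add _ _ _

theorem rm_mul {V : Set A} (a b : A) (o : Option V) : rm (a * b) o = a * rm b o := by
  cases o with
  | none => rfl
  | some v => exact mul_assoc _ _ _

theorem lm_mul {V : Set A} (a b : A) (o : Option V) : lm o (a * b) = lm o a * b := by
  cases o with
  | none => rfl
  | some v => exact (mul_assoc _ _ _).symm

theorem t : S_FI := by
  intro F _ _ A _ _ _ _ hA B hB hfin
  classical
  obtain ⟨S, hS⟩ := hA
  obtain ⟨V, hV⟩ := B.toSubmodule.exists_isCompl
  -- V is finite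
  have hVfin : Finite V := by
    refine Finite.of_injective (fun v : V => B.toSubmodule.mkQ v.1) ?_
    intro v w hvw
    have h1 : B.toSubmodule.mkQ (v.1 - w.1) = 0 := by
      rw [map_sub, sub_eq_zero]; exact hvw
    rw [Submodule.mkQ_apply, Submodule.Quotient.mk_eq_zero] at h1
    have h2 : v.1 - w.1 ∈ V := V.sub_mem v.2 w.2
    have h3 := Submodule.disjoint_def.1 hV.disjoint _ h1 h2
    exact Subtype.ext (sub_eq_zero.1 h3)
  -- the projections
  have hdec : ∀ a : A, ∃ b ∈ B, ∃ v ∈ V, b + v = a := by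
    intro a
    have : a ∈ B.toSubmodule ⊔ V := by rw [hV.sup_eq_top]; trivial
    obtain ⟨b, hb, v, hv, h⟩ := Submodule.mem_sup.1 this
    exact ⟨b, hb, v, hv, h⟩
  choose pB hpB pV hpV hp using hdec
  -- the generators
  set B1 : Set A := Set.range (fun q : V × V => pB (q.1.1 * q.2.1)) ∪ pB '' (S : Set A) with hB1
  have hB1fin : B1.Finite := (Set.finite_range _).union (S.finite_toSet.image _)
  have hB1B : ∀ b ∈ B1, b ∈ B := by
    rintro b (⟨q, rfl⟩ | ⟨x, -, rfl⟩)
    · exact hpB _
    · exact hpB _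
  have : Finite B1 := hB1fin
  set T : Set A := Set.range (fun q : B1 × Option (V : Set A) × Option (V : Set A) =>
    rm (lm q.2.1 q.1.1) q.2.2) with hT
  have hVfin' : Finite (V : Set A) := hVfin
  have hTfin : T.Finite := Set.finite_range _
  have hTm : ∀ b ∈ B1, ∀ o o' : Option (V : Set A), rm (lm o b) o' ∈ T := fun b hb o o' =>
    ⟨(⟨b, hb⟩, o, o'), rfl⟩
  have hTB : T ⊆ B := by
    rintro _ ⟨⟨b, o, o'⟩, rfl⟩
    have h1 : lm o b.1 ∈ B := by
      cases o with
      | none => exact hB1B _ b.2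
      | some v => exact (hB v.1 _ (hB1B _ b.2)).1
    cases o' with
    | none => exact h1
    | some v => exact (hB v.1 _ h1).2
  set C : NonUnitalSubalgebra F A := NonUnitalAlgebra.adjoin F T with hC
  have hTC : T ⊆ C := NonUnitalAlgebra.subset_adjoin F
  have hCB : C ≤ B := NonUnitalAlgebra.adjoin_le hTB
  have hB1T : ∀ b ∈ B1, b ∈ C := fun b hb => hTC (hTm b hb none none)
  -- V C and C V
  have hVC : ∀ v ∈ V, ∀ a ∈ C, v * a ∈ C := by
    intro v hv a ha
    induction ha using NonUnitalAlgebra.adjoin_induction with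
    | mem x hx =>
      obtain ⟨⟨b, o, o'⟩, rfl⟩ := hx
      simp only
      rw [← rm_mul]
      cases o with
      | none => exact hTC (hTm b.1 b.2 (some ⟨v, hv⟩) o')
      | some v1 =>
        have e : v * lm (some v1) b.1 = pB (v * v1.1) * b.1 + lm (some ⟨pV (v * v1.1), hpV _⟩) b.1 := by
          show v * (v1.1 * b.1) = pB (v * v1.1) * b.1 + pV (v * v1.1) * b.1
          rw [← add_mul, hp, mul_assoc]
        rw [e, rm_add, rm_mul]
        refine C.add_mem (C.mul_mem (hB1T _ ?_) (hTC (hTm b.1 b.2 none o')))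
          (hTC (hTm b.1 b.2 (some ⟨pV (v * v1.1), hpV _⟩) o'))
        exact Or.inl ⟨(⟨v, hv⟩, ⟨v1.1, v1.2⟩), rfl⟩
    | add x y _ _ hx hy => rw [mul_add]; exact C.add_mem hx hy
    | zero => rw [mul_zero]; exact C.zero_mem
    | mul x y _ hy hx _ => rw [← mul_assoc]; exact C.mul_mem hx hy
    | smul r x _ hx => rw [mul_smul_comm]; exact C.toSubmodule.smul_mem r hx
  have hCV : ∀ v ∈ V, ∀ a ∈ C, a * v ∈ C := by
    intro v hv a ha
    induction ha using NonUnitalAlgebra.adjoin_induction with
    | mem x hx =>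
      obtain ⟨⟨b, o, o'⟩, rfl⟩ := hx
      simp only
      cases o' with
      | none => exact hTC (hTm b.1 b.2 o (some ⟨v, hv⟩))
      | some v1 =>
        have e : rm (lm o b.1) (some v1) * v =
            lm o b.1 * pB (v1.1 * v) + rm (lm o b.1) (some ⟨pV (v1.1 * v), hpV _⟩) := by
          show lm o b.1 * v1.1 * v = lm o b.1 * pB (v1.1 * v) + lm o b.1 * pV (v1.1 * v)
          rw [← mul_add, hp, mul_assoc]
        rw [e]
        refine C.add_mem (C.mul_mem (hTC (hTm b.1 b.2 o none)) (hB1T _ ?_))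
          (hTC (hTm b.1 b.2 o (some ⟨pV (v1.1 * v), hpV _⟩)))
        exact Or.inl ⟨(⟨v1.1, v1.2⟩, ⟨v, hv⟩), rfl⟩
    | add x y _ _ hx hy => rw [add_mul]; exact C.add_mem hx hy
    | zero => rw [zero_mul]; exact C.zero_mem
    | mul x y hx _ _ hy => rw [mul_assoc]; exact C.mul_mem hx hy
    | smul r x _ hx => rw [smul_mul_assoc]; exact C.toSubmodule.smul_mem r hx
  -- every element is in V + C
  have hall : ∀ a : A, ∃ v ∈ V, ∃ c ∈ C, v + c = a := by
    intro a
    have ha : a ∈ NonUnitalAlgebra.adjoin F (S : Set A) := by rw [hS]; trivial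
    induction ha using NonUnitalAlgebra.adjoin_induction with
    | mem x hx =>
      exact ⟨pV x, hpV x, pB x, hB1T _ (Or.inr ⟨x, hx, rfl⟩), by rw [add_comm, hp]⟩
    | add x y _ _ hx hy =>
      obtain ⟨v, hv, c, hc, rfl⟩ := hx
      obtain ⟨v', hv', c', hc', rfl⟩ := hy
      exact ⟨v + v', V.add_mem hv hv', c + c', C.add_mem hc hc', by abel⟩
    | zero => exact ⟨0, V.zero_mem, 0, C.zero_mem, by rw [add_zero]⟩
    | mul x y _ _ hx hy =>
      obtain ⟨v, hv, c, hc, rfl⟩ := hx
      obtain ⟨v', hv', c', hc', rfl⟩ := hy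
      refine ⟨pV (v * v'), hpV _, pB (v * v') + (v * c' + (c * v' + c * c')),
        C.add_mem (hB1T _ (Or.inl ⟨(⟨v, hv⟩, ⟨v', hv'⟩), rfl⟩))
          (C.add_mem (hVC v hv c' hc') (C.add_mem (hCV v' hv' c hc) (C.mul_mem hc hc'))), ?_⟩
      have h1 := hp (v * v')
      rw [add_mul, mul_add, mul_add]
      rw [← h1]
      rw [h1]
      nth_rewrite 3 [← h1]
      abel
    | smul r x _ hx =>
      obtain ⟨v, hv, c, hc, rfl⟩ := hx
      exact ⟨r • v, V.smul_mem r hv, r • c, C.toSubmodule.smul_mem r hc, by rw [smul_add]⟩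
  have hBC : ∀ b ∈ B, b ∈ C := by
    intro b hb
    obtain ⟨v, hv, c, hc, h⟩ := hall b
    have hvB : v ∈ B.toSubmodule := by
      have : v = b - c := by rw [← h]; abel
      rw [this]
      exact B.toSubmodule.sub_mem hb (hCB hc)
    have hv0 := Submodule.disjoint_def.1 hV.disjoint v hvB hv
    rw [← h, hv0, zero_add]; exact hc
  -- generators of B
  have hT'fin : (Subtype.val ⁻¹' T : Set B).Finite :=
    hTfin.preimage Subtype.val_injective.injOn
  refine ⟨hT'fin.toFinset, ?_⟩
  rw [Set.Finite.coe_toFinset]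
  rw [eq_top_iff]
  rintro ⟨b, hb⟩ -
  have key : ∀ a ∈ C, ∃ h : a ∈ B, (⟨a, h⟩ : B) ∈
      NonUnitalAlgebra.adjoin F (Subtype.val ⁻¹' T : Set B) := by
    intro a ha
    induction ha using NonUnitalAlgebra.adjoin_induction with
    | mem x hx => exact ⟨hTB hx, NonUnitalAlgebra.subset_adjoin F hx⟩
    | add x y _ _ hx hy =>
      obtain ⟨h1, h1'⟩ := hx
      obtain ⟨h2, h2'⟩ := hy
      exact ⟨B.add_mem h1 h2, add_mem h1' h2'⟩
    | zero => exact ⟨B.zero_mem, zero_mem _⟩
    | mul x y _ _ hx hy =>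
      obtain ⟨h1, h1'⟩ := hx
      obtain ⟨h2, h2'⟩ := hy
      exact ⟨B.mul_mem h1 h2, mul_mem h1' h2'⟩
    | smul r x _ hx =>
      obtain ⟨h1, h1'⟩ := hx
      exact ⟨B.toSubmodule.smul_mem r h1, SMulMemClass.smul_mem r h1'⟩
  obtain ⟨h1, h2⟩ := key b (hBC b hb)
  exact h2

end Pool.Agent.N62.RF.FI
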