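import Pool.Agent.N62.RF.Stm

/-!
Task LAW0: from an identity failing in `B0` to the coefficient of `x y^k z`.
-/

set_option autoImplicit false
set_option linter.all false

namespace Pool.Agent.N62.RF.LAW0

open Pool.Agent.N62.RF

/-! ### homomorphisms from the free algebra -/

section free
variable {F : Type} [Field F] {A : Type} [NonUnitalRing A] [Module F A] [IsScalarTower F A A]
  [SMulCommClass F A A]

theorem hom_ext {φ₁ φ₂ : FreeA F →ₙₐ[F] A}
    (h : ∀ i : ℕ, φ₁ (MonoidAlgebra.single (FreeSemigroup.of i) 1) =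
      φ₂ (MonoidAlgebra.single (FreeSemigroup.of i) 1)) : φ₁ = φ₂ := by
  refine MonoidAlgebra.nonUnitalAlgHom_ext F fun x => ?_
  induction x using FreeSemigroup.recOnMul with
  | ih1 x => exact h x
  | ih2 x y h1 h2 =>
    have e : (MonoidAlgebra.single (FreeSemigroup.of x * y) 1 : FreeA F) =
        MonoidAlgebra.single (FreeSemigroup.of x) 1 * MonoidAlgebra.single y 1 := by
      rw [MonoidAlgebra.single_mul_single, mul_one]
    rw [e, map_mul, map_mul, h1, h2]

/-- the homomorphism with given values on the free generators -/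
noncomputable def hh (a : ℕ → A) : FreeA F →ₙₐ[F] A :=
  MonoidAlgebra.liftMagma F (FreeSemigroup.lift a)

theorem hh_single (a : ℕ → A) (i : ℕ) :
    hh (F := F) a (MonoidAlgebra.single (FreeSemigroup.of i) 1) = a i := by
  simp [hh, MonoidAlgebra.liftMagma_apply_apply]

end free

/-! ### words -/

section word
variable {F : Type} [Field F] {U : Type} [Ring U] [Algebra F U]

theorem ev_basis (x y z : U) (w : FreeMonoid (Fin 3)) :
    ev x y z (FreeAlgebra.basisFreeMonoid F (Fin 3) w) =
      ((FreeMonoid.toList w).map ![x, y, z]).prod := by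
  have h : FreeAlgebra.basisFreeMonoid F (Fin 3) w =
      FreeMonoid.lift (FreeAlgebra.ι F) w := by
    simp [FreeAlgebra.basisFreeMonoid, FreeAlgebra.equivMonoidAlgebraFreeMonoid]
  rw [h]
  induction w using FreeMonoid.recOn with
  | one => simp
  | of_mul a w ih =>
    rw [map_mul, map_mul, ih (by
      simp [FreeAlgebra.basisFreeMonoid, FreeAlgebra.equivMonoidAlgebraFreeMonoid])]
    simp [ev]

end word

/-- the three generators -/
noncomputable abbrev x0 (F : Type) [Field F] : Matrix (Fin 3) (Fin 3) (Polynomial F) :=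
  Matrix.single 0 1 1
noncomputable abbrev y0 (F : Type) [Field F] : Matrix (Fin 3) (Fin 3) (Polynomial F) :=
  Matrix.single 1 1 Polynomial.X
noncomputable abbrev z0 (F : Type) [Field F] : Matrix (Fin 3) (Fin 3) (Polynomial F) :=
  Matrix.single 1 2 1

theorem words (F : Type) [Field F] (w : List (Fin 3)) :
    (((w.map ![x0 F, y0 F, z0 F]).prod 2 2 ≠ 0 → w = []) ∧
    ((w.map ![x0 F, y0 F, z0 F]).prod 1 2 ≠ 0 → ∃ k, w = List.replicate k 1 ++ [2])) ∧
    ((w.map ![x0 F, y0 F, z0 F]).prod 0 2 ≠ 0 → ∃ k, w = xyz k) := by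
  induction w with
  | nil => simp
  | cons a w ih =>
    rw [List.map_cons, List.prod_cons]
    set P := (w.map ![x0 F, y0 F, z0 F]).prod with hP
    obtain ⟨⟨i1, i2⟩, i3⟩ := ih
    fin_cases a
    · refine ⟨⟨?_, ?_⟩, ?_⟩
      · intro h; exfalso; apply h
        simp [Matrix.mul_apply, Fin.sum_univ_three]
      · intro h; exfalso; apply h
        simp [Matrix.mul_apply, Fin.sum_univ_three]
      · intro h
        have : P 1 2 ≠ 0 := by
          intro h'; apply h
          simp [Matrix.mul_apply, Fin.sum_univ_three, h']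
        obtain ⟨k, hk⟩ := i2 this
        exact ⟨k, by rw [hk]; rfl⟩
    · refine ⟨⟨?_, ?_⟩, ?_⟩
      · intro h; exfalso; apply h
        simp [Matrix.mul_apply, Fin.sum_univ_three]
      · intro h
        have : P 1 2 ≠ 0 := by
          intro h'; apply h
          simp [Matrix.mul_apply, Fin.sum_univ_three, h']
        obtain ⟨k, hk⟩ := i2 this
        exact ⟨k + 1, by rw [hk]; rfl⟩
      · intro h; exfalso; apply h
        simp [Matrix.mul_apply, Fin.sum_univ_three]
    · refine ⟨⟨?_, ?_⟩, ?_⟩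
      · intro h; exfalso; apply h
        simp [Matrix.mul_apply, Fin.sum_univ_three]
      · intro h
        have : P 2 2 ≠ 0 := by
          intro h'; apply h
          simp [Matrix.mul_apply, Fin.sum_univ_three, h']
        exact ⟨0, by rw [i1 this]; rfl⟩
      · intro h; exfalso; apply h
        simp [Matrix.mul_apply, Fin.sum_univ_three]

/-- a nonzero entry gives a nonzero coefficient -/
theorem coef (F : Type) [Field F] (f : FreeAlgebra F (Fin 3))
    (h : (ev (x0 F) (y0 F) (z0 F) f) 0 2 ≠ 0) : ∃ k, cf f (xyz k) ≠ 0 := by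
  by_contra hno
  push Not at hno
  apply h
  rw [← (FreeAlgebra.basisFreeMonoid F (Fin 3)).linearCombination_repr f,
    Finsupp.linearCombination_apply, Finsupp.sum, map_sum, Matrix.sum_apply]
  refine Finset.sum_eq_zero fun w _ => ?_
  rw [map_smul, ev_basis, Matrix.smul_apply]
  by_cases hw : ((FreeMonoid.toList w).map ![x0 F, y0 F, z0 F]).prod 0 2 = 0
  · rw [hw, smul_zero]
  · obtain ⟨k, hk⟩ := (words F _).2 hw
    have h1 := hno k
    unfold cf at h1
    rw [← hk, FreeMonoid.ofList_toList] at h1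
    rw [h1, zero_smul]

/-! ### the algebra `B0` -/

theorem supp (F : Type) [Field F] (b : Matrix (Fin 3) (Fin 3) (Polynomial F)) (hb : b ∈ B0 F) :
    (∀ i, b i 0 = 0) ∧ ∀ j, b 2 j = 0 := by
  induction hb using NonUnitalAlgebra.adjoin_induction with
  | mem x hx =>
    simp only [Set.mem_insert_iff, Set.mem_singleton_iff] at hx
    rcases hx with rfl | rfl | rfl
    · exact ⟨fun i => by simp, fun j => by simp⟩
    · exact ⟨fun i => by simp, fun j => by simp⟩
    · exact ⟨fun i => by simp, fun j => by simp⟩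
  | zero => exact ⟨fun i => rfl, fun j => rfl⟩
  | add x y _ _ hx hy =>
    exact ⟨fun i => by rw [Matrix.add_apply, hx.1, hy.1, add_zero],
      fun j => by rw [Matrix.add_apply, hx.2, hy.2, add_zero]⟩
  | smul r x _ hx =>
    exact ⟨fun i => by rw [Matrix.smul_apply, hx.1, smul_zero],
      fun j => by rw [Matrix.smul_apply, hx.2, smul_zero]⟩
  | mul x y _ _ hx hy =>
    exact ⟨fun i => by
        rw [Matrix.mul_apply]
        exact Finset.sum_eq_zero fun k _ => by rw [hy.1, mul_zero],
      fun j => by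
        rw [Matrix.mul_apply]
        exact Finset.sum_eq_zero fun k _ => by rw [hx.2, zero_mul]⟩

/-- the augmentation ideal of the free algebra (as an algebra without one) -/
noncomputable def NN (F : Type) [Field F] : NonUnitalSubalgebra F (FreeAlgebra F (Fin 3)) :=
  NonUnitalAlgebra.adjoin F (Set.range (FreeAlgebra.ι F))

theorem pre (F : Type) [Field F] (b : Matrix (Fin 3) (Fin 3) (Polynomial F)) (hb : b ∈ B0 F) :
    ∃ h ∈ NN F, ev (x0 F) (y0 F) (z0 F) h = b := by
  induction hb using NonUnitalAlgebra.adjoin_induction with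
  | mem x hx =>
    have hm : ∀ i, FreeAlgebra.ι F i ∈ NN F := fun i =>
      NonUnitalAlgebra.subset_adjoin F ⟨i, rfl⟩
    simp only [Set.mem_insert_iff, Set.mem_singleton_iff] at hx
    rcases hx with rfl | rfl | rfl
    · exact ⟨_, hm 0, by simp [ev]⟩
    · exact ⟨_, hm 1, by simp [ev]⟩
    · exact ⟨_, hm 2, by simp [ev]⟩
  | zero => exact ⟨0, (NN F).zero_mem, map_zero _⟩
  | add x y _ _ hx hy =>
    obtain ⟨g, hg, rfl⟩ := hx
    obtain ⟨h, hh, rfl⟩ := hy
    exact ⟨g + h, (NN F).add_mem hg hh, map_add _ _ _⟩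
  | smul r x _ hx =>
    obtain ⟨g, hg, rfl⟩ := hx
    exact ⟨r • g, (NN F).smul_mem r hg, map_smul _ _ _⟩
  | mul x y _ _ hx hy =>
    obtain ⟨g, hg, rfl⟩ := hx
    obtain ⟨h, hh, rfl⟩ := hy
    exact ⟨g * h, (NN F).mul_mem hg hh, map_mul _ _ _⟩

theorem inA (F : Type) [Field F] (A : Type) [NonUnitalRing A] [Module F A] [IsScalarTower F A A]
    [SMulCommClass F A A] (x y z : A) (h : FreeAlgebra F (Fin 3)) (hh : h ∈ NN F) :
    ∃ a : A, ev (x : Unitization F A) (y : Unitization F A) (z : Unitization F A) h =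
      (a : Unitization F A) := by
  induction hh using NonUnitalAlgebra.adjoin_induction with
  | mem u hu =>
    obtain ⟨i, rfl⟩ := hu
    fin_cases i
    · exact ⟨x, by simp [ev]⟩
    · exact ⟨y, by simp [ev]⟩
    · exact ⟨z, by simp [ev]⟩
  | zero => exact ⟨0, by simp⟩
  | add u v _ _ hu hv =>
    obtain ⟨a, ha⟩ := hu
    obtain ⟨b, hb⟩ := hv
    exact ⟨a + b, by rw [map_add, ha, hb, Unitization.inr_add]⟩
  | smul r u _ hu =>
    obtain ⟨a, ha⟩ := hu
    exact ⟨r • a, by rw [map_smul, ha, Unitization.inr_smul]⟩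
  | mul u v _ _ hu hv =>
    obtain ⟨a, ha⟩ := hu
    obtain ⟨b, hb⟩ := hv
    exact ⟨a * b, by rw [map_mul, ha, hb, Unitization.inr_mul]⟩

theorem t : S_LAW0 := by
  intro F _ f0 hf0
  unfold Sat at hf0
  push Not at hf0
  obtain ⟨φ, hφ⟩ := hf0
  -- the substitution
  have hpre : ∀ i : ℕ, ∃ h ∈ NN F, ev (x0 F) (y0 F) (z0 F) h =
      (φ (MonoidAlgebra.single (FreeSemigroup.of i) 1) :
        Matrix (Fin 3) (Fin 3) (Polynomial F)) := fun i => pre F _ (φ _).2
  choose h hN he using hpre
  let Θ : FreeA F →ₙₐ[F] FreeAlgebra F (Fin 3) := hh h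
  set G := Θ f0 with hG
  -- the value in `B0`
  have hval : ev (x0 F) (y0 F) (z0 F) G = (φ f0 : Matrix (Fin 3) (Fin 3) (Polynomial F)) := by
    have e : ((ev (x0 F) (y0 F) (z0 F) : FreeAlgebra F (Fin 3) →ₐ[F] _) :
        FreeAlgebra F (Fin 3) →ₙₐ[F] Matrix (Fin 3) (Fin 3) (Polynomial F)).comp Θ =
        (NonUnitalSubalgebraClass.subtype (B0 F)).comp φ := by
      apply hom_ext
      intro i
      simp only [NonUnitalAlgHom.comp_apply]
      show ev (x0 F) (y0 F) (z0 F) (hh h _) = (φ _ : Matrix (Fin 3) (Fin 3) (Polynomial F))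
      rw [hh_single, he]
    exact DFunLike.congr_fun e f0
  -- the value in the algebras of the variety
  have hlaw : ∀ (A : Type) [NonUnitalRing A] [Module F A] [IsScalarTower F A A]
      [SMulCommClass F A A], Sat F A f0 → Law3 F A G := by
    intro A _ _ _ _ hA x y z
    have hA' : ∀ i : ℕ, ∃ a : A, ev (x : Unitization F A) (y : Unitization F A)
        (z : Unitization F A) (h i) = (a : Unitization F A) := fun i => inA F A x y z _ (hN i)
    choose a ha using hA'
    have e : ((ev (x : Unitization F A) (y : Unitization F A) (z : Unitization F A) :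
        FreeAlgebra F (Fin 3) →ₐ[F] Unitization F A) :
        FreeAlgebra F (Fin 3) →ₙₐ[F] Unitization F A).comp Θ =
        (Unitization.inrNonUnitalAlgHom F A).comp (hh a) := by
      apply hom_ext
      intro i
      simp only [NonUnitalAlgHom.comp_apply]
      show ev _ _ _ (hh h _) = ((hh a _ : A) : Unitization F A)
      rw [hh_single, hh_single, ha]
    have e2 := DFunLike.congr_fun e f0
    have e3 : ev (x : Unitization F A) (y : Unitization F A) (z : Unitization F A) G =
        ((hh a f0 : A) : Unitization F A) := e2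
    rw [e3, hA (hh a), Unitization.inr_zero]
  -- the matrix
  set b := (φ f0 : Matrix (Fin 3) (Fin 3) (Polynomial F)) with hb
  have hb0 : b ≠ 0 := fun h' => hφ (Subtype.ext h')
  obtain ⟨s1, s2⟩ := supp F b (φ f0).2
  have fin : ∀ f : FreeAlgebra F (Fin 3), (ev (x0 F) (y0 F) (z0 F) f) 0 2 ≠ 0 →
      (∀ (A : Type) [NonUnitalRing A] [Module F A] [IsScalarTower F A A] [SMulCommClass F A A],
        Law3 F A G → Law3 F A f) → ∃ (f : FreeAlgebra F (Fin 3)) (k : ℕ), cf f (xyz k) ≠ 0 ∧
    ∀ (A : Type) [NonUnitalRing A] [Module F A] [IsScalarTower F A A] [SMulCommClass F A A],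
      Sat F A f0 → Law3 F A f := by
    intro f hf hl
    obtain ⟨k, hk⟩ := coef F f hf
    exact ⟨f, k, hk, fun A _ _ _ _ hA => hl A (hlaw A hA)⟩
  have ex : ev (x0 F) (y0 F) (z0 F) (FreeAlgebra.ι F 0) = x0 F := by simp [ev]
  have ez : ev (x0 F) (y0 F) (z0 F) (FreeAlgebra.ι F 2) = z0 F := by simp [ev]
  by_cases c1 : b 1 1 = 0
  · by_cases c2 : b 0 1 = 0
    · by_cases c3 : b 1 2 = 0
      · by_cases c4 : b 0 2 = 0
        · exfalso
          apply hb0
          ext1 i j
          fin_cases i <;> fin_cases j <;> simp [s1, s2, c1, c2, c3, c4]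
        · refine fin G (by rw [hval]; exact c4) fun A _ _ _ _ hA => hA
      · refine fin (FreeAlgebra.ι F 0 * G) ?_ fun A _ _ _ _ hA x y z => ?_
        · rw [map_mul, hval, ex]
          simpa [Matrix.mul_apply, Fin.sum_univ_three] using c3
        · rw [map_mul, hA, mul_zero]
    · refine fin (G * FreeAlgebra.ι F 2) ?_ fun A _ _ _ _ hA x y z => ?_
      · rw [map_mul, hval, ez]
        simpa [Matrix.mul_apply, Fin.sum_univ_three] using c2
      · rw [map_mul, hA, zero_mul]
  · refine fin (FreeAlgebra.ι F 0 * G * FreeAlgebra.ι F 2) ?_ fun A _ _ _ _ hA x y z => ?_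
    · rw [map_mul, map_mul, hval, ex, ez]
      simpa [Matrix.mul_apply, Fin.sum_univ_three] using c1
    · rw [map_mul, map_mul, hA, mul_zero, zero_mul]

end Pool.Agent.N62.RF.LAW0
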