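import Pool.Agent.N62.RF.NilCase
import Pool.Agent.N62.RF.LAW0

/-!
Locally residually finite varieties: the main theorem from the tasks.
-/

set_option autoImplicit false

namespace Pool.Agent.N62.RF

open MvPolynomial

/-- `A` satisfies all identities of `E` -/
def InVar (F : Type) [Field F] (E : Set (FreeA F)) (A : Type) [NonUnitalRing A] [Module F A]
    [IsScalarTower F A A] [SMulCommClass F A A] : Prop := ∀ f ∈ E, Sat F A f

/-- the variety defined by `E` is locally residually finite -/
def LocRF (F : Type) [Field F] (E : Set (FreeA F)) : Prop :=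
  ∀ (A : Type) [NonUnitalRing A] [Module F A] [IsScalarTower F A A] [SMulCommClass F A A],
    InVar F E A → FGA F A → RF F A

section

variable {F : Type} [Field F]

/-- identities pass to homomorphic images -/
theorem Sat.of_surjective {A B : Type} [NonUnitalRing A] [Module F A] [IsScalarTower F A A]
    [SMulCommClass F A A] [NonUnitalRing B] [Module F B] [IsScalarTower F B B]
    [SMulCommClass F B B] {f : FreeA F} (φ : A →ₙₐ[F] B) (hφ : Function.Surjective φ)
    (h : Sat F A f) : Sat F B f := by
  intro ψ
  choose b hb using fun n : ℕ => hφ (ψ (MonoidAlgebra.single (FreeSemigroup.of n) 1))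
  have h1 : ψ = φ.comp (LAW0.hh (F := F) b) := by
    apply LAW0.hom_ext
    intro i
    change ψ (MonoidAlgebra.single (FreeSemigroup.of i) 1) =
      φ (LAW0.hh (F := F) b (MonoidAlgebra.single (FreeSemigroup.of i) 1))
    rw [LAW0.hh_single, hb]
  rw [h1]
  change φ (LAW0.hh (F := F) b f) = 0
  rw [h, map_zero]

theorem Law3.sub {A : Type} [NonUnitalRing A] [Module F A] [IsScalarTower F A A]
    [SMulCommClass F A A] {f : FreeAlgebra F (Fin 3)} (h : Law3 F A f)
    (B : NonUnitalSubalgebra F A) : Law3 F B f := by
  intro x y z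
  -- the inclusion of unitizations
  let j : Unitization F B →ₐ[F] Unitization F A :=
    Unitization.lift ((Unitization.inrNonUnitalAlgHom F A).comp (NonUnitalSubalgebraClass.subtype B))
  have hj : ∀ b : B, j (Unitization.inr b) = Unitization.inr (b : A) := by
    intro b
    simp [j]
  have hinj : Function.Injective j := by
    intro u v huv
    induction u using Unitization.ind with
    | inl_add_inr r a =>
      induction v using Unitization.ind with
      | inl_add_inr s b =>
        rw [map_add, map_add, hj, hj] at huv
        have h1 : ∀ t : F, j (Unitization.inl t) = Unitization.inl t := fun t =>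
          AlgHom.commutes j t
        rw [h1, h1] at huv
        have e1 : r = s := by
          have := congrArg (fun w : Unitization F A => w.fst) huv
          simpa using this
        have e2 : (a : A) = b := by
          have := congrArg (fun w : Unitization F A => w.snd) huv
          simpa using this
        rw [e1, Subtype.ext e2]
  apply hinj
  rw [map_zero, ← h x y z, ev_eq_sum, ev_eq_sum, map_sum]
  refine Finset.sum_congr rfl fun w _ => ?_
  rw [map_smul, map_list_prod, List.map_map]
  congr 3
  funext i
  fin_cases i <;> simp [hj]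

end

theorem main_of (hInt : S_INT) (hLE : S_LAWEXT) (hMpi : S_MPI) (hGen : S_GEN) (hLay : S_LAYER)
    (hX : S_ARPX) (hNil : S_NILP) (hCl : S_CLAIM) (hH : S_HFIN) (hFin : S_FINU)
    (hMaxl : S_MAXL) (hFI : S_FI) (hUp : S_UP) (hQ : S_QUOT) (h0 : S_LAW0) (h1 : S_LAW1)
    (hConv : S_CONV) (F : Type) [Field F] [Finite F] (E : Set (FreeA F)) :
    [LocRF F E,
      ∃ f ∈ E, ¬ Sat F (B0 F) f,
      ∃ (f : FreeAlgebra F (Fin 3)) (k : ℕ), cf f (xyz k) ≠ 0 ∧
        ∀ (A : Type) [NonUnitalRing A] [Module F A] [IsScalarTower F A A] [SMulCommClass F A A],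
          InVar F E A → Law3 F A f].TFAE := by
  tfae_have 1 → 2 := by
    intro h
    by_contra hcon
    push Not at hcon
    obtain ⟨C, i1, i2, i3, i4, φ, hφ, hC, hnot⟩ := hConv F
    exact hnot (h C (fun f hf => Sat.of_surjective φ hφ (hcon f hf)) hC)
  tfae_have 2 → 3 := by
    rintro ⟨f0, hf0, hne⟩
    obtain ⟨f, k, hk, hf⟩ := h0 F f0 hne
    exact ⟨f, k, hk, fun A _ _ _ _ hA => hf A (hA f0 hf0)⟩
  tfae_have 3 → 1 := by
    rintro ⟨f, k, hk, hf⟩
    intro A _ _ _ _ hA hfg
    apply hQ F A
    have hlaw := hf A hA
    obtain ⟨J, hJ, hJf, hJn⟩ := hMaxl F f k hk A hfg hlaw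
    let B : NonUnitalSubalgebra F A :=
      { carrier := J
        add_mem' := fun h h' => J.add_mem h h'
        zero_mem' := J.zero_mem
        mul_mem' := fun {a b} _ h' => (hJ a b h').1
        smul_mem' := fun c x hx => J.smul_mem c hx }
    have hBJ : B.toSubmodule = J := by
      ext x
      rfl
    have hB : NIdl F A B.toSubmodule := by rw [hBJ]; exact hJ
    have hBf : Finite (A ⧸ B.toSubmodule) := by rw [hBJ]; exact hJf
    apply hUp F A B hB hBf
    refine nilCase hInt hLE hMpi hGen hLay hX hNil hCl hH hFin F f k hk B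
      (hFI F A hfg B hB hBf) (hlaw.sub B) ?_
    intro δ hδ
    have h2 : InD F A (δ : A) := by
      intro J' hJ' hc
      have := hδ (J'.comap (NonUnitalSubalgebraClass.subtype B : B →ₗ[F] A)) (by
          intro u x hx
          exact ⟨(hJ' u x hx).1, (hJ' u x hx).2⟩) (by
          intro x y
          exact hc x y)
      exact this
    obtain ⟨n, hn⟩ := hJn δ δ.2 h2
    -- the inclusion of unitizations
    let j : Unitization F B →ₐ[F] Unitization F A :=
      Unitization.lift
        ((Unitization.inrNonUnitalAlgHom F A).comp (NonUnitalSubalgebraClass.subtype B))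
    have hj : ∀ b : B, j (Unitization.inr b) = Unitization.inr (b : A) := by
      intro b
      simp [j]
    have key : ∀ m : ℕ, ∃ b : B, (Unitization.inr δ : Unitization F B) ^ (m + 1) =
        Unitization.inr b ∧ (Unitization.inr (δ : A) : Unitization F A) ^ (m + 1) =
          Unitization.inr (b : A) := by
      intro m
      induction m with
      | zero => exact ⟨δ, by rw [zero_add, pow_one], by rw [zero_add, pow_one]⟩
      | succ m ih =>
        obtain ⟨b, hb1, hb2⟩ := ih
        refine ⟨b * δ, ?_, ?_⟩
        · rw [pow_succ, hb1, Unitization.inr_mul]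
        · rw [pow_succ, hb2]
          exact (Unitization.inr_mul F (b : A) (δ : A)).symm
    obtain ⟨b, hb1, hb2⟩ := key n
    refine ⟨n + 1, ?_⟩
    rw [hb1]
    have h3 : (Unitization.inr (b : A) : Unitization F A) = 0 := by
      rw [← hb2, pow_succ, hn, zero_mul]
    have h4 : (b : A) = 0 := Unitization.inr_injective (R := F)
      (h3.trans (Unitization.inr_zero F).symm)
    have h5 : b = 0 := Subtype.ext h4
    rw [h5, Unitization.inr_zero]
  tfae_have 3 → 2 := by
    rintro ⟨f, k, hk, hf⟩
    by_contra hcon
    push Not at hcon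
    exact h1 F f k hk (hf (B0 F) (fun f hf => hcon f hf))
  tfae_finish

end Pool.Agent.N62.RF
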