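import Pool.Agent.N62.RF.Stm2
import Pool.Agent.N62.RF.Base

/-!
Task GEN (helper73): generators of the layers `D^n / D^(n+1)`.
-/

set_option autoImplicit false

namespace Pool.Agent.N62.RF.GEN

open Pool.Agent.N62.RF

section

variable {F : Type} [Field F] {U : Type} [Ring U] [Algebra F U]

theorem list_prod_mem {D : Submodule F U} (hD : Idl D) (l : List U) (hl : ∀ a ∈ l, a ∈ D) :
    l.prod ∈ ip D l.length := by
  induction l with
  | nil => rw [List.length_nil, ip_zero]; trivial
  | cons a l ih =>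
    rw [List.prod_cons, List.length_cons, Nat.add_comm]
    refine mul_mem_ip hD ?_ (ih fun b hb => hl b (List.mem_cons_of_mem _ hb))
    rw [ip_one hD]
    exact hl a (List.mem_cons_self ..)

/-- products of `n` elements of `T` followed by an element of `S` -/
def E (S T : Set U) (n : ℕ) : Set U :=
  {t | ∃ l : List U, l.length = n ∧ (∀ a ∈ l, a ∈ T) ∧ ∃ s ∈ S, t = l.prod * s}

theorem E_mem_ip {D : Submodule F U} (hD : Idl D) {S T : Set U} (hS : S ⊆ D) (hT : T ⊆ D) {n : ℕ}
    {t : U} (ht : t ∈ E S T n) : t ∈ ip D (n + 1) := by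
  obtain ⟨l, rfl, hl, s, hs, rfl⟩ := ht
  refine mul_mem_ip hD (list_prod_mem hD l fun a ha => hT (hl a ha)) ?_
  rw [ip_one hD]
  exact hS hs

theorem main (S T B : Set U) (hT : T ⊆ idg F S) (hTB : ∀ s ∈ S, ∀ b ∈ B, s * b ∈ T)
    (hB : ∀ i j, 1 ≤ i → 1 ≤ j → ∀ x ∈ ip (idg F S) i, ∀ z ∈ ip (idg F S) j, ∀ u : U,
      x * u * z ∈ idg F {t | ∃ b ∈ B, t = x * b * z} ⊔ ip (idg F S) (i + j + 1)) (n : ℕ) :
    ip (idg F S) (n + 1) ≤ idg F (E S T n) ⊔ ip (idg F S) (n + 2) := by
  have hD : Idl (idg F S) := idl_idg S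
  have hS : S ⊆ idg F S := subset_idg S
  induction n with
  | zero =>
    rw [zero_add, ip_one hD]
    refine le_sup_of_le_left (idg_mono ?_)
    intro s hs
    exact ⟨[], rfl, by simp, s, hs, by simp⟩
  | succ n ih =>
    have hI : Idl (idg F (E S T (n + 1)) ⊔ ip (idg F S) (n + 1 + 2)) :=
      (idl_idg _).sup (idl_ip hD _)
    rw [ip_succ, Submodule.mul_le]
    intro x hx y hy
    obtain ⟨x1, hx1, x2, hx2, rfl⟩ := Submodule.mem_sup.1 (ih hx)
    rw [add_mul]
    refine add_mem ?_ ?_
    swap
    · refine Submodule.mem_sup_right ?_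
      rw [show n + 1 + 2 = (n + 2) + 1 by ring, ip_succ]
      exact Submodule.mul_mem_mul hx2 hy
    clear hx hx2
    rw [idg] at hx1
    induction hx1 using Submodule.span_induction with
    | zero => rw [zero_mul]; exact zero_mem _
    | add a b _ _ ha hb => rw [add_mul]; exact add_mem ha hb
    | smul c a _ ha => rw [smul_mul_assoc]; exact Submodule.smul_mem _ _ ha
    | mem a ha =>
      obtain ⟨u, v, t, ht, rfl⟩ := ha
      have hy' : y ∈ Submodule.span F {t | ∃ u v : U, ∃ s ∈ S, t = u * s * v} := hy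
      clear hy
      induction hy' using Submodule.span_induction with
      | zero => rw [mul_zero]; exact zero_mem _
      | add a b _ _ ha hb => rw [mul_add]; exact add_mem ha hb
      | smul c a _ ha => rw [mul_smul_comm]; exact Submodule.smul_mem _ _ ha
      | mem a ha =>
        obtain ⟨u', v', s, hs, rfl⟩ := ha
        have e1 : u * t * v * (u' * s * v') = u * (t * (v * u') * s) * v' := by noncomm_ring
        rw [e1]
        refine (hI v' _ (hI u _ ?_).1).2
        have h1 := hB (n + 1) 1 (by omega) le_rfl t (E_mem_ip hD hS hT ht) s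
          (by rw [ip_one hD]; exact hS hs) (v * u')
        refine sup_le_sup (idg_mono ?_) (le_of_eq ?_) h1
        · rintro _ ⟨b, hb, rfl⟩
          obtain ⟨l, rfl, hl, s0, hs0, rfl⟩ := ht
          refine ⟨l ++ [s0 * b], by simp, ?_, s, hs, ?_⟩
          · intro a ha
            rcases List.mem_append.1 ha with h | h
            · exact hl a h
            · rw [List.mem_singleton.1 h]
              exact hTB _ hs0 _ hb
          · simp [mul_assoc]
        · congr 1

end

theorem t (hR : S_RED) : S_GEN := by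
  classical
  intro F _ _ U _ _ A Φ e d s g hc S hS
  obtain ⟨B, hB⟩ := hR F U A Φ e d s g hc
  have hD : Idl (idg F (S : Set U)) := idl_idg _
  have hDA : idg F (S : Set U) ≤ A := idg_le hc.idl hS
  refine ⟨Finset.image₂ (· * ·) S (insert 1 B), ?_, ?_⟩
  · intro x hx
    obtain ⟨s, hs, b, hb, rfl⟩ := Finset.mem_image₂.1 (Finset.mem_coe.1 hx)
    exact (hD b s (subset_idg _ hs)).2
  · intro n hn
    obtain ⟨n, rfl⟩ := Nat.exists_eq_add_of_le' hn
    have h1 := main (F := F) (S : Set U)
      ((Finset.image₂ (· * ·) S (insert 1 B) : Finset U) : Set U) (B : Set U) (by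
        intro x hx
        obtain ⟨s, hs, b, hb, rfl⟩ := Finset.mem_image₂.1 (Finset.mem_coe.1 hx)
        exact (hD b s (subset_idg _ hs)).2) (by
        intro s hs b hb
        exact Finset.mem_coe.2 (Finset.mem_image₂_of_mem hs (Finset.mem_insert_of_mem hb)))
        (fun i j hi hj x hx z hz u => hB _ hD hDA i j hi hj x hx z hz u) n
    refine h1.trans (sup_le_sup (idg_mono ?_) le_rfl)
    rintro _ ⟨l, rfl, hl, s, hs, rfl⟩
    refine ⟨l ++ [s * 1], by simp, ?_, by simp⟩
    intro a ha
    rcases List.mem_append.1 ha with h | h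
    · exact Finset.mem_coe.1 (hl a h)
    · rw [List.mem_singleton.1 h]
      exact Finset.mem_image₂_of_mem hs (Finset.mem_insert_self _ _)

end Pool.Agent.N62.RF.GEN
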