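import Pool.Agent.N62.RF.Stm

set_option autoImplicit false

namespace Pool.Agent.N62.RF.K

open MvPolynomial

theorem t (hR : S_RW) : S_K := by
  intro F _ U _ _ A d hA hM S hS hnil
  classical
  -- enumeration of `S`
  let e : Fin S.card ≃ S := S.equivFin.symm
  let g : Fin S.card → U := fun i => (e i : U)
  have hgS : ∀ i, g i ∈ S := fun i => (e i).2
  have hgA : ∀ i, g i ∈ A := fun i => hS (hgS i)
  -- common exponent
  have hfin : {v : List (Fin S.card) | v.length ≤ d}.Finite := List.finite_length_le _ _
  have hk : ∀ v : List (Fin S.card), ∃ k, v ≠ [] → (v.map g).prod ^ k = 0 := by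
    intro v
    by_cases hv : v = []
    · exact ⟨0, fun h => absurd hv h⟩
    · obtain ⟨k, hk⟩ := hnil (v.map g) (by simpa using hv) (by
        intro a ha
        obtain ⟨i, _, rfl⟩ := List.mem_map.1 ha
        exact hgS i)
      exact ⟨k, fun _ => hk⟩
  choose k hk using hk
  let N : ℕ := hfin.toFinset.sup k
  have hN : ∀ v : List (Fin S.card), v ≠ [] → v.length ≤ d → (v.map g).prod ^ N = 0 := by
    intro v hv hd
    have h1 : k v ≤ N := Finset.le_sup (f := k) (by simpa using hd)
    exact pow_eq_zero_of_le h1 (hk v hv)
  obtain ⟨β, hβ⟩ := hR S.card d N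
  have key := hβ F U A hA hM g hgA LinearMap.id ⊥ (fun w => w.length = β)
    (fun w w' hp h => by rw [← hp.length_eq]; exact h)
    (by
      intro a v b hv hd _ _
      rw [Submodule.mem_bot, LinearMap.id_apply]
      have h2 : ((List.replicate N v).flatten.map g).prod = (v.map g).prod ^ N := by
        rw [List.map_flatten, List.prod_flatten]
        simp
      rw [List.map_append, List.map_append, List.prod_append, List.prod_append, h2, hN v hv hd]
      simp)
    (fun w h1 h2 => absurd h2 (ne_of_lt h1))
  refine ⟨β, ?_⟩
  intro l hl hn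
  have h3 : l.prod = (l.take β).prod * (l.drop β).prod := by
    rw [← List.prod_append, List.take_append_drop]
  have h4 : ∃ w : List (Fin S.card), w.map g = l.take β := by
    have : ∀ l' : List U, (∀ a ∈ l', a ∈ S) → ∃ w : List (Fin S.card), w.map g = l' := by
      intro l'
      induction l' with
      | nil => intro _; exact ⟨[], rfl⟩
      | cons a l' ih =>
        intro h
        obtain ⟨w, hw⟩ := ih (fun b hb => h b (List.mem_cons_of_mem _ hb))
        refine ⟨e.symm ⟨a, h a List.mem_cons_self⟩ :: w, ?_⟩
        simp [g, hw]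
    exact this _ (fun a ha => hl a (List.mem_of_mem_take ha))
  obtain ⟨w, hw⟩ := h4
  have h5 : w.length = β := by
    have := congrArg List.length hw
    simpa [hn] using this
  have h6 := key w h5
  rw [Submodule.mem_bot, LinearMap.id_apply, hw] at h6
  rw [h3, h6, zero_mul]

end Pool.Agent.N62.RF.K
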