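import Mathlib
import Pool.Agent.N62.RF.Stm

/-!
Task LAWEXT (project LF of helper62): the shape of the law. By helper403.
-/

set_option autoImplicit false

namespace Pool.Agent.N62.RF.LAWEXT

open MvPolynomial

section

variable {F : Type} [Field F] {U : Type} [Ring U] [Algebra F U]

/-- the word as an element of the free algebra -/
noncomputable def wd (w : List (Fin 3)) : FreeAlgebra F (Fin 3) := (w.map (FreeAlgebra.ι F)).prod

theorem basis_eq (w : FreeMonoid (Fin 3)) :
    FreeAlgebra.basisFreeMonoid F (Fin 3) w = wd w.toList := by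
  have h : FreeAlgebra.basisFreeMonoid F (Fin 3) w =
      FreeAlgebra.equivMonoidAlgebraFreeMonoid.symm (MonoidAlgebra.single w (1 : F)) := by
    rfl
  rw [h]
  have h2 : FreeAlgebra.equivMonoidAlgebraFreeMonoid.symm (MonoidAlgebra.single w (1 : F)) =
      MonoidAlgebra.lift F (FreeAlgebra F (Fin 3)) (FreeMonoid (Fin 3))
        (FreeMonoid.lift (FreeAlgebra.ι F)) (MonoidAlgebra.single w (1 : F)) := rfl
  rw [h2, MonoidAlgebra.lift_single, one_smul, FreeMonoid.lift_apply]
  rfl

theorem ev_wd (x y z : U) (w : List (Fin 3)) :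
    ev x y z (wd w : FreeAlgebra F (Fin 3)) = (w.map ![x, y, z]).prod := by
  unfold ev wd
  rw [map_list_prod, List.map_map]
  congr 1
  apply List.map_congr_left
  intro a _
  simp

theorem cf_wd (w w' : List (Fin 3)) : cf (wd w : FreeAlgebra F (Fin 3)) w' = if w = w' then 1 else 0 := by
  have h : (wd w : FreeAlgebra F (Fin 3)) = FreeAlgebra.basisFreeMonoid F (Fin 3) (FreeMonoid.ofList w) := by
    rw [basis_eq]; rfl
  unfold cf
  rw [h, Module.Basis.repr_self]
  by_cases hw : w = w'
  · rw [if_pos hw, hw]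
    exact Finsupp.single_eq_same
  · rw [if_neg hw]
    exact Finsupp.single_eq_of_ne (fun h => hw h.symm)

/-- a linear map is determined by its values at words -/
theorem ext_wd {V : Type} [AddCommGroup V] [Module F V] {φ ψ : FreeAlgebra F (Fin 3) →ₗ[F] V}
    (h : ∀ w, φ (wd w) = ψ (wd w)) : φ = ψ := by
  apply (FreeAlgebra.basisFreeMonoid F (Fin 3)).ext
  intro w
  rw [basis_eq]
  exact h _

/-- the linear map with given values at words -/
noncomputable def mk {V : Type} [AddCommGroup V] [Module F V] (g : List (Fin 3) → V) :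
    FreeAlgebra F (Fin 3) →ₗ[F] V :=
  (FreeAlgebra.basisFreeMonoid F (Fin 3)).constr F (fun w => g w.toList)

theorem mk_wd {V : Type} [AddCommGroup V] [Module F V] (g : List (Fin 3) → V) (w : List (Fin 3)) :
    mk g (wd w : FreeAlgebra F (Fin 3)) = g w := by
  have h : (wd w : FreeAlgebra F (Fin 3)) = FreeAlgebra.basisFreeMonoid F (Fin 3) (FreeMonoid.ofList w) := by
    rw [basis_eq]; rfl
  unfold mk
  rw [h, Module.Basis.constr_basis]
  rfl

/-- coefficients as linear maps -/
noncomputable def cfl (w : List (Fin 3)) : FreeAlgebra F (Fin 3) →ₗ[F] F :=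
  (FreeAlgebra.basisFreeMonoid F (Fin 3)).coord (FreeMonoid.ofList w)

theorem cfl_apply (w : List (Fin 3)) (f : FreeAlgebra F (Fin 3)) : cfl w f = cf f w := rfl

/-- words which occur in the error -/
def Gd (w : List (Fin 3)) : Prop := 1 ≤ w.count 0 ∧ 1 ≤ w.count 2 ∧ 3 ≤ w.count 0 + w.count 2

instance (w : List (Fin 3)) : Decidable (Gd w) := by unfold Gd; infer_instance

/-- the substitution `z ↦ y z` -/
def sbw (w : List (Fin 3)) : List (Fin 3) := w.flatMap fun a => if a = 2 then [1, 2] else [a]

theorem sbw_cons (a : Fin 3) (w : List (Fin 3)) :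
    sbw (a :: w) = (if a = 2 then [1, 2] else [a]) ++ sbw w := by
  simp [sbw]

theorem count_sbw (w : List (Fin 3)) : (sbw w).count 0 = w.count 0 ∧ (sbw w).count 2 = w.count 2 := by
  induction w with
  | nil => simp [sbw]
  | cons a w ih =>
    rw [sbw_cons, List.count_append, List.count_append, ih.1, ih.2]
    fin_cases a <;> simp [add_comm]

theorem prod_sbw (x y z : U) (w : List (Fin 3)) :
    ((sbw w).map ![x, y, z]).prod = (w.map ![x, y, y * z]).prod := by
  induction w with
  | nil => simp [sbw]
  | cons a w ih =>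
    rw [sbw_cons, List.map_append, List.prod_append, ih, List.map_cons, List.prod_cons]
    fin_cases a <;> simp

/-- the error of a word -/
noncomputable def ew (w : List (Fin 3)) : FreeAlgebra F (Fin 3) :=
  if Gd w then wd (1 :: w) - wd (sbw w) else 0

/-- the main part of a word -/
noncomputable def pw (w : List (Fin 3)) : MvPolynomial (Fin 3) F :=
  if w.count 0 = 1 ∧ w.count 2 = 1 ∧ w.idxOf 0 < w.idxOf 2 then
    (X 1 - X 0) * (X 1 ^ w.idxOf 0 * X 0 ^ (w.idxOf 2 - w.idxOf 0 - 1) *
      X 2 ^ (w.length - w.idxOf 2 - 1)) else 0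

theorem tri_mon (c x z : U) (a b l : ℕ) :
    tri c x z ((X 1 : MvPolynomial (Fin 3) F) ^ a * X 0 ^ b * X 2 ^ l) =
      c ^ a * x * c ^ b * z * c ^ l := by
  have h : (X 1 : MvPolynomial (Fin 3) F) ^ a * X 0 ^ b * X 2 ^ l =
      MvPolynomial.basisMonomials (Fin 3) F
        (Finsupp.single 1 a + Finsupp.single 0 b + Finsupp.single 2 l) := by
    rw [MvPolynomial.coe_basisMonomials, X_pow_eq_monomial, X_pow_eq_monomial, X_pow_eq_monomial,
      monomial_mul, monomial_mul, one_mul, one_mul]
  rw [h]
  unfold tri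
  rw [Module.Basis.constr_basis]
  simp

theorem tri_main (c x z : U) (a b l : ℕ) :
    tri c x z ((X 1 - X 0 : MvPolynomial (Fin 3) F) * (X 1 ^ a * X 0 ^ b * X 2 ^ l)) =
      c * (c ^ a * x * c ^ b * z * c ^ l) - c ^ a * x * c ^ b * (c * z) * c ^ l := by
  have h : (X 1 - X 0 : MvPolynomial (Fin 3) F) * (X 1 ^ a * X 0 ^ b * X 2 ^ l) =
      X 1 ^ (a + 1) * X 0 ^ b * X 2 ^ l - X 1 ^ a * X 0 ^ (b + 1) * X 2 ^ l := by ring
  rw [h, map_sub, tri_mon, tri_mon, pow_succ' c a, pow_succ c b]
  simp only [mul_assoc]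

/-- the word `y^i x y^j z y^l` -/
def fm (i j l : ℕ) : List (Fin 3) :=
  List.replicate i 1 ++ 0 :: (List.replicate j 1 ++ 2 :: List.replicate l 1)

/-- the word `y^i z y^j x y^l` -/
def fm' (i j l : ℕ) : List (Fin 3) :=
  List.replicate i 1 ++ 2 :: (List.replicate j 1 ++ 0 :: List.replicate l 1)

theorem ones {s : List (Fin 3)} (h0 : s.count 0 = 0) (h2 : s.count 2 = 0) :
    s = List.replicate s.length 1 := by
  rw [List.eq_replicate_iff]
  refine ⟨rfl, fun a ha => ?_⟩
  rw [List.count_eq_zero] at h0 h2
  fin_cases a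
  · exact absurd ha h0
  · rfl
  · exact absurd ha h2

theorem shape {w : List (Fin 3)} (h0 : w.count 0 = 1) (h2 : w.count 2 = 1) :
    (∃ i j l, w = fm i j l) ∨ ∃ i j l, w = fm' i j l := by
  have h : (0 : Fin 3) ∈ w := List.count_pos_iff.1 (by omega)
  obtain ⟨s, t, rfl⟩ := List.append_of_mem h
  rw [List.count_append, List.count_cons_self] at h0
  rw [List.count_append, List.count_cons_of_ne (by decide)] at h2
  by_cases ht : (2 : Fin 3) ∈ t
  · left
    obtain ⟨t1, t2, rfl⟩ := List.append_of_mem ht
    rw [List.count_append, List.count_cons_of_ne (by decide)] at h0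
    rw [List.count_append, List.count_cons_self] at h2
    refine ⟨s.length, t1.length, t2.length, ?_⟩
    unfold fm
    rw [← ones (s := s) (by omega) (by omega), ← ones (s := t1) (by omega) (by omega),
      ← ones (s := t2) (by omega) (by omega)]
  · right
    have h3 := List.count_eq_zero.2 ht
    have hs : (2 : Fin 3) ∈ s := List.count_pos_iff.1 (by omega)
    obtain ⟨t1, t2, rfl⟩ := List.append_of_mem hs
    rw [List.count_append, List.count_cons_of_ne (by decide)] at h0
    rw [List.count_append, List.count_cons_self] at h2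
    refine ⟨t1.length, t2.length, t.length, ?_⟩
    unfold fm'
    rw [← ones (s := t) (by omega) (by omega), ← ones (s := t1) (by omega) (by omega),
      ← ones (s := t2) (by omega) (by omega)]
    simp

theorem count_fm (i j l : ℕ) : (fm i j l).count 0 = 1 ∧ (fm i j l).count 2 = 1 := by
  simp [fm, List.count_replicate]

theorem count_fm' (i j l : ℕ) : (fm' i j l).count 0 = 1 ∧ (fm' i j l).count 2 = 1 := by
  simp [fm', List.count_replicate]

theorem idx_fm (i j l : ℕ) : (fm i j l).idxOf 0 = i ∧ (fm i j l).idxOf 2 = i + 1 + j ∧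
    (fm i j l).length = i + 1 + j + 1 + l := by
  refine ⟨?_, ?_, ?_⟩
  · unfold fm
    rw [List.idxOf_append_of_notMem (by simp), List.idxOf_cons_self]
    simp
  · unfold fm
    rw [List.idxOf_append_of_notMem (by simp), List.idxOf_cons_ne _ (by decide),
      List.idxOf_append_of_notMem (by simp), List.idxOf_cons_self]
    simp
    omega
  · simp [fm]
    omega

theorem idx_fm' (i j l : ℕ) : (fm' i j l).idxOf 2 = i ∧ (fm' i j l).idxOf 0 = i + 1 + j := by
  refine ⟨?_, ?_⟩
  · unfold fm'
    rw [List.idxOf_append_of_notMem (by simp), List.idxOf_cons_self]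
    simp
  · unfold fm'
    rw [List.idxOf_append_of_notMem (by simp), List.idxOf_cons_ne _ (by decide),
      List.idxOf_append_of_notMem (by simp), List.idxOf_cons_self]
    simp
    omega

theorem pw_fm (i j l : ℕ) :
    pw (F := F) (fm i j l) = (X 1 - X 0) * (X 1 ^ i * X 0 ^ j * X 2 ^ l) := by
  unfold pw
  rw [(idx_fm i j l).1, (idx_fm i j l).2.1, (idx_fm i j l).2.2, if_pos
    ⟨(count_fm i j l).1, (count_fm i j l).2, by omega⟩]
  congr 5 <;> omega

theorem pw_fm' (i j l : ℕ) : pw (F := F) (fm' i j l) = 0 := by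
  unfold pw
  rw [(idx_fm' i j l).1, (idx_fm' i j l).2, if_neg (by omega)]

theorem xyz_eq (k : ℕ) : xyz k = fm 0 k 0 := by simp [xyz, fm]

theorem fm_inj {i j l i' j' l' : ℕ} (h : fm i j l = fm i' j' l') : i = i' ∧ j = j' ∧ l = l' := by
  have h1 := (idx_fm i j l).1
  have h2 := (idx_fm i j l).2.1
  have h3 := (idx_fm i j l).2.2
  rw [h] at h1 h2 h3
  rw [(idx_fm i' j' l').1] at h1
  rw [(idx_fm i' j' l').2.1] at h2
  rw [(idx_fm i' j' l').2.2] at h3
  omega

theorem prod_fm (x y z : U) (i j l : ℕ) :
    ((fm i j l).map ![x, y, z]).prod = y ^ i * x * y ^ j * z * y ^ l := by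
  simp [fm, mul_assoc]

theorem prod_fm' (x y z : U) (i j l : ℕ) :
    ((fm' i j l).map ![x, y, z]).prod = y ^ i * z * y ^ j * x * y ^ l := by
  simp [fm', mul_assoc]

/-- words without `x` -/
theorem no_x (x x' y z : U) {w : List (Fin 3)} (h : w.count 0 = 0) :
    (w.map ![x, y, z]).prod = (w.map ![x', y, z]).prod := by
  congr 1
  apply List.map_congr_left
  intro a ha
  rw [List.count_eq_zero] at h
  fin_cases a
  · exact absurd ha h
  · rfl
  · rfl

theorem no_z (x y z z' : U) {w : List (Fin 3)} (h : w.count 2 = 0) :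
    (w.map ![x, y, z]).prod = (w.map ![x, y, z']).prod := by
  congr 1
  apply List.map_congr_left
  intro a ha
  rw [List.count_eq_zero] at h
  fin_cases a
  · rfl
  · rfl
  · exact absurd ha h

theorem zero_x (y z : U) {w : List (Fin 3)} (h : w.count 0 ≠ 0) :
    (w.map ![0, y, z]).prod = 0 := by
  apply List.prod_eq_zero
  rw [List.mem_map]
  refine ⟨0, List.count_pos_iff.1 (by omega), rfl⟩

theorem zero_z (x y : U) {w : List (Fin 3)} (h : w.count 2 ≠ 0) :
    (w.map ![x, y, 0]).prod = 0 := by
  apply List.prod_eq_zero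
  rw [List.mem_map]
  refine ⟨2, List.count_pos_iff.1 (by omega), rfl⟩

/-- the identity for a word -/
theorem word_id (x y z : U) (w : List (Fin 3)) :
    tri y x z (pw (F := F) w) + ev x y z (ew (F := F) w) =
      y * ((w.map ![x, y, z]).prod - (w.map ![0, y, z]).prod - (w.map ![x, y, 0]).prod +
        (w.map ![0, y, 0]).prod) - ((w.map ![x, y, y * z]).prod - (w.map ![0, y, y * z]).prod -
        (w.map ![x, y, 0]).prod + (w.map ![0, y, 0]).prod) := by
  by_cases h0 : w.count 0 = 0
  · have h1 : pw (F := F) w = 0 := by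
      unfold pw
      rw [if_neg (by omega)]
    have h2 : ew (F := F) w = 0 := by
      unfold ew
      rw [if_neg (by unfold Gd; omega)]
    rw [h1, h2, map_zero, map_zero, no_x x 0 y z h0, no_x x 0 y 0 h0, no_x x 0 y (y * z) h0]
    simp
  by_cases h2 : w.count 2 = 0
  · have h1 : pw (F := F) w = 0 := by
      unfold pw
      rw [if_neg (by omega)]
    have h3 : ew (F := F) w = 0 := by
      unfold ew
      rw [if_neg (by unfold Gd; omega)]
    rw [h1, h3, map_zero, map_zero, no_z x y z 0 h2, no_z 0 y z 0 h2, no_z x y (y * z) 0 h2,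
      no_z 0 y (y * z) 0 h2]
    simp
  rw [zero_x y z h0, zero_x y (y * z) h0, zero_x y 0 h0, zero_z x y h2]
  simp only [sub_zero, add_zero]
  by_cases h3 : Gd w
  · have h1 : pw (F := F) w = 0 := by
      unfold pw
      rw [if_neg (by unfold Gd at h3; omega)]
    have h4 : ew (F := F) w = wd (1 :: w) - wd (sbw w) := by
      unfold ew
      rw [if_pos h3]
    rw [h1, h4, map_zero, map_sub, ev_wd, ev_wd, prod_sbw, List.map_cons, List.prod_cons, zero_add]
    rfl
  · have h4 : ew (F := F) w = 0 := by
      unfold ew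
      rw [if_neg h3]
    have h5 : w.count 0 = 1 ∧ w.count 2 = 1 := by unfold Gd at h3; omega
    rw [h4, map_zero, add_zero]
    rcases shape h5.1 h5.2 with ⟨i, j, l, rfl⟩ | ⟨i, j, l, rfl⟩
    · rw [pw_fm, tri_main, prod_fm, prod_fm]
    · rw [pw_fm', map_zero, prod_fm', prod_fm']
      simp only [← mul_assoc]
      rw [← pow_succ, ← pow_succ', sub_self]

end

theorem t : S_LAWEXT := by
  intro F _ f k hf
  refine ⟨mk pw f, mk ew f, ?_, ?_, ?_⟩
  · -- the polynomial
    intro h
    have key : ((Polynomial.lcoeff F (k + 1)) ∘ₗ (mid (F := F)).toLinearMap ∘ₗ mk (pw (F := F))) =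
        -(cfl (F := F) (xyz k)) := by
      apply ext_wd
      intro w
      show ((mid (mk pw (wd w))).coeff (k + 1)) = -(cf (wd w) (xyz k))
      rw [mk_wd, cf_wd]
      by_cases hw : ∃ i j l, w = fm i j l
      · obtain ⟨i, j, l, rfl⟩ := hw
        rw [pw_fm, xyz_eq]
        have h1 : mid ((X 1 - X 0 : MvPolynomial (Fin 3) F) * (X 1 ^ i * X 0 ^ j * X 2 ^ l)) =
            -((0 : Polynomial F) ^ i * Polynomial.X ^ (j + 1) * 0 ^ l) := by
          unfold mid
          simp only [map_mul, map_sub, map_pow, aeval_X]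
          simp
          ring
        rw [h1]
        rcases Nat.eq_zero_or_pos i with rfl | hi
        · rcases Nat.eq_zero_or_pos l with rfl | hl
          · rw [pow_zero, one_mul, mul_one, Polynomial.coeff_neg, Polynomial.coeff_X_pow]
            by_cases hjk : j = k
            · rw [hjk, if_pos rfl, if_pos rfl]
            · rw [if_neg (by omega), if_neg (fun h => hjk (fm_inj h).2.1)]
          · have hne : fm 0 j l ≠ fm 0 k 0 := fun h => by
              have := (fm_inj h).2.2
              omega
            rw [zero_pow (n := l) (by omega), if_neg hne]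
            simp
        · have hne : fm i j l ≠ fm 0 k 0 := fun h => by
            have := (fm_inj h).1
            omega
          rw [zero_pow (n := i) (by omega), if_neg hne]
          simp
      · have h1 : pw (F := F) w = 0 := by
          by_cases h2 : w.count 0 = 1 ∧ w.count 2 = 1
          · rcases shape h2.1 h2.2 with h3 | ⟨i, j, l, rfl⟩
            · exact absurd h3 hw
            · exact pw_fm' i j l
          · unfold pw
            rw [if_neg (by tauto)]
        rw [h1, if_neg (fun h => hw ⟨0, k, 0, by rw [h, xyz_eq]⟩), map_zero]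
        simp
    have h2 := LinearMap.congr_fun key f
    have h3 : ((mid (mk pw f)).coeff (k + 1)) = -(cf f (xyz k)) := h2
    rw [h, Polynomial.coeff_zero] at h3
    exact hf (neg_eq_zero.1 h3.symm)
  · -- the error
    intro w hw
    by_contra hcon
    apply hw
    have key : (cfl (F := F) w) ∘ₗ mk (ew (F := F)) = 0 := by
      apply ext_wd
      intro w'
      show cfl w (mk ew (wd w')) = 0
      rw [mk_wd]
      unfold ew
      by_cases h1 : Gd w'
      · rw [if_pos h1, map_sub, cfl_apply, cfl_apply, cf_wd, cf_wd, if_neg, if_neg, sub_zero]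
        · rintro rfl
          apply hcon
          rw [(count_sbw w').1, (count_sbw w').2]
          exact h1
        · rintro rfl
          apply hcon
          rw [List.count_cons_of_ne (by decide), List.count_cons_of_ne (by decide)]
          exact h1
      · rw [if_neg h1, map_zero]
    exact LinearMap.congr_fun key f
  · intro U _ _ A hA hf x hx y hy z hz
    have key : (tri y x z) ∘ₗ mk (pw (F := F)) + (ev x y z).toLinearMap ∘ₗ mk (ew (F := F)) =
        (LinearMap.mulLeft F y) ∘ₗ ((ev (F := F) x y z).toLinearMap - (ev 0 y z).toLinearMap -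
          (ev x y 0).toLinearMap + (ev 0 y 0).toLinearMap) -
          ((ev x y (y * z)).toLinearMap - (ev 0 y (y * z)).toLinearMap -
          (ev x y 0).toLinearMap + (ev 0 y 0).toLinearMap) := by
      apply ext_wd
      intro w
      have := word_id (F := F) x y z w
      rw [← mk_wd (F := F) pw w, ← mk_wd (F := F) ew w] at this
      simp only [LinearMap.add_apply, LinearMap.sub_apply, LinearMap.comp_apply,
        AlgHom.toLinearMap_apply, LinearMap.mulLeft_apply, ev_wd]
      exact this
    have h1 := LinearMap.congr_fun key f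
    simp only [LinearMap.add_apply, LinearMap.sub_apply, LinearMap.comp_apply,
      AlgHom.toLinearMap_apply, LinearMap.mulLeft_apply] at h1
    rw [h1, hf x hx y hy z hz, hf 0 A.zero_mem y hy z hz, hf x hx y hy 0 A.zero_mem,
      hf 0 A.zero_mem y hy 0 A.zero_mem, hf x hx y hy (y * z) (hA y z hz).1,
      hf 0 A.zero_mem y hy (y * z) (hA y z hz).1]
    simp

end Pool.Agent.N62.RF.LAWEXT
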