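import Pool.Agent.N62.RF.Stm
import Pool.Agent.H67.PI.Lin

/-!
Task MPI (helper717): from an identity over a finite field to a multilinear identity with integer
coefficients. The multilinear identity over `F` is multiplied by its conjugates in new variables, and
the trace is applied to the coefficients.
-/

set_option autoImplicit false

namespace Pool.Agent.N62.RF.MPI

open Finset

section

variable {F : Type} [Field F] {U : Type} [Ring U] [Algebra F U]

/-- product of sums of multiples, in a noncommutative algebra -/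
lemma prod_sum_smul {n : ℕ} {ι : Type} [Fintype ι] [DecidableEq ι] (s : Fin n → ι → F)
    (v : Fin n → ι → U) :
    (List.ofFn fun i => ∑ t, s i t • v i t).prod =
      ∑ φ : Fin n → ι, (∏ i, s i (φ i)) • (List.ofFn fun i => v i (φ i)).prod := by
  have h := (MultilinearMap.mkPiAlgebraFin F n U).map_sum (fun i t => s i t • v i t)
  simp only [MultilinearMap.mkPiAlgebraFin_apply] at h
  rw [h]
  refine Finset.sum_congr rfl fun φ _ => ?_
  have h2 := (MultilinearMap.mkPiAlgebraFin F n U).map_smul_univ (fun i => s i (φ i))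
    (fun i => v i (φ i))
  simpa only [MultilinearMap.mkPiAlgebraFin_apply] using h2

/-- block permutations -/
def blk {n d : ℕ} (τ : Fin n → Equiv.Perm (Fin d)) : Equiv.Perm (Fin (n * d)) :=
  (finProdFinEquiv.symm.trans (Equiv.prodShear (Equiv.refl (Fin n)) τ)).trans finProdFinEquiv

lemma blk_apply {n d : ℕ} (τ : Fin n → Equiv.Perm (Fin d)) (i : Fin n) (k : Fin d) :
    blk τ (finProdFinEquiv (i, k)) = finProdFinEquiv (i, τ i k) := by
  simp [blk, Equiv.prodShear]

lemma blk_inj {n d : ℕ} : Function.Injective (blk : (Fin n → Equiv.Perm (Fin d)) → _) := by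
  intro τ τ' h
  funext i
  refine Equiv.ext fun k => ?_
  have h1 := blk_apply τ i k
  rw [h, blk_apply τ' i k] at h1
  have h2 := finProdFinEquiv.injective h1
  exact (Prod.ext_iff.mp h2).2.symm

lemma blk_one {n d : ℕ} : blk (fun _ : Fin n => (1 : Equiv.Perm (Fin d))) = 1 := by
  refine Equiv.ext fun x => ?_
  obtain ⟨⟨i, k⟩, rfl⟩ := finProdFinEquiv.surjective x
  rw [blk_apply]
  rfl

lemma prod_blk {n d : ℕ} (τ : Fin n → Equiv.Perm (Fin d)) (a : Fin (n * d) → U) :
    (List.ofFn fun k => a (blk τ k)).prod =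
      (List.ofFn fun i => (List.ofFn fun k => a (finProdFinEquiv (i, τ i k))).prod).prod := by
  rw [List.ofFn_mul, List.prod_flatten, List.map_ofFn]
  congr 2
  funext i
  rw [Function.comp_apply]
  congr 2
  funext k
  rw [← blk_apply]
  congr 2
  apply Fin.ext
  rw [finProdFinEquiv_apply_val]
  simp only
  ring

end

theorem t : S_MPI := by
  classical
  intro F _ _ f hf U _ _ A hA
  obtain ⟨d, c, hc1, hc⟩ := Pool.Agent.H67.PI.linearise A f hf (by
    intro a ha
    have h := hA (a 0) (ha 0) (a 1) (ha 1) (a 2) (ha 2)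
    unfold ev at h
    have e : ![a 0, a 1, a 2] = a := by
      funext i
      fin_cases i <;> rfl
    rwa [e] at h)
  obtain ⟨p, hp⟩ := CharP.exists F
  have hpp : Fact p.Prime := ⟨CharP.char_is_prime F p⟩
  let _ : Algebra (ZMod p) F := ZMod.algebra F p
  have hfinZ : Finite (ZMod p) := inferInstance
  have hfd : FiniteDimensional (ZMod p) F := Module.Finite.of_finite
  set n := Module.finrank (ZMod p) F with hn
  have hn0 : 0 < n := Module.finrank_pos
  obtain ⟨l, hl⟩ := Algebra.trace_surjective (ZMod p) F (1 : ZMod p)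
  -- the coefficients
  let m : (Fin n → Equiv.Perm (Fin d)) → ZMod p := fun τ =>
    Algebra.trace (ZMod p) F (l * ∏ i : Fin n, (c (τ i)) ^ p ^ (i : ℕ))
  have hm : ∀ τ, algebraMap (ZMod p) F (m τ) =
      ∑ j ∈ range n, (l * ∏ i : Fin n, (c (τ i)) ^ p ^ (i : ℕ)) ^ p ^ j := by
    intro τ
    have := FiniteField.algebraMap_trace_eq_sum_pow (ZMod p) F
      (l * ∏ i : Fin n, (c (τ i)) ^ p ^ (i : ℕ))
    rw [Nat.card_zmod] at this
    exact this
  have hfrob : ∀ x : F, x ^ p ^ n = x := by
    intro x
    have h1 : Nat.card F = p ^ n := by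
      rw [Module.natCard_eq_pow_finrank (K := ZMod p) (V := F), Nat.card_zmod]
    have := Fintype.ofFinite F
    rw [← h1, Nat.card_eq_fintype_card]
    exact FiniteField.pow_card x
  -- vanishing of the product of the conjugates
  have hP : ∀ j ∈ range n, ∀ a : Fin (n * d) → U, (∀ i, a i ∈ A) →
      ∑ τ : Fin n → Equiv.Perm (Fin d), (∏ i : Fin n, (c (τ i)) ^ p ^ ((i : ℕ) + j)) •
        (List.ofFn fun k => a (blk τ k)).prod = 0 := by
    intro j hj a ha
    rw [mem_range] at hj
    have h1 := prod_sum_smul (F := F) (U := U) (n := n) (ι := Equiv.Perm (Fin d))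
      (fun i t => (c t) ^ p ^ ((i : ℕ) + j))
      (fun i t => (List.ofFn fun k => a (finProdFinEquiv (i, t k))).prod)
    simp only [prod_blk]
    rw [← h1]
    apply List.prod_eq_zero
    rw [List.mem_ofFn]
    obtain ⟨i, hi⟩ : ∃ i : Fin n, (i : ℕ) + j = 0 ∨ (i : ℕ) + j = n := by
      rcases Nat.eq_zero_or_pos j with rfl | h
      · exact ⟨⟨0, hn0⟩, Or.inl rfl⟩
      · exact ⟨⟨n - j, by omega⟩, Or.inr (by simp only; omega)⟩
    refine ⟨i, ?_⟩
    have h2 := hc (fun k => a (finProdFinEquiv (i, k))) (fun k => ha _)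
    rw [← h2]
    refine Finset.sum_congr rfl fun t _ => ?_
    congr 1
    rcases hi with hi | hi
    · rw [hi, pow_zero, pow_one]
    · rw [hi]
      exact hfrob _
  -- the integral identity
  let nn : Equiv.Perm (Fin (n * d)) → ℤ := fun π =>
    if h : ∃ τ, blk τ = π then ((m h.choose).val : ℤ) else 0
  have hnn : ∀ τ, nn (blk τ) = ((m τ).val : ℤ) := by
    intro τ
    have h : ∃ τ', blk τ' = blk τ := ⟨τ, rfl⟩
    have h1 : h.choose = τ := blk_inj h.choose_spec
    simp only [nn]
    rw [dif_pos h, h1]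
  refine ⟨n * d, nn, ?_, ?_⟩
  · rw [← blk_one, hnn]
    have h1 : m (fun _ => 1) = 1 := by
      simp only [m, hc1, one_pow, Finset.prod_const_one, mul_one]
      exact hl
    rw [h1]
    have : Fact (1 < p) := ⟨hpp.out.one_lt⟩
    rw [ZMod.val_one]
    rfl
  · intro a ha
    have h1 : ∑ π, nn π • (List.ofFn fun k => a (π k)).prod =
        ∑ τ : Fin n → Equiv.Perm (Fin d), algebraMap (ZMod p) F (m τ) •
          (List.ofFn fun k => a (blk τ k)).prod := by
      symm
      refine Finset.sum_of_injOn blk (blk_inj.injOn) (fun _ _ => mem_coe.2 (mem_univ _)) ?_ ?_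
      · intro π _ hπ
        have : ¬ ∃ τ, blk τ = π := by
          rintro ⟨τ, h⟩
          exact hπ ⟨τ, mem_coe.2 (mem_univ _), h⟩
        simp only [nn]
        rw [dif_neg this, zero_smul]
      · intro τ _
        rw [hnn, ← Int.cast_smul_eq_zsmul F, Int.cast_natCast]
        congr 1
        rw [← map_natCast (algebraMap (ZMod p) F), ZMod.natCast_zmod_val]
    rw [h1]
    simp only [hm, Finset.sum_smul]
    rw [Finset.sum_comm]
    refine Finset.sum_eq_zero fun j hj => ?_
    have h2 := hP j hj a ha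
    have h3 : ∀ τ : Fin n → Equiv.Perm (Fin d),
        (l * ∏ i : Fin n, (c (τ i)) ^ p ^ (i : ℕ)) ^ p ^ j •
          (List.ofFn fun k => a (blk τ k)).prod =
        l ^ p ^ j • ((∏ i : Fin n, (c (τ i)) ^ p ^ ((i : ℕ) + j)) •
          (List.ofFn fun k => a (blk τ k)).prod) := by
      intro τ
      rw [smul_smul, mul_pow, ← Finset.prod_pow]
      congr 2
      refine Finset.prod_congr rfl fun i _ => ?_
      rw [← pow_mul, pow_add]
    simp only [h3]
    rw [← Finset.smul_sum, h2, smul_zero]

end Pool.Agent.N62.RF.MPI
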