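import Pool.Agent.N62.RF.Si

/-!
Locally residually finite varieties: the case of a nil commutator ideal.
-/

set_option autoImplicit false

namespace Pool.Agent.N62.RF

open MvPolynomial

/-- quotient algebras -/
theorem exists_quot {F : Type} [Field F] {U : Type} [Ring U] [Algebra F U] {J : Submodule F U}
    (hJ : Idl J) : ∃ (V : Type) (_ : Ring V) (_ : Algebra F V) (π : U →ₐ[F] V),
      Function.Surjective π ∧ ∀ u, π u = 0 ↔ u ∈ J := by
  let I : Ideal U :=
    { carrier := J
      add_mem' := fun h h' => J.add_mem h h'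
      zero_mem' := J.zero_mem
      smul_mem' := fun u x hx => (hJ u x hx).1 }
  have : I.IsTwoSided := ⟨fun {a} b ha => (hJ b a ha).2⟩
  refine ⟨U ⧸ I, inferInstance, inferInstance, Ideal.Quotient.mkₐ F I,
    Ideal.Quotient.mk_surjective, fun u => ?_⟩
  exact Ideal.Quotient.eq_zero_iff_mem

/-- Zorn's lemma: an ideal maximal without `w` -/
theorem exists_max_without {F : Type} [Field F] {U : Type} [Ring U] [Algebra F U] {w : U}
    (hw : w ≠ 0) : ∃ J : Submodule F U, Idl J ∧ w ∉ J ∧
      ∀ J' : Submodule F U, Idl J' → J ≤ J' → w ∉ J' → J' = J := by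
  obtain ⟨J, hJ⟩ := zorn_le₀ {J : Submodule F U | Idl J ∧ w ∉ J} (by
    intro c hc hchain
    rcases c.eq_empty_or_nonempty with rfl | hne
    · exact ⟨⊥, ⟨idl_bot, by simpa using hw⟩, by simp⟩
    · have hmem : ∀ x, x ∈ sSup c ↔ ∃ J ∈ c, x ∈ J := fun x =>
        Submodule.mem_sSup_of_directed hne hchain.directedOn
      refine ⟨sSup c, ⟨?_, ?_⟩, fun J hJ => le_sSup hJ⟩
      · intro u x hx
        obtain ⟨J, hJ, hxJ⟩ := (hmem x).1 hx
        exact ⟨(hmem _).2 ⟨J, hJ, ((hc hJ).1 u x hxJ).1⟩,
          (hmem _).2 ⟨J, hJ, ((hc hJ).1 u x hxJ).2⟩⟩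
      · intro h
        obtain ⟨J, hJ, hxJ⟩ := (hmem w).1 h
        exact (hc hJ).2 hxJ)
  exact ⟨J, hJ.prop.1, hJ.prop.2, fun J' h1 h2 h3 => (hJ.eq_of_le ⟨h1, h3⟩ h2).symm⟩

section

variable {F : Type} [Field F] {A : Type} [NonUnitalRing A] [Module F A] [IsScalarTower F A A]
  [SMulCommClass F A A]

/-- the algebra inside its unitization -/
noncomputable def rg (F : Type) [Field F] (A : Type) [NonUnitalRing A] [Module F A]
    [IsScalarTower F A A] [SMulCommClass F A A] : Submodule F (Unitization F A) :=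
  LinearMap.range (Unitization.inrNonUnitalAlgHom F A : A →ₗ[F] Unitization F A)

theorem mem_rg {x : Unitization F A} : x ∈ rg F A ↔ ∃ a : A, (a : Unitization F A) = x := Iff.rfl

theorem inr_mem (a : A) : (a : Unitization F A) ∈ rg F A := ⟨a, rfl⟩

theorem idl_rg : Idl (rg F A) := by
  intro u x hx
  obtain ⟨a, rfl⟩ := hx
  induction u using Unitization.ind with
  | inl_add_inr r b =>
    rw [add_mul, mul_add]
    change (Unitization.inl r * (Unitization.inr a : Unitization F A) +
        (Unitization.inr b : Unitization F A) * Unitization.inr a) ∈ rg F A ∧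
      ((Unitization.inr a : Unitization F A) * Unitization.inl r +
        (Unitization.inr a : Unitization F A) * Unitization.inr b) ∈ rg F A
    rw [Unitization.inl_mul_inr, Unitization.inr_mul_inl, ← Unitization.inr_mul,
      ← Unitization.inr_mul, ← Unitization.inr_add, ← Unitization.inr_add]
    exact ⟨inr_mem _, inr_mem _⟩

theorem on_rg {f : FreeAlgebra F (Fin 3)} (h : Law3 F A f) : On (rg F A) f := by
  rintro _ ⟨x, rfl⟩ _ ⟨y, rfl⟩ _ ⟨z, rfl⟩
  exact h x y z

theorem adjoin_inr {S : Set A} (hS : NonUnitalAlgebra.adjoin F S = ⊤) :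
    Algebra.adjoin F ((fun a : A => (a : Unitization F A)) '' S) = ⊤ := by
  rw [eq_top_iff]
  intro u _
  have key : ∀ a : A, (a : Unitization F A) ∈
      Algebra.adjoin F ((fun a : A => (a : Unitization F A)) '' S) := by
    intro a
    have ha : a ∈ NonUnitalAlgebra.adjoin F S := by rw [hS]; trivial
    induction ha using NonUnitalAlgebra.adjoin_induction with
    | mem x hx => exact Algebra.subset_adjoin ⟨x, hx, rfl⟩
    | add x y _ _ hx hy => rw [Unitization.inr_add]; exact add_mem hx hy
    | zero => rw [Unitization.inr_zero]; exact zero_mem _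
    | mul x y _ _ hx hy => rw [Unitization.inr_mul]; exact mul_mem hx hy
    | smul r x _ hx => rw [Unitization.inr_smul]; exact Subalgebra.smul_mem _ hx r
  induction u using Unitization.ind with
  | inl_add_inr r a =>
    exact add_mem (Subalgebra.algebraMap_mem _ r) (key a)

/-- On passes to images -/
theorem On.map {U V : Type} [Ring U] [Algebra F U] [Ring V] [Algebra F V] (π : U →ₐ[F] V)
    {B : Submodule F U} {f : FreeAlgebra F (Fin 3)} (h : On B f) :
    On (B.map π.toLinearMap) f := by
  rintro _ ⟨x, hx, rfl⟩ _ ⟨y, hy, rfl⟩ _ ⟨z, hz, rfl⟩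
  have h1 : ev (π x) (π y) (π z) f = π (ev x y z f) := by
    rw [ev_eq_sum, ev_eq_sum, map_sum]
    refine Finset.sum_congr rfl fun w _ => ?_
    rw [map_smul, map_list_prod, List.map_map]
    congr 3
    funext i
    fin_cases i <;> rfl
  change ev (π x) (π y) (π z) f = 0
  rw [h1, h x hx y hy z hz, map_zero]

theorem Idl.map {U V : Type} [Ring U] [Algebra F U] [Ring V] [Algebra F V] (π : U →ₐ[F] V)
    (hπ : Function.Surjective π) {B : Submodule F U} (h : Idl B) : Idl (B.map π.toLinearMap) := by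
  rintro v _ ⟨x, hx, rfl⟩
  obtain ⟨u, rfl⟩ := hπ v
  exact ⟨⟨u * x, (h u x hx).1, map_mul π u x⟩, ⟨x * u, (h u x hx).2, map_mul π x u⟩⟩

theorem Idl.comap {U V : Type} [Ring U] [Algebra F U] [Ring V] [Algebra F V] (π : U →ₐ[F] V)
    {B : Submodule F V} (h : Idl B) : Idl (B.comap π.toLinearMap) := by
  intro u x hx
  have h1 := h (π u) (π x) hx
  rw [← map_mul, ← map_mul] at h1
  exact h1

/-- an ideal containing the commutators of the generators contains all commutators -/
theorem comm_mem {U : Type} [Ring U] [Algebra F U] {D : Submodule F U} (hD : Idl D) {s : ℕ}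
    {g : Fin s → U} (hg : Algebra.adjoin F (Set.range g) = ⊤)
    (h : ∀ i j, g i * g j - g j * g i ∈ D) (u v : U) : u * v - v * u ∈ D := by
  have key : ∀ x : U, (∀ j, x * g j - g j * x ∈ D) → ∀ v : U, x * v - v * x ∈ D := by
    intro x hx v
    have hv : v ∈ Algebra.adjoin F (Set.range g) := by rw [hg]; trivial
    induction hv using Algebra.adjoin_induction with
    | mem v hv =>
      obtain ⟨j, rfl⟩ := hv
      exact hx j
    | algebraMap r =>
      rw [Algebra.commutes r x, sub_self]
      exact D.zero_mem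
    | add a b _ _ ha hb =>
      have : x * (a + b) - (a + b) * x = (x * a - a * x) + (x * b - b * x) := by noncomm_ring
      rw [this]
      exact D.add_mem ha hb
    | mul a b _ _ ha hb =>
      have : x * (a * b) - (a * b) * x = (x * a - a * x) * b + a * (x * b - b * x) := by
        noncomm_ring
      rw [this]
      exact D.add_mem (hD b _ ha).2 (hD a _ hb).1
  apply key
  intro j
  have := key (g j) (fun i => h j i) u
  have h2 : u * g j - g j * u = -(g j * u - u * g j) := by noncomm_ring
  rw [h2]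
  exact D.neg_mem this

end

theorem nilCase (hInt : S_INT) (hLE : S_LAWEXT) (hMpi : S_MPI) (hGen : S_GEN) (hLay : S_LAYER)
    (hX : S_ARPX) (hNil : S_NILP) (hCl : S_CLAIM) (hH : S_HFIN) (hFin : S_FINU) : S_NILCASE := by
  classical
  intro F _ _ f k hk A _ _ _ _ hfg hlaw hnil a ha
  obtain ⟨S, hS⟩ := hfg
  set U := Unitization F A with hU
  have ha' : (a : U) ≠ 0 := by
    intro h
    apply ha
    exact Unitization.inr_injective (R := F) (h.trans (Unitization.inr_zero F).symm)
  obtain ⟨J, hJ, haJ, hmax⟩ := exists_max_without (F := F) ha'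
  obtain ⟨V, iV, iA, π, hπ, hker⟩ := exists_quot hJ
  obtain ⟨Φ, e, hmid, herr, hLO⟩ := hLE F f k hk
  set B : Submodule F V := (rg F A).map π.toLinearMap with hB
  have hBi : Idl B := idl_rg.map π hπ
  have hBon : On B f := (on_rg hlaw).map π
  have hf0 : f ≠ 0 := by
    rintro rfl
    exact hk (cf_zero _)
  obtain ⟨d, hd⟩ := hMpi F f hf0 V B hBon
  -- generators
  let g0 : Fin S.card → A := fun i => (S.equivFin.symm i : A)
  let g1 : Fin S.card → U := fun i => (g0 i : U)
  let g : Fin S.card → V := fun i => π (g1 i)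
  have hg1 : Algebra.adjoin F (Set.range g1) = ⊤ := by
    rw [← adjoin_inr hS]
    congr 1
    ext x
    constructor
    · rintro ⟨i, rfl⟩
      exact ⟨g0 i, (S.equivFin.symm i).2, rfl⟩
    · rintro ⟨y, hy, rfl⟩
      exact ⟨S.equivFin ⟨y, hy⟩, by simp [g1, g0]⟩
  have hg : Algebra.adjoin F (Set.range g) = ⊤ := by
    have h1 : Set.range g = π '' Set.range g1 := by
      rw [← Set.range_comp]; rfl
    rw [h1, ← AlgHom.map_adjoin, hg1, Algebra.map_top, AlgHom.range_eq_top]
    exact hπ
  have hC : Ctx B Φ e d g :=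
    { idl := hBi
      law := hLO V B hBi hBon
      err := herr
      mid := hmid
      mpi := hd
      gA := fun i => ⟨g1 i, inr_mem _, rfl⟩
      gen := hg }
  -- the commutator ideal
  let T0 : Finset A := Finset.univ.image fun p : Fin S.card × Fin S.card =>
    g0 p.1 * g0 p.2 - g0 p.2 * g0 p.1
  let T : Finset V := T0.image fun t : A => π (Unitization.inr t)
  have hTB : (T : Set V) ⊆ B := by
    intro t ht
    simp only [T, Finset.coe_image, Set.mem_image] at ht
    obtain ⟨y, _, rfl⟩ := ht
    exact ⟨Unitization.inr y, inr_mem y, rfl⟩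
  have hTD : ∀ t ∈ idg F (T : Set V), ∃ δ : A, InD F A δ ∧ π (δ : U) = t := by
    -- the elements of the ideal come from the commutator ideal of `A`
    have hstep : ∀ (u : U) (δ : A), InD F A δ → (∃ δ' : A, InD F A δ' ∧ (δ' : U) = u * δ) ∧
        (∃ δ' : A, InD F A δ' ∧ (δ' : U) = δ * u) := by
      intro u δ hδ
      induction u using Unitization.ind with
      | inl_add_inr r b =>
        constructor
        · refine ⟨r • δ + b * δ, ?_, ?_⟩
          · intro J' hJ' hc
            exact J'.add_mem (J'.smul_mem _ (hδ J' hJ' hc)) (hJ' b δ (hδ J' hJ' hc)).1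
          · rw [add_mul, Unitization.inr_add, Unitization.inr_mul, Unitization.inl_mul_inr]
        · refine ⟨r • δ + δ * b, ?_, ?_⟩
          · intro J' hJ' hc
            exact J'.add_mem (J'.smul_mem _ (hδ J' hJ' hc)) (hJ' b δ (hδ J' hJ' hc)).2
          · rw [mul_add, Unitization.inr_add, Unitization.inr_mul, Unitization.inr_mul_inl]
    intro t ht
    induction ht using Submodule.span_induction with
    | mem t h =>
      obtain ⟨u, v, s, hs, rfl⟩ := h
      simp only [T, T0, Finset.coe_image, Set.mem_image] at hs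
      obtain ⟨y, ⟨p, _, rfl⟩, rfl⟩ := hs
      obtain ⟨u, rfl⟩ := hπ u
      obtain ⟨v, rfl⟩ := hπ v
      obtain ⟨δ1, h1, h2⟩ := (hstep u (g0 p.1 * g0 p.2 - g0 p.2 * g0 p.1)
        (fun J' _ hc => hc _ _)).1
      obtain ⟨δ2, h3, h4⟩ := (hstep v δ1 h1).2
      refine ⟨δ2, h3, ?_⟩
      rw [h4, h2, map_mul, map_mul]
    | zero => exact ⟨0, fun J' _ _ => J'.zero_mem, by rw [Unitization.inr_zero, map_zero]⟩
    | add x y _ _ hx hy =>
      obtain ⟨δ, h1, rfl⟩ := hx
      obtain ⟨δ', h1', rfl⟩ := hy
      exact ⟨δ + δ', fun J' hJ' hc => J'.add_mem (h1 J' hJ' hc) (h1' J' hJ' hc), by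
        rw [Unitization.inr_add, map_add]⟩
    | smul r x _ hx =>
      obtain ⟨δ, h1, rfl⟩ := hx
      exact ⟨r • δ, fun J' hJ' hc => J'.smul_mem _ (h1 J' hJ' hc), by
        rw [Unitization.inr_smul, map_smul]⟩
  have hTnil : ∀ t ∈ idg F (T : Set V), ∃ k, t ^ k = 0 := by
    intro t ht
    obtain ⟨δ, h1, rfl⟩ := hTD t ht
    obtain ⟨n, hn⟩ := hnil δ h1
    exact ⟨n, by rw [← map_pow, hn, map_zero]⟩
  have hcomm : ∀ u v : V, u * v - v * u ∈ idg F (T : Set V) := by
    apply comm_mem (idl_idg _) hg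
    intro i j
    apply subset_idg
    simp only [T, T0, Finset.coe_image, Set.mem_image]
    refine ⟨g0 i * g0 j - g0 j * g0 i, ⟨(i, j), by simp, rfl⟩, ?_⟩
    rw [Unitization.inr_sub, Unitization.inr_mul, Unitization.inr_mul, map_sub, map_mul, map_mul]
  have hfinV : Finite V := by
    refine si_finite hInt hGen hLay hX hNil hCl hH hFin hC T hTB hTnil hcomm (w := π (a : U)) ?_ ?_
    · intro h
      exact haJ ((hker _).1 h)
    · intro I hI hne
      by_contra hcon
      have h1 : Idl (I.comap π.toLinearMap) := hI.comap π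
      have h2 : J ≤ I.comap π.toLinearMap := by
        intro x hx
        change π x ∈ I
        rw [(hker x).2 hx]
        exact I.zero_mem
      have h3 := hmax _ h1 h2 hcon
      apply hne
      rw [eq_bot_iff]
      intro v hv
      obtain ⟨u, rfl⟩ := hπ v
      have h4 : u ∈ I.comap π.toLinearMap := hv
      rw [h3] at h4
      rw [Submodule.mem_bot]
      exact (hker u).2 h4
  -- the ideal of `A`
  let ι : A →ₗ[F] V := π.toLinearMap ∘ₗ (Unitization.inrNonUnitalAlgHom F A : A →ₗ[F] U)
  have hι : ∀ x : A, ι x = π (x : U) := fun x => rfl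
  refine ⟨LinearMap.ker ι, ?_, ?_, ?_⟩
  · intro u x hx
    rw [LinearMap.mem_ker, hι] at hx
    constructor
    · rw [LinearMap.mem_ker, hι, Unitization.inr_mul, map_mul, hx, mul_zero]
    · rw [LinearMap.mem_ker, hι, Unitization.inr_mul, map_mul, hx, zero_mul]
  · exact Finite.of_injective _ (LinearMap.ker_eq_bot.1 (Submodule.ker_liftQ_eq_bot' _ ι rfl))
  · rw [LinearMap.mem_ker, hι, hker]
    exact haJ

end Pool.Agent.N62.RF
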