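import Pool.Agent.N62.RF.Stm2
import Pool.Agent.N62.RF.Base

/-! Locally residually finite varieties: the law for powers of ideals. -/

set_option autoImplicit false

namespace Pool.Agent.N62.RF.PN

open MvPolynomial

theorem t (hI : S_INT) (hT : S_TRI) : S_PN := by
  intro F _ _ U _ _ A Φ e hA hL hE hmid
  obtain ⟨P, hP, N0, -, hM⟩ := hI F Φ hmid
  refine ⟨N0, ?_⟩
  intro N hN I hI' hIA i j hi hj x hx z hz c hc T hT' hle hb
  have hG : X 0 ^ (N - N0) * P ∈ aI Φ := Ideal.mul_mem_left _ _ hP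
  have h1 := hT F U A Φ e hA hL c hc x (hIA (ip_le_self hI' hi hx)) z
    (hIA (ip_le_self hI' hj hz)) 1 (ip I (i + j + 1)) (by
      intro a b l p _
      rw [map_one, mul_one]
      refine ev_err_mem hE hI' hi hj _ ?_ ?_
      · exact ((idl_ip hI' i) _ _ ((idl_ip hI' i) _ _ hx).1).2
      · exact ((idl_ip hI' j) _ _ hz).2) (X 0 ^ (N - N0) * P) hG
  rw [map_one, one_mul] at h1
  have e1 : (X 0 ^ (N - N0) * P : MvPolynomial (Fin 3) F) =
      X 0 ^ N + X 0 ^ (N - N0) * (P - X 0 ^ N0) := by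
    rw [mul_sub, ← pow_add, Nat.sub_add_cancel hN]; ring
  rw [e1, map_add] at h1
  have e2 : tri c x z (X 0 ^ N : MvPolynomial (Fin 3) F) = x * c ^ N * z := by
    rw [X_pow_eq_monomial, tri_monomial]; simp
  have h2 : tri c x z (X 0 ^ (N - N0) * (P - X 0 ^ N0)) ∈ T := by
    rw [tri_eq_sum]
    refine Submodule.sum_mem _ fun m hm => Submodule.smul_mem _ _ ?_
    have hm0 : m 0 < N := by
      rw [mem_support_iff, X_pow_eq_monomial, coeff_monomial_mul'] at hm
      split_ifs at hm with h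
      · rw [one_mul] at hm
        have h3 := hM _ hm
        have h4 := h 0
        simp only [Finsupp.coe_tsub, Pi.sub_apply, Finsupp.single_eq_same] at h3 h4
        omega
      · exact absurd rfl hm
    have e3 : c ^ m 1 * x * c ^ m 0 * z * c ^ m 2 = c ^ m 1 * (x * c ^ m 0 * z) * c ^ m 2 := by
      simp only [mul_assoc]
    rw [e3]
    exact (hT' _ _ (hT' _ _ (hb _ hm0)).1).2
  have h3 := Submodule.sub_mem _ (hle h1) h2
  rw [e2, add_sub_cancel_right] at h3
  exact h3

end Pool.Agent.N62.RF.PN
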