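import Pool.Agent.N62.RF.Stm

/-!
# Project LF/RF (helper62), task QUOT: from ideals to quotient algebras (helper712)
-/

set_option autoImplicit false

namespace Pool.Agent.N62.RF.QUOT

open Pool.Agent.N62.RF

section

variable {F : Type} [Field F] {A : Type} [NonUnitalRing A] [Module F A] [IsScalarTower F A A]
  [SMulCommClass F A A] (J : Submodule F A) (hJ : NIdl F A J)

/-- the multiplication of the quotient -/
def qmul (x y : A ⧸ J) : A ⧸ J :=
  Quotient.liftOn₂' x y (fun a b => Submodule.Quotient.mk (a * b)) (by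
    intro a₁ a₂ b₁ b₂ h₁ h₂
    rw [Submodule.quotientRel_def] at h₁ h₂
    refine (Submodule.Quotient.eq J).2 ?_
    have e : a₁ * a₂ - b₁ * b₂ = (a₁ - b₁) * a₂ + b₁ * (a₂ - b₂) := by
      rw [sub_mul, mul_sub]
      abel
    rw [e]
    exact J.add_mem (hJ a₂ _ h₁).2 (hJ b₁ _ h₂).1)

theorem qmul_mk (a b : A) : qmul J hJ (Submodule.Quotient.mk a) (Submodule.Quotient.mk b) =
    Submodule.Quotient.mk (a * b) := rfl

/-- the quotient ring -/
@[reducible] def nur : NonUnitalRing (A ⧸ J) :=
  { (inferInstance : AddCommGroup (A ⧸ J)) with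
    mul := qmul J hJ
    left_distrib := by
      intro x y z
      obtain ⟨a, rfl⟩ := Submodule.Quotient.mk_surjective J x
      obtain ⟨b, rfl⟩ := Submodule.Quotient.mk_surjective J y
      obtain ⟨c, rfl⟩ := Submodule.Quotient.mk_surjective J z
      exact congrArg (Submodule.Quotient.mk (p := J)) (mul_add a b c)
    right_distrib := by
      intro x y z
      obtain ⟨a, rfl⟩ := Submodule.Quotient.mk_surjective J x
      obtain ⟨b, rfl⟩ := Submodule.Quotient.mk_surjective J y
      obtain ⟨c, rfl⟩ := Submodule.Quotient.mk_surjective J z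
      exact congrArg (Submodule.Quotient.mk (p := J)) (add_mul a b c)
    zero_mul := by
      intro x
      obtain ⟨a, rfl⟩ := Submodule.Quotient.mk_surjective J x
      exact congrArg (Submodule.Quotient.mk (p := J)) (zero_mul a)
    mul_zero := by
      intro x
      obtain ⟨a, rfl⟩ := Submodule.Quotient.mk_surjective J x
      exact congrArg (Submodule.Quotient.mk (p := J)) (mul_zero a)
    mul_assoc := by
      intro x y z
      obtain ⟨a, rfl⟩ := Submodule.Quotient.mk_surjective J x
      obtain ⟨b, rfl⟩ := Submodule.Quotient.mk_surjective J y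
      obtain ⟨c, rfl⟩ := Submodule.Quotient.mk_surjective J z
      exact congrArg (Submodule.Quotient.mk (p := J)) (mul_assoc a b c) }

end

theorem t : S_QUOT := by
  intro F _ _ A _ _ _ _ h a ha
  obtain ⟨J, hJ, hfin, haJ⟩ := h a ha
  letI r : NonUnitalRing (A ⧸ J) := nur J hJ
  letI m : Module F (A ⧸ J) := Submodule.Quotient.module J
  haveI t1 : IsScalarTower F (A ⧸ J) (A ⧸ J) := by
    constructor
    intro c x y
    obtain ⟨a, rfl⟩ := Submodule.Quotient.mk_surjective J x
    obtain ⟨b, rfl⟩ := Submodule.Quotient.mk_surjective J y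
    exact congrArg (Submodule.Quotient.mk (p := J)) (smul_mul_assoc c a b)
  haveI t2 : SMulCommClass F (A ⧸ J) (A ⧸ J) := by
    constructor
    intro c x y
    obtain ⟨a, rfl⟩ := Submodule.Quotient.mk_surjective J x
    obtain ⟨b, rfl⟩ := Submodule.Quotient.mk_surjective J y
    exact congrArg (Submodule.Quotient.mk (p := J)) (mul_smul_comm c a b).symm
  refine ⟨A ⧸ J, r, m, t1, t2,
    { toFun := Submodule.Quotient.mk
      map_smul' := fun c x => rfl
      map_zero' := rfl
      map_add' := fun x y => rfl
      map_mul' := fun x y => rfl }, Submodule.Quotient.mk_surjective J, ?_, ?_⟩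
  · exact Module.Finite.of_finite
  · intro h0
    exact haJ ((Submodule.Quotient.mk_eq_zero J).1 h0)

end Pool.Agent.N62.RF.QUOT
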