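import Pool.Agent.N62.RF.Stm

/-! Locally residually finite varieties: one more statement. -/

set_option autoImplicit false

namespace Pool.Agent.N62.RF

/-- Task PN. -/
def S_PN : Prop := ∀ (F : Type) [Field F] [Finite F] (U : Type) [Ring U] [Algebra F U]
  (A : Submodule F U) (Φ : MvPolynomial (Fin 3) F) (e : FreeAlgebra F (Fin 3)), Idl A →
  LawOn A Φ e → Err e → mid Φ ≠ 0 → ∃ N0 : ℕ, ∀ N, N0 ≤ N → ∀ I : Submodule F U, Idl I → I ≤ A →
    ∀ i j, 1 ≤ i → 1 ≤ j → ∀ x ∈ ip I i, ∀ z ∈ ip I j, ∀ c ∈ A, ∀ T : Submodule F U, Idl T →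
      ip I (i + j + 1) ≤ T → (∀ b, b < N → x * c ^ b * z ∈ T) → x * c ^ N * z ∈ T

end Pool.Agent.N62.RF
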