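import Pool.Agent.N62.RF.Base
import Pool.Agent.N62.RF.Stm2

/-!
Task SW: sandwich lemma.
-/

set_option autoImplicit false

namespace Pool.Agent.N62.RF.SW

section

variable {F : Type} [Field F] {U : Type} [Ring U] [Algebra F U]

/-- the `d`-letters -/
def dl (s r : ℕ) (i : Fin (s + r)) : Bool := decide (s ≤ i.val)

/-- the span of the values of the words with exactly `m` `d`-letters -/
def W (F : Type) [Field F] {U : Type} [Ring U] [Algebra F U] {s r : ℕ} (G : Fin (s + r) → U)
    (m : ℕ) : Submodule F U :=
  Submodule.span F {t | ∃ w : List (Fin (s + r)), w.countP (dl s r) = m ∧ t = (w.map G).prod}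

lemma word_mem_W {s r : ℕ} (G : Fin (s + r) → U) (w : List (Fin (s + r))) :
    (w.map G).prod ∈ W F G (w.countP (dl s r)) :=
  Submodule.subset_span ⟨w, rfl, rfl⟩

lemma W_mul {s r : ℕ} (G : Fin (s + r) → U) (m k : ℕ) : W F G m * W F G k ≤ W F G (m + k) := by
  unfold W
  rw [Submodule.span_mul_span]
  apply Submodule.span_mono
  rintro _ ⟨_, ⟨w, hw, rfl⟩, _, ⟨w', hw', rfl⟩, rfl⟩
  exact ⟨w ++ w', by rw [List.countP_append, hw, hw'], by simp⟩

lemma top_le_W {s r : ℕ} {g : Fin s → U} (hg : Algebra.adjoin F (Set.range g) = ⊤)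
    (h : Fin r → U) : (⊤ : Submodule F U) ≤ W F (Fin.append g h) 0 := by
  intro u _
  refine Submodule.span_mono ?_ (mem_span_words hg u)
  rintro _ ⟨w, rfl⟩
  refine ⟨w.map (Fin.castAdd r), ?_, ?_⟩
  · rw [List.countP_eq_zero]
    intro a ha
    obtain ⟨i, _, rfl⟩ := List.mem_map.1 ha
    have := i.isLt
    simp only [dl, Fin.val_castAdd, decide_eq_true_eq]
    omega
  · rw [List.map_map]
    congr 1
    apply List.map_congr_left
    intro i _
    simp

lemma idg_le_W {s r : ℕ} {g : Fin s → U} (hg : Algebra.adjoin F (Set.range g) = ⊤)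
    (h : Fin r → U) (S : Set U) (hS : ∀ t ∈ S, ∃ i, h i = t) :
    idg F S ≤ W F (Fin.append g h) 1 := by
  rw [idg, Submodule.span_le]
  rintro _ ⟨u, v, t, ht, rfl⟩
  obtain ⟨i, rfl⟩ := hS t ht
  have hu := top_le_W hg h (show u ∈ (⊤ : Submodule F U) from trivial)
  have hv := top_le_W hg h (show v ∈ (⊤ : Submodule F U) from trivial)
  have ht1 : h i ∈ W F (Fin.append g h) 1 := by
    have := word_mem_W (F := F) (Fin.append g h) [Fin.natAdd s i]
    simpa [dl] using this
  have h1 := W_mul _ _ _ (Submodule.mul_mem_mul hu ht1)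
  have h2 := W_mul _ _ _ (Submodule.mul_mem_mul h1 hv)
  simpa using h2

lemma ip_le_W {s r : ℕ} {g : Fin s → U} (hg : Algebra.adjoin F (Set.range g) = ⊤)
    (h : Fin r → U) (S : Set U) (hS : ∀ t ∈ S, ∃ i, h i = t) (n : ℕ) :
    ip (idg F S) n ≤ W F (Fin.append g h) n := by
  induction n with
  | zero => exact top_le_W hg h
  | succ n ih =>
    rw [ip_succ]
    exact (mul_le_mul' ih (idg_le_W hg h S hS)).trans (W_mul _ _ _)

/-- a word containing a `d`-letter has its value in the ideal -/
lemma val_mem {s r : ℕ} (g : Fin s → U) (h : Fin r → U) {D : Submodule F U} (hD : Idl D)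
    (hh : ∀ i, h i ∈ D) (v : List (Fin (s + r))) (hv : v.countP (dl s r) ≠ 0) :
    (v.map (Fin.append g h)).prod ∈ D := by
  induction v with
  | nil => exact absurd rfl hv
  | cons a v ih =>
    rw [List.map_cons, List.prod_cons]
    by_cases ha : dl s r a = true
    · have : Fin.append g h a ∈ D := by
        simp only [dl, decide_eq_true_eq] at ha
        have e : a = Fin.natAdd s ⟨a.val - s, by omega⟩ := by
          apply Fin.ext
          simp only [Fin.val_natAdd]
          omega
        rw [e, Fin.append_right]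
        exact hh _
      exact (hD _ _ this).2
    · rw [List.countP_cons_of_neg ha] at hv
      exact (hD _ _ (ih hv)).1

lemma map_flatten_prod {s : ℕ} (G : Fin s → U) (k : ℕ) (v : List (Fin s)) :
    (((List.replicate k v).flatten).map G).prod = ((v.map G).prod) ^ k := by
  rw [List.map_flatten, List.prod_flatten, List.map_replicate, List.map_replicate,
    List.prod_replicate]

end

theorem t (hR : S_RW) (hP : S_PN) : S_SW := by
  intro F _ _ U _ _ A Φ e d s g hC S hSA hnil
  obtain ⟨hA, hlaw, herr, hmid, hmpi, hgA, hgen⟩ := hC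
  classical
  set r := S.card with hr
  set h : Fin r → U := fun i => (S.equivFin.symm i : U) with hh
  have hhS : ∀ i, h i ∈ (S : Set U) := fun i => (S.equivFin.symm i).2
  have hsurj : ∀ t ∈ (S : Set U), ∃ i, h i = t := by
    intro t ht
    exact ⟨S.equivFin ⟨t, ht⟩, by simp [hh]⟩
  set D := idg F (S : Set U) with hDdef
  have hD : Idl D := idl_idg _
  have hhD : ∀ i, h i ∈ D := fun i => subset_idg _ (hhS i)
  set G := Fin.append g h with hG
  have hGA : ∀ i, G i ∈ A := by
    intro i
    refine Fin.addCases (fun j => ?_) (fun j => ?_) i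
    · rw [hG, Fin.append_left]; exact hgA j
    · rw [hG, Fin.append_right]; exact hSA (hhS j)
  have hval : ∀ w : List (Fin (s + r)), w ≠ [] → (w.map G).prod ∈ A := by
    intro w hw
    refine hA.prod_mem (by simpa using hw) ?_
    intro a ha
    obtain ⟨i, _, rfl⟩ := List.mem_map.1 ha
    exact hGA i
  -- the exponent
  obtain ⟨N0, hN0⟩ := hP F U A Φ e hA hlaw herr hmid
  have hexp : ∀ v : List (Fin (s + r)), ∃ k, v.countP (dl s r) ≠ 0 → (v.map G).prod ^ k = 0 := by
    intro v
    by_cases hv : v.countP (dl s r) = 0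
    · exact ⟨0, fun h => absurd hv h⟩
    · obtain ⟨k, hk⟩ := hnil _ (val_mem g h hD hhD v hv)
      exact ⟨k, fun _ => hk⟩
  choose kk hkk using hexp
  obtain ⟨B, hB⟩ := ((List.finite_length_le (Fin (s + r)) d).image kk).bddAbove
  set N := max (N0 + 1) B with hN
  have hNN0 : N0 ≤ N := le_trans (Nat.le_succ _) (le_max_left _ _)
  have hN1 : 1 ≤ N := le_trans (Nat.le_add_left 1 N0) (le_max_left _ _)
  have hnilv : ∀ v : List (Fin (s + r)), v.length ≤ d → v.countP (dl s r) ≠ 0 →
      (v.map G).prod ^ N = 0 := by
    intro v hv hc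
    have h1 : kk v ≤ B := hB ⟨v, hv, rfl⟩
    exact pow_eq_zero_of_le (h1.trans (le_max_right _ _)) (hkk v hc)
  obtain ⟨β, hβ⟩ := hR (s + r) d N
  refine ⟨β, ?_⟩
  intro Y hY hYA x hx z hz t ht
  have hx1 : x ∈ ip Y 1 := by rwa [ip_one hY]
  have hz1 : z ∈ ip Y 1 := by rwa [ip_one hY]
  have hT : Idl (ip Y 3) := idl_ip hY 3
  set φ : U →ₗ[F] U := (LinearMap.mulRight F z) ∘ₗ (LinearMap.mulLeft F x) with hφ
  have hφa : ∀ u, φ u = x * u * z := fun u => by simp [hφ]
  have key : ∀ w : List (Fin (s + r)), w.countP (dl s r) = β →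
      φ (w.map G).prod ∈ ip Y 3 := by
    refine hβ F U A hA hmpi G hGA φ (ip Y 3) (fun w => w.countP (dl s r) = β) ?_ ?_ ?_
    · intro w w' hp hw
      rw [← hp.countP_eq]
      exact hw
    · intro a v b hv hvd hQ hlt
      by_cases hc : v.countP (dl s r) = 0
      · have hcount : ∀ k : ℕ, (a ++ (List.replicate k v).flatten ++ b).countP (dl s r) =
            a.countP (dl s r) + b.countP (dl s r) := by
          intro k
          have h0 : ((List.replicate k v).flatten).countP (dl s r) = 0 := by
            rw [List.countP_flatten, List.map_replicate, List.sum_replicate, hc, smul_zero]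
          rw [List.countP_append, List.countP_append, h0, add_zero]
        have hform : ∀ k : ℕ, φ ((a ++ (List.replicate k v).flatten ++ b).map G).prod =
            (x * (a.map G).prod) * (v.map G).prod ^ k * ((b.map G).prod * z) := by
          intro k
          rw [hφa, List.map_append, List.map_append, List.prod_append, List.prod_append,
            map_flatten_prod]
          noncomm_ring
        rw [hform N]
        refine hN0 N hNN0 Y hY hYA 1 1 le_rfl le_rfl _ ((idl_ip hY 1) _ x hx1).2 _
          ((idl_ip hY 1) _ z hz1).1 _ (hval v hv) (ip Y 3) hT le_rfl ?_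
        intro k hk
        rw [← hform k]
        refine hlt _ ?_ ?_
        · have hvl : 0 < v.length := List.length_pos_iff.mpr hv
          simp only [List.length_append, List.length_flatten, List.map_replicate,
            List.sum_replicate, smul_eq_mul]
          have := Nat.mul_lt_mul_of_pos_right hk hvl
          omega
        · show List.countP (dl s r) _ = β
          rw [hcount k, ← hcount N]
          exact hQ
      · rw [hφa, List.map_append, List.map_append, List.prod_append, List.prod_append,
          map_flatten_prod, hnilv v hvd hc]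
        simp
    · intro w hw hQ
      have hQ' : w.countP (dl s r) = β := hQ
      have := List.countP_le_length (p := dl s r) (l := w)
      omega
  have hle : W F G β ≤ (ip Y 3).comap φ := by
    unfold W
    rw [Submodule.span_le]
    rintro _ ⟨w, hw, rfl⟩
    exact key w hw
  have h2 := hle (ip_le_W hgen h (S : Set U) hsurj β ht)
  rw [Submodule.mem_comap, hφa] at h2
  exact h2

end Pool.Agent.N62.RF.SW
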