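import Pool.Agent.N62.RF.Base
import Pool.Agent.N62.RF.Stm2

/-!
Locally residually finite varieties: subdirectly irreducible algebras with a nil commutator ideal
are finite.
-/

set_option autoImplicit false

namespace Pool.Agent.N62.RF

open MvPolynomial

theorem ofFn_cast {α : Type} {n : ℕ} (l : List α) (h : l.length = n) :
    (List.ofFn fun i : Fin n => l.get (i.cast h.symm)) = l := by
  subst h
  exact List.ofFn_get l

theorem mid_ne_zero {F : Type} [Field F] {P : MvPolynomial (Fin 3) F} {N : ℕ} (hP : MonicM P N) :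
    mid P ≠ 0 := by
  intro h0
  have h1 : mid P = Polynomial.X ^ N + mid (P - X 0 ^ N) := by
    rw [map_sub, map_pow]
    have : mid (X 0 : MvPolynomial (Fin 3) F) = Polynomial.X := by
      simp [mid]
    rw [this]; ring
  have h2 : (mid (P - X 0 ^ N)).coeff N = 0 := by
    conv_lhs => rw [MvPolynomial.as_sum (P - X 0 ^ N)]
    rw [map_sum, Polynomial.finsetSum_coeff]
    apply Finset.sum_eq_zero
    intro m hm
    have hlt := hP m (mem_support_iff.1 hm)
    have hmm : mid (monomial m (coeff m (P - X 0 ^ N))) =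
        Polynomial.C (coeff m (P - X 0 ^ N)) *
          ((Polynomial.X : Polynomial F) ^ m 0 * 0 ^ m 1 * 0 ^ m 2) := by
      rw [mid, aeval_monomial, Finsupp.prod_fintype _ _ (fun i => pow_zero _),
        Fin.prod_univ_three]
      rfl
    rw [hmm]
    rw [Polynomial.coeff_C_mul]
    by_cases h : m 1 = 0 ∧ m 2 = 0
    · rw [h.1, h.2, pow_zero, mul_one, mul_one, Polynomial.coeff_X_pow,
        if_neg (by omega), mul_zero]
    · have : (Polynomial.X : Polynomial F) ^ m 0 * 0 ^ m 1 * 0 ^ m 2 = 0 := by
        by_cases h1 : m 1 = 0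
        · have h2 : m 2 ≠ 0 := fun h2 => h ⟨h1, h2⟩
          rw [zero_pow h2, mul_zero]
        · rw [zero_pow h1, mul_zero, zero_mul]
      rw [this, Polynomial.coeff_zero, mul_zero]
  have h3 := congrArg (fun q => Polynomial.coeff q N) h1
  simp only [h0, Polynomial.coeff_zero, Polynomial.coeff_add, h2, Polynomial.coeff_X_pow,
    if_true, add_zero] at h3
  exact zero_ne_one h3

section

variable {F : Type} [Field F] [Finite F] {U : Type} [Ring U] [Algebra F U]

/-- all layers together -/
theorem arp_top (hGen : S_GEN) (hLay : S_LAYER) (hX : S_ARPX) {A : Submodule F U}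
    {Φ : MvPolynomial (Fin 3) F} {e : FreeAlgebra F (Fin 3)} {d s : ℕ} {g : Fin s → U}
    (hC : Ctx A Φ e d g) (S : Finset U) (hS : (S : Set U) ⊆ A)
    (hcomm : ∀ u v : U, u * v - v * u ∈ idg F (S : Set U)) (c : U) (n : ℕ) :
    ARP c ⊤ (ip (idg F (S : Set U)) (n + 1)) := by
  classical
  set D := idg F (S : Set U) with hD
  have hDi : Idl D := idl_idg _
  induction n with
  | zero =>
    refine hLay F U D ⊤ (ip D (0 + 1)) s g idl_top (idl_ip hDi _) le_top hC.gen hcomm ?_ {1} ?_ ?_ c
    · intro d hd v _
      rw [zero_add, ip_one hDi]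
      exact ⟨(hDi v d hd).2, (hDi v d hd).1⟩
    · exact fun _ _ => trivial
    · intro u _
      refine Submodule.mem_sup_left ?_
      have := mul_mem_idg (F := F) (S := (({1} : Finset U) : Set U)) u 1 (s := 1) (by simp)
      rwa [mul_one, mul_one] at this
  | succ n ih =>
    refine hX F U c ⊤ (ip D (n + 1)) (ip D (n + 1 + 1)) idl_top (idl_ip hDi _) (idl_ip hDi _) ih ?_
    obtain ⟨T, hT, hgen⟩ := hGen F U A Φ e d s g hC S hS
    refine hLay F U D (ip D (n + 1)) (ip D (n + 1 + 1)) s g (idl_ip hDi _) (idl_ip hDi _)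
      (ip_le hDi (Nat.le_succ _)) hC.gen hcomm ?_
      ((Finset.univ : Finset (Fin (n + 1) → T)).image
        fun a => (List.ofFn fun i => (a i : U)).prod) ?_ ?_ c
    · intro d hd v hv
      constructor
      · have h := mul_mem_ip hDi (i := 1) (j := n + 1) (by rw [ip_one hDi]; exact hd) hv
        rwa [Nat.add_comm 1 (n + 1)] at h
      · exact mul_mem_ip hDi hv (by rw [ip_one hDi]; exact hd)
    · intro t ht
      simp only [Finset.coe_image, Finset.coe_univ, Set.image_univ, Set.mem_range] at ht
      obtain ⟨a, rfl⟩ := ht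
      have key : ∀ l : List U, (∀ b ∈ l, b ∈ D) → l.prod ∈ ip D l.length := by
        intro l
        induction l with
        | nil => intro _; trivial
        | cons b l ihl =>
          intro h
          rw [List.prod_cons, List.length_cons, Nat.add_comm]
          exact mul_mem_ip hDi (by rw [ip_one hDi]; exact h b (List.mem_cons_self ..))
            (ihl fun x hx => h x (List.mem_cons_of_mem _ hx))
      have := key (List.ofFn fun i => (a i : U)) (by
        intro b hb
        obtain ⟨i, rfl⟩ := (List.mem_ofFn' _ _).1 hb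
        exact hT (a i).2)
      rwa [List.length_ofFn] at this
    · refine (hgen (n + 1) (Nat.le_add_left _ _)).trans (sup_le_sup_right (idg_mono ?_) _)
      rintro t ⟨l, hl, hlT, rfl⟩
      simp only [Finset.coe_image, Finset.coe_univ, Set.image_univ, Set.mem_range]
      refine ⟨fun i => ⟨l.get (i.cast hl.symm), hlT _ (List.get_mem _ _)⟩, ?_⟩
      rw [ofFn_cast l hl]

theorem si_finite (hInt : S_INT) (hGen : S_GEN) (hLay : S_LAYER) (hX : S_ARPX) (hNil : S_NILP)
    (hCl : S_CLAIM) (hH : S_HFIN) (hFin : S_FINU) {A : Submodule F U}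
    {Φ : MvPolynomial (Fin 3) F} {e : FreeAlgebra F (Fin 3)} {d s : ℕ} {g : Fin s → U}
    (hC : Ctx A Φ e d g) (S : Finset U) (hS : (S : Set U) ⊆ A)
    (hnil : ∀ t ∈ idg F (S : Set U), ∃ k, t ^ k = 0)
    (hcomm : ∀ u v : U, u * v - v * u ∈ idg F (S : Set U)) {w : U} (hw : w ≠ 0)
    (hwI : ∀ I : Submodule F U, Idl I → I ≠ ⊥ → w ∈ I) : Finite U := by
  classical
  set D := idg F (S : Set U) with hD
  have hDi : Idl D := idl_idg _
  obtain ⟨n, hn⟩ := hNil F U A Φ e d s g hC S hS hnil
  obtain ⟨P, hPa, N, _, hPN⟩ := hInt F Φ hC.mid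
  have hmid : mid P ≠ 0 := mid_ne_zero hPN
  have hn' : ip D (n + 1) = ⊥ := by
    rw [← le_bot_iff]
    refine (ip_le hDi (Nat.le_succ n)).trans ?_
    rw [hn]
  refine hFin F U D s g hDi hC.gen hcomm ⟨n, hn⟩ ?_ ?_
  · obtain ⟨T, hT, hgen⟩ := hGen F U A Φ e d s g hC S hS
    intro m hm
    refine ⟨(Finset.univ : Finset (Fin m → T)).image
        fun a => (List.ofFn fun i => (a i : U)).prod, ?_, ?_⟩
    · intro t ht
      simp only [Finset.coe_image, Finset.coe_univ, Set.image_univ, Set.mem_range] at ht
      obtain ⟨a, rfl⟩ := ht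
      have key : ∀ l : List U, (∀ b ∈ l, b ∈ D) → l.prod ∈ ip D l.length := by
        intro l
        induction l with
        | nil => intro _; trivial
        | cons b l ihl =>
          intro h
          rw [List.prod_cons, List.length_cons, Nat.add_comm]
          exact mul_mem_ip hDi (by rw [ip_one hDi]; exact h b (List.mem_cons_self ..))
            (ihl fun x hx => h x (List.mem_cons_of_mem _ hx))
      have := key (List.ofFn fun i => (a i : U)) (by
        intro b hb
        obtain ⟨i, rfl⟩ := (List.mem_ofFn' _ _).1 hb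
        exact hT (a i).2)
      rwa [List.length_ofFn] at this
    · refine (hgen m hm).trans (sup_le_sup_right (idg_mono ?_) _)
      rintro t ⟨l, hl, hlT, rfl⟩
      simp only [Finset.coe_image, Finset.coe_univ, Set.image_univ, Set.mem_range]
      refine ⟨fun i => ⟨l.get (i.cast hl.symm), hlT _ (List.get_mem _ _)⟩, ?_⟩
      rw [ofFn_cast l hl]
  · intro i
    obtain ⟨ψ, hψ0, hψc, hψ1, hψ2⟩ := hH F U D s g hDi hC.gen hcomm ⟨n, hn⟩ w hw hwI (g i)
    set c := Polynomial.aeval (g i) ψ with hc
    have hcA : c ∈ A := hC.idl.aeval_mem (hC.gA i) hψc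
    obtain ⟨_, ⟨m, hm⟩, _⟩ := arp_top hGen hLay hX hC S hS hcomm c n
    have hnot : ∀ v v' : U, w ≠ c ^ m * v + v' * c ^ m := by
      intro v v' h
      have := hm w trivial v trivial v' trivial (by
          rw [← hD, hn', ← h, sub_self]; exact Submodule.zero_mem _) (by
          rw [hψ1]; exact Submodule.zero_mem _) (by rw [hψ2]; exact Submodule.zero_mem _)
      rw [← hD, hn', Submodule.mem_bot] at this
      exact hw this
    obtain ⟨k, hk⟩ := hCl F U A D Φ e hC.idl hDi (idg_le hC.idl hS) hcomm ⟨n, hn⟩ hC.law hC.err P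
      hPa (Polynomial.X * mid P) 1 (by simp) (by rw [pow_one]; exact Dvd.intro_left _ rfl) c hcA m
    set y := Polynomial.aeval c (Polynomial.X * mid P) with hy
    have hyk : y ^ k = 0 := by
      by_contra hne
      have hI : w ∈ idg F ({y ^ k} : Set U) := by
        apply hwI _ (idl_idg _)
        intro h
        have h1 : y ^ k ∈ idg F ({y ^ k} : Set U) := subset_idg _ rfl
        rw [h, Submodule.mem_bot] at h1
        exact hne h1
      have h2 : ∀ t ∈ idg F ({y ^ k} : Set U), ∃ v v' : U, t = c ^ m * v + v' * c ^ m := by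
        intro t ht
        induction ht using Submodule.span_induction with
        | mem t h =>
          obtain ⟨u, v, _, rfl, rfl⟩ := h
          exact hk u v
        | zero => exact ⟨0, 0, by simp⟩
        | add t t' _ _ h h' =>
          obtain ⟨v, v', rfl⟩ := h
          obtain ⟨z, z', rfl⟩ := h'
          exact ⟨v + z, v' + z', by noncomm_ring⟩
        | smul a t _ h =>
          obtain ⟨v, v', rfl⟩ := h
          exact ⟨a • v, a • v', by rw [smul_add, mul_smul_comm, smul_mul_assoc]⟩
      obtain ⟨v, v', h3⟩ := h2 w hI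
      exact hnot v v' h3
    refine ⟨((Polynomial.X * mid P).comp ψ) ^ k, ?_, ?_⟩
    · apply pow_ne_zero
      have hdeg : ψ.natDegree ≠ 0 := by
        intro h
        rw [Polynomial.natDegree_eq_zero] at h
        obtain ⟨a, rfl⟩ := h
        rw [Polynomial.coeff_C_zero] at hψc
        apply hψ0
        rw [hψc, map_zero]
      intro h
      rcases Polynomial.comp_eq_zero_iff.1 h with h | ⟨_, h⟩
      · rcases mul_eq_zero.1 h with h | h
        · exact Polynomial.X_ne_zero h
        · exact hmid h
      · apply hdeg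
        rw [h, Polynomial.natDegree_C]
    · rw [map_pow, Polynomial.aeval_comp, ← hc, ← hy, hyk]

end

end Pool.Agent.N62.RF
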