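import Pool.Agent.N62.RF.Base
import Pool.Agent.N62.RF.Stm

/-!
Locally residually finite varieties: task TRI (helper539).
-/

set_option autoImplicit false

namespace Pool.Agent.N62.RF.TRI

open MvPolynomial

variable {F : Type} [Field F] {U : Type} [Ring U] [Algebra F U]

/-- linearity: two linear maps on polynomials which agree on monomials -/
theorem lin_ext {f g : MvPolynomial (Fin 3) F →ₗ[F] U} (h : ∀ m, f (monomial m 1) = g (monomial m 1))
    (P : MvPolynomial (Fin 3) F) : f P = g P := by
  have : f = g := by
    apply (basisMonomials (Fin 3) F).ext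
    intro m
    rw [coe_basisMonomials]
    exact h m
  rw [this]

theorem tri_mono (c x z : U) (m : Fin 3 →₀ ℕ) :
    tri c x z (monomial m (1 : F)) = c ^ m 1 * x * c ^ m 0 * z * c ^ m 2 := by
  rw [tri_monomial, one_smul]

/-- Lemma A -/
theorem tri_mono_mul (c x z : U) (m : Fin 3 →₀ ℕ) (H : MvPolynomial (Fin 3) F) :
    tri c x z (monomial m (1 : F) * H) = tri c (c ^ m 1 * x * c ^ m 0) (z * c ^ m 2) H := by
  refine lin_ext (f := (tri c x z).comp (LinearMap.mulLeft F (monomial m (1 : F))))
    (g := tri c (c ^ m 1 * x * c ^ m 0) (z * c ^ m 2)) ?_ H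
  intro k
  rw [LinearMap.comp_apply, LinearMap.mulLeft_apply, monomial_mul, one_mul, tri_mono, tri_mono]
  simp only [Finsupp.add_apply]
  rw [add_comm (m 1) (k 1), pow_add, pow_add, pow_add]
  simp only [mul_assoc]

/-- dependence on `x` is additive -/
theorem tri_add_x (c x x' z : U) (H : MvPolynomial (Fin 3) F) :
    tri c (x + x') z H = tri c x z H + tri c x' z H := by
  refine lin_ext (f := tri c (x + x') z) (g := tri c x z + tri c x' z) ?_ H
  intro k
  rw [LinearMap.add_apply, tri_mono, tri_mono, tri_mono]
  noncomm_ring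

theorem tri_smul_x (c x z : U) (a : F) (H : MvPolynomial (Fin 3) F) :
    tri c (a • x) z H = a • tri c x z H := by
  refine lin_ext (f := tri c (a • x) z) (g := a • tri c x z) ?_ H
  intro k
  rw [LinearMap.smul_apply, tri_mono, tri_mono]
  simp only [mul_smul_comm, smul_mul_assoc]

theorem tri_add_z (c x z z' : U) (H : MvPolynomial (Fin 3) F) :
    tri c x (z + z') H = tri c x z H + tri c x z' H := by
  refine lin_ext (f := tri c x (z + z')) (g := tri c x z + tri c x z') ?_ H
  intro k
  rw [LinearMap.add_apply, tri_mono, tri_mono, tri_mono]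
  noncomm_ring

theorem tri_smul_z (c x z : U) (a : F) (H : MvPolynomial (Fin 3) F) :
    tri c x (a • z) H = a • tri c x z H := by
  refine lin_ext (f := tri c x (a • z)) (g := a • tri c x z) ?_ H
  intro k
  rw [LinearMap.smul_apply, tri_mono, tri_mono]
  simp only [mul_smul_comm, smul_mul_assoc]

theorem X_pow_eq (i : Fin 3) (n : ℕ) :
    (X i : MvPolynomial (Fin 3) F) ^ n = monomial (Finsupp.single i n) 1 := by
  rw [MvPolynomial.X_pow_eq_monomial]

/-- middle -/
theorem tri_Q0 (c x z : U) (Q : Polynomial F) (H : MvPolynomial (Fin 3) F) :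
    tri c x z (Polynomial.aeval (X 0) Q * H) = tri c (x * Polynomial.aeval c Q) z H := by
  induction Q using Polynomial.induction_on' with
  | add p q hp hq =>
    rw [map_add, add_mul, map_add, hp, hq, map_add, mul_add, tri_add_x]
  | monomial n a =>
    rw [Polynomial.aeval_monomial, Polynomial.aeval_monomial, ← Algebra.smul_def,
      ← Algebra.smul_def, smul_mul_assoc, map_smul, mul_smul_comm, tri_smul_x, X_pow_eq,
      tri_mono_mul]
    simp

/-- left -/
theorem tri_Q1 (c x z : U) (Q : Polynomial F) (H : MvPolynomial (Fin 3) F) :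
    tri c x z (Polynomial.aeval (X 1) Q * H) = tri c (Polynomial.aeval c Q * x) z H := by
  induction Q using Polynomial.induction_on' with
  | add p q hp hq =>
    rw [map_add, add_mul, map_add, hp, hq, map_add, add_mul, tri_add_x]
  | monomial n a =>
    rw [Polynomial.aeval_monomial, Polynomial.aeval_monomial, ← Algebra.smul_def,
      ← Algebra.smul_def, smul_mul_assoc, map_smul, smul_mul_assoc, tri_smul_x, X_pow_eq,
      tri_mono_mul]
    simp

/-- right -/
theorem tri_Q2 (c x z : U) (Q : Polynomial F) (H : MvPolynomial (Fin 3) F) :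
    tri c x z (Polynomial.aeval (X 2) Q * H) = tri c x (z * Polynomial.aeval c Q) H := by
  induction Q using Polynomial.induction_on' with
  | add p q hp hq =>
    rw [map_add, add_mul, map_add, hp, hq, map_add, mul_add, tri_add_z]
  | monomial n a =>
    rw [Polynomial.aeval_monomial, Polynomial.aeval_monomial, ← Algebra.smul_def,
      ← Algebra.smul_def, smul_mul_assoc, map_smul, mul_smul_comm, tri_smul_z, X_pow_eq,
      tri_mono_mul]
    simp

theorem tri_sb (c x z : U) (p : Polynomial F) (Φ : MvPolynomial (Fin 3) F) :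
    tri c x z (sb p Φ) = tri (Polynomial.aeval c p) x z Φ := by
  refine lin_ext (f := (tri c x z).comp (sb p).toLinearMap)
    (g := tri (Polynomial.aeval c p) x z) ?_ Φ
  intro k
  rw [LinearMap.comp_apply, AlgHom.toLinearMap_apply, tri_mono]
  have h1 : sb p (monomial k (1 : F)) = Polynomial.aeval (X 0) (p ^ k 0) *
      (Polynomial.aeval (X 1) (p ^ k 1) * (Polynomial.aeval (X 2) (p ^ k 2) * 1)) := by
    rw [sb, aeval_monomial, map_one, one_mul, Finsupp.prod_fintype _ _ (by simp)]
    simp [Fin.prod_univ_three, mul_assoc]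
  have h2 : tri c (Polynomial.aeval c (p ^ k 1) * (x * Polynomial.aeval c (p ^ k 0)))
      (z * Polynomial.aeval c (p ^ k 2)) (1 : MvPolynomial (Fin 3) F) =
      Polynomial.aeval c (p ^ k 1) * (x * Polynomial.aeval c (p ^ k 0)) *
        (z * Polynomial.aeval c (p ^ k 2)) := by
    have e : (1 : MvPolynomial (Fin 3) F) = monomial 0 1 := rfl
    rw [e, tri_mono]
    simp
  rw [h1, tri_Q0, tri_Q1, tri_Q2, h2]
  simp only [map_pow, mul_assoc]

theorem t : S_TRI := by
  intro F _ U _ _ A Φ e hA law c hc x hx z hz Q T hT G hG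
  have key : ∀ (p : Polynomial F), p.coeff 0 = 0 → ∀ H : MvPolynomial (Fin 3) F,
      tri c x z (Polynomial.aeval (X 0) Q * (H * sb p Φ)) ∈ T := by
    intro p hp H
    induction H using MvPolynomial.induction_on' with
    | monomial m a =>
      have e1 : (monomial m a : MvPolynomial (Fin 3) F) = a • monomial m 1 := by
        rw [smul_monomial, smul_eq_mul, mul_one]
      rw [e1, smul_mul_assoc, mul_smul_comm, map_smul, mul_left_comm, tri_mono_mul, tri_Q0, tri_sb]
      refine Submodule.smul_mem _ _ ?_
      have hx' : c ^ m 1 * x * c ^ m 0 * Polynomial.aeval c Q ∈ A :=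
        (hA _ _ (hA _ _ (hA _ x hx).1).2).2
      have hz' : z * c ^ m 2 ∈ A := (hA _ z hz).2
      have h := law _ hx' _ (hA.aeval_mem hc hp) _ hz'
      rw [eq_neg_of_add_eq_zero_left h]
      exact Submodule.neg_mem _ (hT _ _ _ p hp)
    | add P P' h h' =>
      rw [add_mul, mul_add, map_add]
      exact add_mem h h'
  have main : ∀ H : MvPolynomial (Fin 3) F,
      tri c x z (Polynomial.aeval (X 0) Q * (H * G)) ∈ T := by
    unfold aI at hG
    induction hG using Submodule.span_induction with
    | mem G hG =>
      obtain ⟨p, hp, rfl⟩ := hG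
      exact key p hp
    | zero =>
      intro H
      simp
    | add G G' _ _ h h' =>
      intro H
      rw [mul_add, mul_add, map_add]
      exact add_mem (h H) (h' H)
    | smul K G _ h =>
      intro H
      rw [smul_eq_mul, ← mul_assoc H K G]
      exact h _
  have := main 1
  rwa [one_mul] at this

end Pool.Agent.N62.RF.TRI
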