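import Pool.Agent.N62.RF.Stm

/-! Task WORD. -/

set_option autoImplicit false

namespace Pool.Agent.N62.RF.WORD

variable {s : ℕ}

theorem wval_eq (w : List (Fin s)) :
    wval s w = (w.map fun x : Fin s => (x : ℕ)).foldl (fun a x => a * s + x) 0 := by
  rw [wval]
  congr 1
  induction w with
  | nil => rfl
  | cons x w ih =>
    rw [List.map_cons, ← ih]
    rfl

theorem foldl_aux (w : List ℕ) (c : ℕ) :
    w.foldl (fun a x => a * s + x) c =
      c * s ^ w.length + w.foldl (fun a x => a * s + x) 0 := by
  induction w generalizing c with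
  | nil => simp
  | cons x w ih =>
    rw [List.foldl_cons, List.foldl_cons, ih, ih (0 * s + x), List.length_cons]
    ring

theorem wval_append (a b : List (Fin s)) :
    wval s (a ++ b) = wval s a * s ^ b.length + wval s b := by
  rw [wval_eq, wval_eq, wval_eq, List.map_append, List.foldl_append, foldl_aux, List.length_map]

theorem wval_cons (x : Fin s) (w : List (Fin s)) :
    wval s (x :: w) = (x : ℕ) * s ^ w.length + wval s w := by
  have := wval_append [x] w
  simpa [wval_eq] using this

theorem wval_lt (w : List (Fin s)) : wval s w < s ^ w.length := by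
  induction w with
  | nil => simp [wval_eq]
  | cons x w ih =>
    rw [wval_cons, List.length_cons, pow_succ]
    have h1 := x.2
    have h2 : ((x : ℕ) + 1) * s ^ w.length ≤ s * s ^ w.length := Nat.mul_le_mul_right _ h1
    calc (x : ℕ) * s ^ w.length + wval s w < (x : ℕ) * s ^ w.length + s ^ w.length := by omega
      _ = ((x : ℕ) + 1) * s ^ w.length := by ring
      _ ≤ s * s ^ w.length := h2
      _ = s ^ w.length * s := by ring

theorem wval_inj : ∀ (a b : List (Fin s)), a.length = b.length → wval s a = wval s b → a = b
  | [], [], _, _ => rfl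
  | x :: a, y :: b, h, h' => by
    rw [List.length_cons, List.length_cons, Nat.add_right_cancel_iff] at h
    rw [wval_cons, wval_cons, h] at h'
    have h1 := wval_lt a
    have h2 := wval_lt b
    rw [h] at h1
    have hxy : (x : ℕ) = y := by
      by_contra hne
      rcases Nat.lt_or_gt_of_ne hne with hlt | hlt
      · have : ((x : ℕ) + 1) * s ^ b.length ≤ (y : ℕ) * s ^ b.length := Nat.mul_le_mul_right _ hlt
        rw [add_mul, one_mul] at this
        omega
      · have : ((y : ℕ) + 1) * s ^ b.length ≤ (x : ℕ) * s ^ b.length := Nat.mul_le_mul_right _ hlt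
        rw [add_mul, one_mul] at this
        omega
    rw [hxy] at h'
    rw [Fin.ext hxy, wval_inj a b h (by omega)]
  | [], _ :: _, h, _ => by simp at h
  | _ :: _, [], h, _ => by simp at h

theorem cmp (p f g r r' : List (Fin s)) (hfg : f.length = g.length) (hr : r.length = r'.length)
    (h : wval s g < wval s f) : wval s (p ++ (g ++ r')) < wval s (p ++ (f ++ r)) := by
  rw [wval_append, wval_append, wval_append, wval_append, List.length_append, List.length_append,
    hfg, hr]
  have h1 := wval_lt r'
  have h2 : (wval s g + 1) * s ^ r'.length ≤ wval s f * s ^ r'.length := Nat.mul_le_mul_right _ h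
  rw [add_mul, one_mul] at h2
  omega

theorem periodic (x : List (Fin s)) (L δ : ℕ) (h : x.take L = (x.drop δ).take L) (n : ℕ)
    (hn : n * δ ≤ L + δ) : x.take (n * δ) = (List.replicate n (x.take δ)).flatten := by
  induction n with
  | zero => simp
  | succ n ih =>
    have h1 : n * δ ≤ L := by
      rw [add_mul, one_mul] at hn
      omega
    have h2 := ih (by omega)
    have e1 : (n + 1) * δ = δ + n * δ := by ring
    have h3 : (x.drop δ).take (n * δ) = x.take (n * δ) := by
      have e2 : (x.drop δ).take (n * δ) = ((x.drop δ).take L).take (n * δ) := by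
        rw [List.take_take, min_eq_left h1]
      rw [e2, ← h, List.take_take, min_eq_left h1]
    rw [e1, List.take_add, h3, h2, List.replicate_succ, List.flatten_cons]

theorem flatten_pieces (w : List (Fin s)) (P : ℕ → ℕ) (hP : ∀ i, P i ≤ P (i + 1)) (n : ℕ) :
    (List.ofFn fun i : Fin n => (w.drop (P i)).take (P (i + 1) - P i)).flatten =
      (w.drop (P 0)).take (P n - P 0) := by
  induction n with
  | zero => simp
  | succ n ih =>
    have hmono : P 0 ≤ P n := by
      have : Monotone P := monotone_nat_of_le_succ hP
      exact this (Nat.zero_le n)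
    rw [List.ofFn_succ', List.concat_eq_append, List.flatten_append, List.flatten_singleton]
    have h1 : (List.ofFn fun i : Fin n => (w.drop (P (i.castSucc : Fin (n + 1)))).take
        (P ((i.castSucc : Fin (n + 1)) + 1) - P (i.castSucc : Fin (n + 1)))).flatten =
        (w.drop (P 0)).take (P n - P 0) := ih
    rw [h1]
    have e1 : P (n + 1) - P 0 = (P n - P 0) + (P (n + 1) - P n) := by
      have := hP n
      omega
    rw [e1, List.take_add, List.drop_drop]
    have e2 : P 0 + (P n - P 0) = P n := by omega
    rw [e2]
    rfl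

theorem t : S_WORD := by
  classical
  intro s d N
  rcases Nat.eq_zero_or_pos d with rfl | hd
  · refine ⟨0, fun w _ => Or.inr ⟨w, [], fun i => i.elim0, by simp, fun i => i.elim0, ?_⟩⟩
    intro π hπ
    exact absurd (Subsingleton.elim π 1) hπ
  set L := d * N + 1 with hL
  set b := L + d with hb
  set K := 2 ^ (s ^ L) * d + 1 with hK
  refine ⟨K * b, fun w hw => ?_⟩
  -- the factors
  let Fc : ℕ → ℕ → List (Fin s) := fun j o => (w.drop (j * b + o)).take L
  have hFlen : ∀ j o, j < K → o < d → (Fc j o).length = L := by
    intro j o hj ho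
    have h1 : (j + 1) * b ≤ K * b := Nat.mul_le_mul_right _ hj
    rw [add_mul, one_mul] at h1
    simp only [Fc, List.length_take, List.length_drop]
    omega
  by_cases hper : ∃ j < K, ∃ o o', o < o' ∧ o' < d ∧ Fc j o = Fc j o'
  · left
    obtain ⟨j, hj, o, o', hoo, ho', heq⟩ := hper
    set q := j * b + o with hq
    set δ := o' - o with hδ
    have hlen : j * b + b ≤ w.length := by
      have h1 : (j + 1) * b ≤ K * b := Nat.mul_le_mul_right _ hj
      rw [add_mul, one_mul] at h1
      omega
    have h1 : (w.drop q).take L = ((w.drop q).drop δ).take L := by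
      rw [List.drop_drop]
      have e : q + δ = j * b + o' := by omega
      rw [e]
      exact heq
    have hNδ : N * δ ≤ L + δ := by
      have : N * δ ≤ N * d := Nat.mul_le_mul_left _ (by omega)
      rw [Nat.mul_comm N d] at this
      omega
    have h2 := periodic (w.drop q) L δ h1 N hNδ
    refine ⟨w.take q, (w.drop q).take δ, (w.drop q).drop (N * δ), ?_, ?_, ?_⟩
    · rw [← h2, List.append_assoc, List.take_append_drop, List.take_append_drop]
    · intro h3
      have h4 := congrArg List.length h3
      simp only [List.length_take, List.length_drop, List.length_nil] at h4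
      omega
    · rw [List.length_take]
      omega
  · right
    push Not at hper
    -- the sets of values of the factors
    let T : ℕ → Finset ℕ := fun j => (Finset.range d).image fun o => wval s (Fc j o)
    have hTsub : ∀ j, j < K → T j ⊆ Finset.range (s ^ L) := by
      intro j hj x hx
      obtain ⟨o, ho, rfl⟩ := Finset.mem_image.1 hx
      rw [Finset.mem_range] at ho ⊢
      have := wval_lt (Fc j o)
      rwa [hFlen j o hj ho] at this
    have hTcard : ∀ j, j < K → (T j).card = d := by
      intro j hj
      rw [Finset.card_image_of_injOn, Finset.card_range]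
      intro o ho o' ho' h
      rw [Finset.coe_range, Set.mem_Iio] at ho ho'
      have h1 := wval_inj _ _ (by rw [hFlen j o hj ho, hFlen j o' hj ho']) h
      by_contra hne
      rcases Nat.lt_or_gt_of_ne hne with hlt | hlt
      · exact hper j hj o o' hlt ho' h1
      · exact hper j hj o' o hlt ho h1.symm
    obtain ⟨T0, hT0, hfib⟩ := Finset.exists_lt_card_fiber_of_mul_lt_card_of_maps_to
      (s := Finset.range K) (t := (Finset.range (s ^ L)).powerset) (f := T) (n := d)
      (fun j hj => Finset.mem_powerset.2 (hTsub j (Finset.mem_range.1 hj)))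
      (by rw [Finset.card_powerset, Finset.card_range, Finset.card_range]; omega)
    set Fb := (Finset.range K).filter fun j => T j = T0 with hFb
    let J : Fin d ↪o ℕ := Fb.orderEmbOfCardLe hfib.le
    have hJ : ∀ i, J i ∈ Fb := fun i => Finset.orderEmbOfCardLe_mem _ _ _
    have hJK : ∀ i, J i < K := fun i => Finset.mem_range.1 (Finset.mem_filter.1 (hJ i)).1
    have hJT : ∀ i, T (J i) = T0 := fun i => (Finset.mem_filter.1 (hJ i)).2
    have hcard0 : T0.card = d := by
      rw [← hJT ⟨0, hd⟩]
      exact hTcard _ (hJK _)
    let τ : Fin d → ℕ := fun i => T0.orderEmbOfFin hcard0 i.rev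
    have hτ : ∀ i i' : Fin d, i < i' → τ i' < τ i := by
      intro i i' h
      exact (T0.orderEmbOfFin hcard0).strictMono (Fin.rev_lt_rev.2 h)
    have hτmem : ∀ i : Fin d, ∃ o < d, wval s (Fc (J i) o) = τ i := by
      intro i
      have h1 : τ i ∈ T (J i) := by
        rw [hJT]
        exact Finset.orderEmbOfFin_mem _ _ _
      obtain ⟨o, ho, h2⟩ := Finset.mem_image.1 h1
      exact ⟨o, Finset.mem_range.1 ho, h2⟩
    choose O hO hOτ using hτmem
    let P : ℕ → ℕ := fun i => if h : i < d then J ⟨i, h⟩ * b + O ⟨i, h⟩ else
      J ⟨d - 1, by omega⟩ * b + O ⟨d - 1, by omega⟩ + L * (i - (d - 1))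
    have hPi : ∀ i (h : i < d), P i = J ⟨i, h⟩ * b + O ⟨i, h⟩ := fun i h => dif_pos h
    have hPstep : ∀ i, i < d → P i + L ≤ P (i + 1) := by
      intro i hi
      rw [hPi i hi]
      by_cases h1 : i + 1 < d
      · rw [hPi _ h1]
        have h2 : J ⟨i, hi⟩ < J ⟨i + 1, h1⟩ := J.strictMono (by
          rw [Fin.mk_lt_mk]; omega)
        have h3 : (J ⟨i, hi⟩ + 1) * b ≤ J ⟨i + 1, h1⟩ * b := Nat.mul_le_mul_right _ h2
        rw [add_mul, one_mul] at h3
        have h4 := hO ⟨i, hi⟩
        omega
      · have e : i = d - 1 := by omega
        subst e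
        have h5 : P (d - 1 + 1) = J ⟨d - 1, by omega⟩ * b + O ⟨d - 1, by omega⟩ +
            L * (d - 1 + 1 - (d - 1)) := dif_neg (by omega)
        rw [h5]
        have h6 : d - 1 + 1 - (d - 1) = 1 := by omega
        rw [h6, mul_one]
    have hPmono : ∀ i, P i ≤ P (i + 1) := by
      intro i
      by_cases hi : i < d
      · have := hPstep i hi
        omega
      · have e1 : P i = J ⟨d - 1, by omega⟩ * b + O ⟨d - 1, by omega⟩ + L * (i - (d - 1)) :=
          dif_neg hi
        have e2 : P (i + 1) = J ⟨d - 1, by omega⟩ * b + O ⟨d - 1, by omega⟩ +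
          L * (i + 1 - (d - 1)) := dif_neg (by omega)
        rw [e1, e2]
        have : L * (i - (d - 1)) ≤ L * (i + 1 - (d - 1)) := Nat.mul_le_mul_left _ (by omega)
        omega
    have hPlast : P d ≤ w.length := by
      have e1 : P d = J ⟨d - 1, by omega⟩ * b + O ⟨d - 1, by omega⟩ + L * (d - (d - 1)) :=
        dif_neg (by omega)
      have h6 : d - (d - 1) = 1 := by omega
      rw [e1, h6, mul_one]
      have h1 : (J ⟨d - 1, by omega⟩ + 1) * b ≤ K * b := Nat.mul_le_mul_right _ (hJK _)
      rw [add_mul, one_mul] at h1
      have h4 := hO ⟨d - 1, by omega⟩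
      omega
    have hPM : Monotone P := monotone_nat_of_le_succ hPmono
    let u : Fin d → List (Fin s) := fun i => (w.drop (P i)).take (P (i + 1) - P i)
    have hflat : (List.ofFn u).flatten = (w.drop (P 0)).take (P d - P 0) :=
      flatten_pieces w P hPmono d
    have hsplit : w = w.take (P 0) ++ (List.ofFn u).flatten ++ w.drop (P d) := by
      rw [hflat]
      have h1 : w.drop (P d) = (w.drop (P 0)).drop (P d - P 0) := by
        rw [List.drop_drop]
        congr 1
        have := hPM (Nat.zero_le d)
        omega
      rw [h1, List.append_assoc, List.take_append_drop, List.take_append_drop]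
    -- each piece begins with its factor
    have hu : ∀ i : Fin d, ∃ r, u i = Fc (J i) (O i) ++ r := by
      intro i
      refine ⟨((w.drop (P i)).drop L).take (P (i + 1) - P i - L), ?_⟩
      have h1 := hPstep i i.2
      have e1 : P (i + 1) - P i = L + (P (i + 1) - P i - L) := by omega
      have e2 : P i = J i * b + O i := hPi i i.2
      change (w.drop (P i)).take (P (i + 1) - P i) = _
      conv_lhs => rw [e1, List.take_add]
      change _ = (w.drop (J i * b + O i)).take L ++ _
      rw [← e2]
    have hune : ∀ i, u i ≠ [] := by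
      intro i h
      obtain ⟨r, hr⟩ := hu i
      rw [h] at hr
      have h1 := congrArg List.length hr
      rw [List.length_append, hFlen _ _ (hJK i) (hO i)] at h1
      simp only [List.length_nil] at h1
      omega
    refine ⟨w.take (P 0), w.drop (P d), u, hsplit, hune, ?_⟩
    intro π hπ
    -- the first index moved by the permutation
    have hex : ∃ i : ℕ, ∃ h : i < d, π ⟨i, h⟩ ≠ ⟨i, h⟩ := by
      by_contra hcon
      push Not at hcon
      exact hπ (Equiv.ext fun i => hcon i i.2)
    obtain ⟨hi, hne⟩ := Nat.find_spec hex
    set i := Nat.find hex with hidef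
    have hmin : ∀ j (hj : j < i), π ⟨j, by omega⟩ = ⟨j, by omega⟩ := by
      intro j hj
      have := Nat.find_min hex hj
      push Not at this
      exact this (by omega)
    have hgt : (⟨i, hi⟩ : Fin d) < π ⟨i, hi⟩ := by
      rcases lt_trichotomy (⟨i, hi⟩ : Fin d) (π ⟨i, hi⟩) with h | h | h
      · exact h
      · exact absurd h.symm hne
      · exfalso
        have h1 := hmin (π ⟨i, hi⟩).1 h
        have h2 := π.injective h1
        have h3 := congrArg Fin.val h2
        simp only at h3
        have h4 : ((π ⟨i, hi⟩ : Fin d) : ℕ) < i := h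
        omega
    set A := List.ofFn u with hA
    set B := List.ofFn fun j => u (π j) with hB
    have hAl : A.length = d := List.length_ofFn
    have hBl : B.length = d := List.length_ofFn
    have htake : A.take i = B.take i := by
      apply List.ext_getElem
      · simp [hAl, hBl]
      · intro n h1 h2
        have hn : n < i := by
          simp only [List.length_take] at h1
          omega
        simp only [List.getElem_take, hA, hB, List.getElem_ofFn]
        rw [hmin n hn]
    have hAi : A.flatten = (A.take i).flatten ++ (u ⟨i, hi⟩ ++ (A.drop (i + 1)).flatten) := by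
      conv_lhs => rw [← List.take_append_drop i A, List.flatten_append,
        List.drop_eq_getElem_cons (by omega), List.flatten_cons]
      simp [hA]
    have hBi : B.flatten = (A.take i).flatten ++ (u (π ⟨i, hi⟩) ++ (B.drop (i + 1)).flatten) := by
      conv_lhs => rw [← List.take_append_drop i B, List.flatten_append,
        List.drop_eq_getElem_cons (by omega), List.flatten_cons, ← htake]
      simp [hB]
    have hlenAB : A.flatten.length = B.flatten.length := by
      have h1 : A.Perm B := (Equiv.Perm.ofFn_comp_perm π u).symm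
      exact h1.flatten.length_eq
    obtain ⟨r, hr⟩ := hu ⟨i, hi⟩
    obtain ⟨r', hr'⟩ := hu (π ⟨i, hi⟩)
    conv_rhs => rw [hsplit]
    rw [hAi, hBi, hr, hr']
    have hlen2 : (r ++ ((A.drop (i + 1)).flatten ++ w.drop (P d))).length =
        (r' ++ ((B.drop (i + 1)).flatten ++ w.drop (P d))).length := by
      rw [hAi, hBi, hr, hr'] at hlenAB
      simp only [List.length_append, hFlen _ _ (hJK _) (hO _)] at hlenAB ⊢
      omega
    have h := cmp (w.take (P 0) ++ (A.take i).flatten) (Fc (J ⟨i, hi⟩) (O ⟨i, hi⟩))
      (Fc (J (π ⟨i, hi⟩)) (O (π ⟨i, hi⟩))) _ _ (by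
        rw [hFlen _ _ (hJK _) (hO _), hFlen _ _ (hJK _) (hO _)]) hlen2 (by
        rw [hOτ, hOτ]
        exact hτ _ _ hgt)
    simpa only [List.append_assoc] using h

end Pool.Agent.N62.RF.WORD
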